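import Pool.Agent.Helper14.CW.Vol2
import Pool.Agent.Helper22.MEI.Def

/-!
# The support function of a body of constant width containing a regular tetrahedron, in a chart,
is admissible
-/

namespace Helper14.CW

open Set Metric MeasureTheory Helper80.CW Helper82.CW
open scoped ContDiff Topology RealInnerProductSpace Real

section
variable {K : Set E3} {v : Fin 4 → E3} {x0 : E3} {b : OrthonormalBasis (Fin 3) ℝ E3}

/-- the support function at the vertex with the only nonnegative inner product -/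
theorem H0_tri' (hK : IsCompact K) (hw : Width1 K) (hR : Supp (H0 K x0) 1) (h : Gram4 v)
    (hv : ∀ i, x0 + v i ∈ K) {x : E3} (i : Fin 4) (hx : ∀ j, j ≠ i → ⟪v j, x⟫ ≤ 0) :
    H0 K x0 x = ⟪v i, x⟫ := by
  have h1 := H0_tri hK hw hR (h.perm (Equiv.swap 0 i)) (fun j => hv _) (x := x)
    (hx _ (by
      intro e
      have := (Equiv.swap_apply_eq_iff).1 e
      rw [Equiv.swap_apply_right] at this
      exact absurd this (by decide)))
    (hx _ (by
      intro e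
      have := (Equiv.swap_apply_eq_iff).1 e
      rw [Equiv.swap_apply_right] at this
      exact absurd this (by decide)))
    (hx _ (by
      intro e
      have := (Equiv.swap_apply_eq_iff).1 e
      rw [Equiv.swap_apply_right] at this
      exact absurd this (by decide)))
  rw [h1, Equiv.swap_apply_left]

theorem lins (h : Gram4 v) (h0 : b 0 = v 0 - v 1) (h1 : b 1 = v 2 - v 3)
    (h2 : b 2 = Real.sqrt 2 • (v 0 + v 1)) (p : ℝ × ℝ) :
    ⟪v 0, pt b p.1 p.2 1⟫ = p.1 / 2 + Real.sqrt 2 / 4 ∧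
    ⟪v 1, pt b p.1 p.2 1⟫ = -p.1 / 2 + Real.sqrt 2 / 4 ∧
    ⟪v 2, pt b p.1 p.2 1⟫ = p.2 / 2 - Real.sqrt 2 / 4 ∧
    ⟪v 3, pt b p.1 p.2 1⟫ = -p.2 / 2 - Real.sqrt 2 / 4 := by
  obtain ⟨a0, a1, a2, a3⟩ := frame_inner h h0 h1 h2 (pt b p.1 p.2 1)
  have e0 : ⟪b 0, pt b p.1 p.2 1⟫ = p.1 := by rw [inner_pt_b]; simp
  have e1 : ⟪b 1, pt b p.1 p.2 1⟫ = p.2 := by rw [inner_pt_b]; simp
  have e2 : ⟪b 2, pt b p.1 p.2 1⟫ = 1 := by rw [inner_pt_b]; simp
  rw [e0, e2] at a0 a1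
  rw [e1, e2] at a2 a3
  refine ⟨?_, ?_, ?_, ?_⟩ <;> linarith

theorem chP_bounds (hK : IsCompact K) (hw : Width1 K) (h : Gram4 v) (hv : ∀ i, x0 + v i ∈ K)
    (h0 : b 0 = v 0 - v 1) (h1 : b 1 = v 2 - v 3) (h2 : b 2 = Real.sqrt 2 • (v 0 + v 1))
    (p : ℝ × ℝ) :
    |p.1| / 2 + Real.sqrt 2 / 4 ≤ chP K x0 b p ∧
    |p.2| / 2 - Real.sqrt 2 / 4 ≤ chP K x0 b p ∧
    chP K x0 b p ≤ Nn p - |p.2| / 2 - Real.sqrt 2 / 4 ∧
    chP K x0 b p ≤ Nn p - |p.1| / 2 + Real.sqrt 2 / 4 := by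
  obtain ⟨a0, a1, a2, a3⟩ := lins h h0 h1 h2 p
  have g0 := H0_ge hK hw x0 (hv 0) (pt b p.1 p.2 1)
  have g1 := H0_ge hK hw x0 (hv 1) (pt b p.1 p.2 1)
  have g2 := H0_ge hK hw x0 (hv 2) (pt b p.1 p.2 1)
  have g3 := H0_ge hK hw x0 (hv 3) (pt b p.1 p.2 1)
  have l0 := H0_le hK hw x0 (hv 0) (pt b p.1 p.2 1)
  have l1 := H0_le hK hw x0 (hv 1) (pt b p.1 p.2 1)
  have l2 := H0_le hK hw x0 (hv 2) (pt b p.1 p.2 1)
  have l3 := H0_le hK hw x0 (hv 3) (pt b p.1 p.2 1)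
  rw [norm_pt_one] at l0 l1 l2 l3
  unfold chP
  rcases abs_cases p.1 with ⟨e, _⟩ | ⟨e, _⟩ <;> rcases abs_cases p.2 with ⟨e', _⟩ | ⟨e', _⟩ <;>
    rw [e, e'] <;> refine ⟨?_, ?_, ?_, ?_⟩ <;> linarith

theorem pt_conv (p q : ℝ × ℝ) {r s : ℝ} (hrs : r + s = 1) :
    pt b (r • p + s • q).1 (r • p + s • q).2 1 = r • pt b p.1 p.2 1 + s • pt b q.1 q.2 1 := by
  unfold pt
  have e1 : (r • p + s • q).1 = r * p.1 + s * q.1 := by simp
  have e2 : (r • p + s • q).2 = r * p.2 + s * q.2 := by simp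
  rw [e1, e2]
  simp only [smul_add, smul_smul, add_smul, mul_one]
  have e3 : (1 : ℝ) • b 2 = r • b 2 + s • b 2 := by rw [← add_smul, hrs]
  rw [e3]
  abel

theorem chP_convex (hK : IsCompact K) (hw : Width1 K) (hx0 : x0 ∈ K) :
    ConvexOn ℝ univ (chP K x0 b) := by
  have hS := supp1 hK hw hx0
  refine ⟨convex_univ, ?_⟩
  intro p _ q _ r s hr hs hrs
  unfold chP
  rw [pt_conv p q hrs]
  refine (hS.sub _ _).trans ?_
  rw [hS.smul _ hr, hS.smul _ hs]
  exact le_rfl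

theorem chP_neg (hK : IsCompact K) (hw : Width1 K) (x0 : E3) (p : ℝ × ℝ) :
    H0 K x0 (-(pt b p.1 p.2 1)) = Nn p - chP K x0 b p := by
  rw [H0_width hK hw, norm_pt_one]
  rfl

theorem chP_convexN (hK : IsCompact K) (hw : Width1 K) (hx0 : x0 ∈ K) :
    ConvexOn ℝ univ (fun p => Nn p - chP K x0 b p) := by
  have hS := supp1 hK hw hx0
  refine ⟨convex_univ, ?_⟩
  intro p _ q _ r s hr hs hrs
  simp only
  rw [← chP_neg hK hw, ← chP_neg hK hw, ← chP_neg hK hw, pt_conv p q hrs, neg_add]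
  refine (hS.sub _ _).trans ?_
  rw [← smul_neg, ← smul_neg, hS.smul _ hr, hS.smul _ hs]
  exact le_rfl

/-- the support function is linear on the strips over the edges -/
theorem chP_stripX (hK : IsCompact K) (hw : Width1 K) (hx0 : x0 ∈ K) (h : Gram4 v)
    (hv : ∀ i, x0 + v i ∈ K)
    (h0 : b 0 = v 0 - v 1) (h1 : b 1 = v 2 - v 3) (h2 : b 2 = Real.sqrt 2 • (v 0 + v 1))
    {p : ℝ × ℝ} (hX : Real.sqrt 2 / 2 ≤ |p.1|) (hY : |p.2| ≤ Real.sqrt 2 / 2) :
    chP K x0 b p = |p.1| / 2 + Real.sqrt 2 / 4 ∧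
    fderiv ℝ (chP K x0 b) p (1, 0) = p.1 / (2 * |p.1|) ∧
    fderiv ℝ (chP K x0 b) p (0, 1) = 0 := by
  have hS := supp1 hK hw hx0
  obtain ⟨a0, a1, a2, a3⟩ := lins h h0 h1 h2 p
  have s0 : 0 < Real.sqrt 2 := by positivity
  have hY' := abs_le.1 hY
  rcases abs_cases p.1 with ⟨e, hp⟩ | ⟨e, hp⟩
  · rw [e] at hX ⊢
    have hp0 : p.1 ≠ 0 := by
      intro e0
      rw [e0] at hX
      linarith
    have hH := H0_tri' hK hw hS h hv 0 (x := pt b p.1 p.2 1) (by
      intro j hj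
      fin_cases j
      · exact absurd rfl hj
      · show ⟪v 1, pt b p.1 p.2 1⟫ ≤ 0
        linarith
      · show ⟪v 2, pt b p.1 p.2 1⟫ ≤ 0
        linarith
      · show ⟪v 3, pt b p.1 p.2 1⟫ ≤ 0
        linarith)
    have hsx : supp K (pt b p.1 p.2 1) = ⟪x0 + v 0, pt b p.1 p.2 1⟫ := by
      unfold H0 at hH
      rw [inner_add_left]
      linarith
    have hd := (chP_hasFDerivAt hK hw x0 p (hv 0) hsx).fderiv
    have i0 : ⟪v 0, b 0⟫ = (1 / 2 : ℝ) := by
      rw [h0, inner_sub_right, h.diag, h.off 0 1 (by decide)]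
      norm_num
    have i1 : ⟪v 0, b 1⟫ = (0 : ℝ) := by
      rw [h1, inner_sub_right, h.off 0 2 (by decide), h.off 0 3 (by decide)]
      norm_num
    refine ⟨?_, ?_, ?_⟩
    · unfold chP
      rw [hH, a0]
    · rw [hd]
      simp only [add_sub_cancel_left, i0, i1]
      simp
      field_simp
    · rw [hd]
      simp only [add_sub_cancel_left, i0, i1]
      simp
  · rw [e] at hX ⊢
    have hp0 : p.1 ≠ 0 := by
      intro e0
      rw [e0] at hX
      linarith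
    have hH := H0_tri' hK hw hS h hv 1 (x := pt b p.1 p.2 1) (by
      intro j hj
      fin_cases j
      · show ⟪v 0, pt b p.1 p.2 1⟫ ≤ 0
        linarith
      · exact absurd rfl hj
      · show ⟪v 2, pt b p.1 p.2 1⟫ ≤ 0
        linarith
      · show ⟪v 3, pt b p.1 p.2 1⟫ ≤ 0
        linarith)
    have hsx : supp K (pt b p.1 p.2 1) = ⟪x0 + v 1, pt b p.1 p.2 1⟫ := by
      unfold H0 at hH
      rw [inner_add_left]
      linarith
    have hd := (chP_hasFDerivAt hK hw x0 p (hv 1) hsx).fderiv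
    have i0 : ⟪v 1, b 0⟫ = (-1 / 2 : ℝ) := by
      rw [h0, inner_sub_right, h.diag, h.off 1 0 (by decide)]
      norm_num
    have i1 : ⟪v 1, b 1⟫ = (0 : ℝ) := by
      rw [h1, inner_sub_right, h.off 1 2 (by decide), h.off 1 3 (by decide)]
      norm_num
    refine ⟨?_, ?_, ?_⟩
    · unfold chP
      rw [hH, a1]
    · rw [hd]
      simp only [add_sub_cancel_left, i0, i1]
      simp
      field_simp
    · rw [hd]
      simp only [add_sub_cancel_left, i0, i1]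
      simp

theorem Nn_hasFDerivAt (p : ℝ × ℝ) :
    HasFDerivAt Nn ((p.1 / Nn p) • ContinuousLinearMap.fst ℝ ℝ ℝ +
      (p.2 / Nn p) • ContinuousLinearMap.snd ℝ ℝ ℝ) p := by
  have hN := Nn_pos p
  have h1 : HasFDerivAt (fun q : ℝ × ℝ => 1 + q.1 ^ 2 + q.2 ^ 2)
      ((2 * p.1) • ContinuousLinearMap.fst ℝ ℝ ℝ + (2 * p.2) • ContinuousLinearMap.snd ℝ ℝ ℝ)
      p := by
    have a := (hasFDerivAt_fst (𝕜 := ℝ) (p := p)).pow 2
    have c := (hasFDerivAt_snd (𝕜 := ℝ) (p := p)).pow 2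
    have d := (a.const_add 1).add c
    refine d.congr_fderiv ?_
    ext <;> simp
  have h2 := h1.sqrt (by positivity : 1 + p.1 ^ 2 + p.2 ^ 2 ≠ 0)
  refine h2.congr_fderiv ?_
  have e : Real.sqrt (1 + p.1 ^ 2 + p.2 ^ 2) = Nn p := rfl
  rw [e]
  ext
  · simp
    field_simp
  · simp
    field_simp

/-- the derivative of the antipodal support function -/
theorem chP_neg_hasFDerivAt (hK : IsCompact K) (hw : Width1 K) (x0 : E3) (p : ℝ × ℝ) {g : E3}
    (hg : g ∈ K) (hgx : supp K (-(pt b p.1 p.2 1)) = ⟪g, -(pt b p.1 p.2 1)⟫) :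
    HasFDerivAt (chP K x0 b)
      ((p.1 / Nn p + ⟪g - x0, b 0⟫) • ContinuousLinearMap.fst ℝ ℝ ℝ +
        (p.2 / Nn p + ⟪g - x0, b 1⟫) • ContinuousLinearMap.snd ℝ ℝ ℝ) p := by
  have h1 := H0_hasFDerivAt hK hw x0 (neg_ne_zero.2 (pt_ne b p)) hg hgx
  have h2 : HasFDerivAt (fun q : ℝ × ℝ => -(pt b q.1 q.2 1))
      (-((ContinuousLinearMap.fst ℝ ℝ ℝ).smulRight (b 0) +
        (ContinuousLinearMap.snd ℝ ℝ ℝ).smulRight (b 1))) p := by
    unfold pt
    have a := (ContinuousLinearMap.fst ℝ ℝ ℝ).smulRight (b 0) |>.hasFDerivAt (x := p)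
    have c := (ContinuousLinearMap.snd ℝ ℝ ℝ).smulRight (b 1) |>.hasFDerivAt (x := p)
    exact ((a.add c).add_const _).neg
  have h3 := (Nn_hasFDerivAt p).sub (h1.comp p h2)
  have e0 : (fun q : ℝ × ℝ => Nn q - (H0 K x0 ∘ fun q : ℝ × ℝ => -(pt b q.1 q.2 1)) q) =
      chP K x0 b := by
    ext q
    simp only [Function.comp]
    rw [chP_neg hK hw]
    ring
  have h4 : HasFDerivAt (chP K x0 b) ((p.1 / Nn p) • ContinuousLinearMap.fst ℝ ℝ ℝ +
      (p.2 / Nn p) • ContinuousLinearMap.snd ℝ ℝ ℝ - (innerSL ℝ (g - x0)).comp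
      (-((ContinuousLinearMap.fst ℝ ℝ ℝ).smulRight (b 0) +
        (ContinuousLinearMap.snd ℝ ℝ ℝ).smulRight (b 1)))) p := by
    rw [← e0]
    exact h3
  refine h4.congr_fderiv ?_
  ext <;> simp [inner_sub_left] <;> ring

/-- the support function on the strips over the opposite edge -/
theorem chP_stripY (hK : IsCompact K) (hw : Width1 K) (hx0 : x0 ∈ K) (h : Gram4 v)
    (hv : ∀ i, x0 + v i ∈ K)
    (h0 : b 0 = v 0 - v 1) (h1 : b 1 = v 2 - v 3) (h2 : b 2 = Real.sqrt 2 • (v 0 + v 1))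
    {p : ℝ × ℝ} (hY : Real.sqrt 2 / 2 ≤ |p.2|) (hX : |p.1| ≤ Real.sqrt 2 / 2) :
    chP K x0 b p = Nn p - (|p.2| / 2 + Real.sqrt 2 / 4) ∧
    fderiv ℝ (chP K x0 b) p (1, 0) = p.1 / Nn p ∧
    fderiv ℝ (chP K x0 b) p (0, 1) = p.2 / Nn p - p.2 / (2 * |p.2|) := by
  have hS := supp1 hK hw hx0
  obtain ⟨a0, a1, a2, a3⟩ := lins h h0 h1 h2 p
  have s0 : 0 < Real.sqrt 2 := by positivity
  have hX' := abs_le.1 hX
  rcases abs_cases p.2 with ⟨e, hp⟩ | ⟨e, hp⟩
  · rw [e] at hY ⊢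
    have hp0 : p.2 ≠ 0 := by
      intro e0
      rw [e0] at hY
      linarith
    have hH := H0_tri' hK hw hS h hv 3 (x := -(pt b p.1 p.2 1)) (by
      intro j hj
      fin_cases j
      · show ⟪v 0, -(pt b p.1 p.2 1)⟫ ≤ 0
        rw [inner_neg_right]
        linarith
      · show ⟪v 1, -(pt b p.1 p.2 1)⟫ ≤ 0
        rw [inner_neg_right]
        linarith
      · show ⟪v 2, -(pt b p.1 p.2 1)⟫ ≤ 0
        rw [inner_neg_right]
        linarith
      · exact absurd rfl hj)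
    have hsx : supp K (-(pt b p.1 p.2 1)) = ⟪x0 + v 3, -(pt b p.1 p.2 1)⟫ := by
      unfold H0 at hH
      rw [inner_add_left]
      linarith
    have hd := (chP_neg_hasFDerivAt hK hw x0 p (hv 3) hsx).fderiv
    have i0 : ⟪v 3, b 0⟫ = (0 : ℝ) := by
      rw [h0, inner_sub_right, h.off 3 0 (by decide), h.off 3 1 (by decide)]
      norm_num
    have i1 : ⟪v 3, b 1⟫ = (-1 / 2 : ℝ) := by
      rw [h1, inner_sub_right, h.off 3 2 (by decide), h.diag]
      norm_num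
    have hval := chP_neg (b := b) hK hw x0 p
    rw [hH, inner_neg_right, a3] at hval
    refine ⟨by linarith, ?_, ?_⟩
    · rw [hd]
      simp only [add_sub_cancel_left, i0, i1]
      simp
    · rw [hd]
      simp only [add_sub_cancel_left, i0, i1]
      have e1 : p.2 / (2 * p.2) = 1 / 2 := by field_simp
      rw [e1]
      simp
      ring
  · rw [e] at hY ⊢
    have hp0 : p.2 ≠ 0 := by
      intro e0
      rw [e0] at hY
      linarith
    have hH := H0_tri' hK hw hS h hv 2 (x := -(pt b p.1 p.2 1)) (by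
      intro j hj
      fin_cases j
      · show ⟪v 0, -(pt b p.1 p.2 1)⟫ ≤ 0
        rw [inner_neg_right]
        linarith
      · show ⟪v 1, -(pt b p.1 p.2 1)⟫ ≤ 0
        rw [inner_neg_right]
        linarith
      · exact absurd rfl hj
      · show ⟪v 3, -(pt b p.1 p.2 1)⟫ ≤ 0
        rw [inner_neg_right]
        linarith)
    have hsx : supp K (-(pt b p.1 p.2 1)) = ⟪x0 + v 2, -(pt b p.1 p.2 1)⟫ := by
      unfold H0 at hH
      rw [inner_add_left]
      linarith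
    have hd := (chP_neg_hasFDerivAt hK hw x0 p (hv 2) hsx).fderiv
    have i0 : ⟪v 2, b 0⟫ = (0 : ℝ) := by
      rw [h0, inner_sub_right, h.off 2 0 (by decide), h.off 2 1 (by decide)]
      norm_num
    have i1 : ⟪v 2, b 1⟫ = (1 / 2 : ℝ) := by
      rw [h1, inner_sub_right, h.diag, h.off 2 3 (by decide)]
      norm_num
    have hval := chP_neg (b := b) hK hw x0 p
    rw [hH, inner_neg_right, a2] at hval
    refine ⟨by linarith, ?_, ?_⟩
    · rw [hd]
      simp only [add_sub_cancel_left, i0, i1]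
      simp
    · rw [hd]
      simp only [add_sub_cancel_left, i0, i1]
      have e1 : p.2 / (2 * -p.2) = -(1 / 2) := by field_simp
      rw [e1]
      simp

/-- **the chart function is admissible** -/
theorem chP_adm (hK : IsCompact K) (hw : Width1 K) (hx0 : x0 ∈ K) (h : Gram4 v)
    (hv : ∀ i, x0 + v i ∈ K)
    (h0 : b 0 = v 0 - v 1) (h1 : b 1 = v 2 - v 3) (h2 : b 2 = Real.sqrt 2 • (v 0 + v 1)) :
    Helper22.MEI.Adm (chP K x0 b) := by
  have sX : ∀ p : ℝ × ℝ, |p.1| = Helper22.MEI.s → |p.2| ≤ Helper22.MEI.s →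
      chP K x0 b p = |p.1| / 2 + Real.sqrt 2 / 4 ∧
      fderiv ℝ (chP K x0 b) p (1, 0) = p.1 / (2 * |p.1|) ∧
      fderiv ℝ (chP K x0 b) p (0, 1) = 0 :=
    fun p ha hc => chP_stripX hK hw hx0 h hv h0 h1 h2 ha.ge hc
  have sY : ∀ p : ℝ × ℝ, |p.2| = Helper22.MEI.s → |p.1| ≤ Helper22.MEI.s →
      chP K x0 b p = Nn p - (|p.2| / 2 + Real.sqrt 2 / 4) ∧
      fderiv ℝ (chP K x0 b) p (1, 0) = p.1 / Nn p ∧
      fderiv ℝ (chP K x0 b) p (0, 1) = p.2 / Nn p - p.2 / (2 * |p.2|) :=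
    fun p ha hc => chP_stripY hK hw hx0 h hv h0 h1 h2 ha.ge hc
  refine ⟨chP_diff hK hw x0, chP_convex hK hw hx0, chP_convexN hK hw hx0, ?_, ?_, ?_, ?_, ?_, ?_⟩
  · intro p ha hc
    rw [(sX p ha hc).1, ha]
    rfl
  · intro p ha hc
    rw [(sY p ha hc).1, ha]
    rfl
  · intro p ha hc
    have := (sX p ha hc).2.1
    rw [ha] at this
    exact this
  · intro p ha hc
    exact (sX p ha hc).2.2
  · intro p ha hc
    exact (sY p ha hc).2.1
  · intro p ha hc
    have := (sY p ha hc).2.2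
    rw [ha] at this
    exact this

/-- **Reduction**: for a body of constant width containing a regular tetrahedron of edge `1` there
are three admissible functions which bound the volume from below. -/
theorem tetra_adm (hK : IsCompact K) (hc : Convex ℝ K) (hw : Width1 K) {a : Fin 4 → E3}
    (ha : ∀ i, a i ∈ K) (hd : ∀ i j, i ≠ j → dist (a i) (a j) = 1) :
    ∃ P : Fin 3 → ℝ × ℝ → ℝ, (∀ k, Helper22.MEI.Adm (P k)) ∧
      ENNReal.ofReal (CT + 1 / 2 * ∑ k, ∫ p in Helper22.MEI.SQ,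
        Helper22.MEI.qd (P k) p * (Helper22.MEI.NN p ^ 3)⁻¹) ≤ volume K := by
  have h := gram_of_dist hd
  have hx0 : cen a ∈ K := by
    have e : cen a = (1 / 2 : ℝ) • ((1 / 2 : ℝ) • a 0 + (1 / 2 : ℝ) • a 1) +
        (1 / 2 : ℝ) • ((1 / 2 : ℝ) • a 2 + (1 / 2 : ℝ) • a 3) := by
      unfold cen
      module
    rw [e]
    have g1 := hc (ha 0) (ha 1) (by norm_num : (0 : ℝ) ≤ 1 / 2) (by norm_num : (0 : ℝ) ≤ 1 / 2)
      (by norm_num)
    have g2 := hc (ha 2) (ha 3) (by norm_num : (0 : ℝ) ≤ 1 / 2) (by norm_num : (0 : ℝ) ≤ 1 / 2)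
      (by norm_num)
    exact hc g1 g2 (by norm_num) (by norm_num) (by norm_num)
  have hv : ∀ i, cen a + al a i ∈ K := by
    intro i
    have : cen a + al a i = a i := by
      unfold al
      abel
    rw [this]
    exact ha i
  -- the permutations
  set σ : Equiv.Perm (Fin 4) := Equiv.swap 1 2 with hσ
  set τ : Equiv.Perm (Fin 4) := Equiv.swap 1 3 with hτ
  have s0 : σ 0 = 0 := by decide
  have s1 : σ 1 = 2 := by decide
  have s2 : σ 2 = 1 := by decide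
  have s3 : σ 3 = 3 := by decide
  have t0 : τ 0 = 0 := by decide
  have t1 : τ 1 = 3 := by decide
  have t2 : τ 2 = 2 := by decide
  have t3 : τ 3 = 1 := by decide
  obtain ⟨b1, h10, h11, h12⟩ := h.frame
  obtain ⟨b2, h20, h21, h22⟩ := (h.perm σ).frame
  obtain ⟨b3, h30, h31, h32⟩ := (h.perm τ).frame
  refine ⟨![chP K (cen a) b1, chP K (cen a) b2, chP K (cen a) b3], ?_, ?_⟩
  · intro k
    fin_cases k
    · exact chP_adm hK hw hx0 h hv h10 h11 h12
    · exact chP_adm hK hw hx0 (h.perm σ) (fun i => hv _) h20 h21 h22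
    · exact chP_adm hK hw hx0 (h.perm τ) (fun i => hv _) h30 h31 h32
  · simp only [s0, s1, s2, s3, t0, t1, t2, t3] at h20 h21 h22 h30 h31 h32
    have hV := volume_tetra hK hc hw hx0 h hv ⟨h10, h11, h12⟩ ⟨h20, h21, h22⟩ ⟨h30, h31, h32⟩
    rw [Fin.sum_univ_three]
    exact hV

end

end Helper14.CW
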