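import Pool.Agent.Helper14.CW.Vol1

/-!
# Gnomonic charts

For a homogeneous function `F` of degree `0` the integral over the part of the unit ball in the
cone over a set `A` of the plane `z = 1` is `(1/3) ∫_A F(X, Y, 1) (1 + X² + Y²)^{-3/2}`.
-/

namespace Helper14.CW

open Set Metric MeasureTheory Helper80.CW Helper82.CW
open scoped ContDiff Topology RealInnerProductSpace Real

/-- the point with coordinates `x, y, z` in the frame `b` -/
noncomputable def pt (b : OrthonormalBasis (Fin 3) ℝ E3) (x y z : ℝ) : E3 :=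
  x • b 0 + y • b 1 + z • b 2

section
variable (b : OrthonormalBasis (Fin 3) ℝ E3)

theorem inner_pt (x y z : ℝ) (v : E3) :
    ⟪pt b x y z, v⟫ = x * ⟪b 0, v⟫ + y * ⟪b 1, v⟫ + z * ⟪b 2, v⟫ := by
  unfold pt
  rw [inner_add_left, inner_add_left, real_inner_smul_left, real_inner_smul_left,
    real_inner_smul_left]

theorem inner_b (i j : Fin 3) : ⟪b i, b j⟫ = if i = j then (1 : ℝ) else 0 :=
  orthonormal_iff_ite.1 b.orthonormal i j

theorem norm_pt (x y z : ℝ) : ‖pt b x y z‖ ^ 2 = x ^ 2 + y ^ 2 + z ^ 2 := by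
  have h : ∀ i, ⟪b i, pt b x y z⟫ = x * ⟪b 0, b i⟫ + y * ⟪b 1, b i⟫ + z * ⟪b 2, b i⟫ := by
    intro i
    rw [real_inner_comm, inner_pt]
  have d : ∀ i j : Fin 3, i ≠ j → ⟪b i, b j⟫ = (0 : ℝ) := fun i j hij => by
    rw [inner_b, if_neg hij]
  have u : ∀ i : Fin 3, ⟪b i, b i⟫ = (1 : ℝ) := fun i => by rw [inner_b, if_pos rfl]
  rw [← real_inner_self_eq_norm_sq, inner_pt, h, h, h, u, u, u, d 0 1 (by decide),
    d 0 2 (by decide), d 1 0 (by decide), d 1 2 (by decide), d 2 0 (by decide), d 2 1 (by decide)]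
  ring

theorem pt_smul (r x y z : ℝ) : pt b (r * x) (r * y) (r * z) = r • pt b x y z := by
  unfold pt
  simp only [smul_add, smul_smul]

/-- coordinates as a measurable equivalence -/
noncomputable def crd : E3 ≃ᵐ ℝ × (ℝ × ℝ) :=
  b.measurableEquiv.trans ((MeasurableEquiv.toLp 2 (Fin 3 → ℝ)).symm.trans
    ((MeasurableEquiv.piFinSuccAbove (fun _ => ℝ) 2).trans
      ((MeasurableEquiv.refl ℝ).prodCongr MeasurableEquiv.finTwoArrow)))

theorem crd_apply (x : E3) : crd b x = (⟪b 2, x⟫, (⟪b 0, x⟫, ⟪b 1, x⟫)) := by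
  unfold crd
  have h : ∀ i, (b.measurableEquiv x) i = ⟪b i, x⟫ := fun i => b.repr_apply_apply x i
  ext
  · exact h 2
  · exact h 0
  · exact h 1

theorem crd_mp : MeasurePreserving (crd b) volume volume := by
  have h1 := b.measurePreserving_measurableEquiv
  have h2 := EuclideanSpace.volume_preserving_symm_measurableEquiv_toLp (Fin 3)
  have h3 := volume_preserving_piFinSuccAbove (fun _ : Fin 3 => ℝ) 2
  have h4 : MeasurePreserving ((MeasurableEquiv.refl ℝ).prodCongr
      (MeasurableEquiv.finTwoArrow (α := ℝ))) volume volume :=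
    (MeasurePreserving.id (volume : Measure ℝ)).prod (volume_preserving_finTwoArrow ℝ)
  exact h4.comp (h3.comp (h2.comp h1))

theorem pt_crd (x : E3) : pt b (crd b x).2.1 (crd b x).2.2 (crd b x).1 = x := by
  rw [crd_apply]
  have h := b.sum_repr' x
  rw [Fin.sum_univ_three] at h
  exact h

theorem integral_coords (g : E3 → ℝ) :
    ∫ x, g x = ∫ q : ℝ × (ℝ × ℝ), g (pt b q.2.1 q.2.2 q.1) := by
  rw [← (crd_mp b).integral_comp' (fun q : ℝ × (ℝ × ℝ) => g (pt b q.2.1 q.2.2 q.1))]
  congr 1
  ext x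
  rw [pt_crd]

theorem pt_cont : Continuous (fun q : ℝ × (ℝ × ℝ) => pt b q.2.1 q.2.2 q.1) := by
  unfold pt
  fun_prop

/-- the norm factor -/
noncomputable def Nn (p : ℝ × ℝ) : ℝ := Real.sqrt (1 + p.1 ^ 2 + p.2 ^ 2)

theorem Nn_sq (p : ℝ × ℝ) : Nn p ^ 2 = 1 + p.1 ^ 2 + p.2 ^ 2 := Real.sq_sqrt (by positivity)

theorem Nn_ge (p : ℝ × ℝ) : 1 ≤ Nn p := by
  unfold Nn
  rw [Real.one_le_sqrt]
  nlinarith [sq_nonneg p.1, sq_nonneg p.2]

theorem Nn_pos (p : ℝ × ℝ) : 0 < Nn p := lt_of_lt_of_le one_pos (Nn_ge p)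

theorem Nn_cont : Continuous Nn := by
  unfold Nn
  fun_prop

theorem norm_pt_one (p : ℝ × ℝ) : ‖pt b p.1 p.2 1‖ = Nn p := by
  have h := norm_pt b p.1 p.2 1
  unfold Nn
  rw [← Real.sqrt_sq (norm_nonneg (pt b p.1 p.2 1)), h]
  congr 1
  ring

theorem pt_ne (p : ℝ × ℝ) : pt b p.1 p.2 1 ≠ 0 := by
  intro h
  have := norm_pt_one b p
  rw [h, norm_zero] at this
  have := Nn_pos p
  linarith

/-- the cone over `A` -/
def cone (A : Set (ℝ × ℝ)) : Set E3 :=
  {x | 0 < ⟪b 2, x⟫ ∧ (⟪b 0, x⟫ / ⟪b 2, x⟫, ⟪b 1, x⟫ / ⟪b 2, x⟫) ∈ A}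

theorem cone_meas {A : Set (ℝ × ℝ)} (hA : MeasurableSet A) : MeasurableSet (cone b A) := by
  have h1 : Measurable (fun x : E3 => ⟪b 2, x⟫) := by fun_prop
  have h2 : Measurable (fun x : E3 => (⟪b 0, x⟫ / ⟪b 2, x⟫, ⟪b 1, x⟫ / ⟪b 2, x⟫)) := by fun_prop
  exact (measurableSet_lt measurable_const h1).inter (h2 hA)

theorem inner_pt_b (x y z : ℝ) (i : Fin 3) :
    ⟪b i, pt b x y z⟫ = if i = 0 then x else if i = 1 then y else z := by
  rw [real_inner_comm, inner_pt]
  fin_cases i <;> simp [inner_b]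

theorem mem_cone_pt {A : Set (ℝ × ℝ)} (x y z : ℝ) :
    pt b x y z ∈ cone b A ↔ 0 < z ∧ (x / z, y / z) ∈ A := by
  unfold cone
  simp only [mem_setOf_eq, inner_pt_b]
  simp

theorem chart {A : Set (ℝ × ℝ)} (hA : MeasurableSet A) (hAf : volume A ≠ ⊤) {F : E3 → ℝ}
    (hF : Hom 0 F) (hm : Measurable F) {C : ℝ} (hC : ∀ x, x ≠ 0 → |F x| ≤ C) :
    ∫ x in ball (0 : E3) 1 ∩ cone b A, F x =
      1 / 3 * ∫ p in A, F (pt b p.1 p.2 1) * (Nn p ^ 3)⁻¹ := by
  have hC0 : 0 ≤ C := (abs_nonneg _).trans (hC _ (pt_ne b 0))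
  -- the integrand after the change of variables
  set S : Set (ℝ × (ℝ × ℝ)) := {q | 0 < q.1 ∧ q.1 * Nn q.2 < 1 ∧ q.2 ∈ A} with hS
  have hSm : MeasurableSet S := by
    have h1 : Measurable (fun q : ℝ × (ℝ × ℝ) => q.1 * Nn q.2) :=
      measurable_fst.mul (Nn_cont.measurable.comp measurable_snd)
    exact (measurableSet_lt measurable_const measurable_fst).inter
      ((measurableSet_lt h1 measurable_const).inter (measurable_snd hA))
  set k : ℝ × (ℝ × ℝ) → ℝ := fun q => S.indicator (fun q => q.1 ^ 2 * F (pt b q.2.1 q.2.2 1)) q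
    with hk
  have hkint : Integrable k (volume.prod volume) := by
    have hfin : (volume.prod volume : Measure (ℝ × (ℝ × ℝ))) S ≠ ⊤ := by
      have hsub : S ⊆ Ioo (0 : ℝ) 1 ×ˢ A := by
        rintro q ⟨h1, h2, h3⟩
        refine ⟨⟨h1, ?_⟩, h3⟩
        have := Nn_ge q.2
        nlinarith
      refine ne_top_of_le_ne_top ?_ (measure_mono hsub)
      rw [Measure.prod_prod]
      exact ENNReal.mul_ne_top (by simp) hAf
    rw [hk, integrable_indicator_iff hSm]
    apply Measure.integrableOn_of_bounded (M := C) hfin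
    · apply Measurable.aestronglyMeasurable
      apply (measurable_fst.pow_const 2).mul
      apply hm.comp
      have : Continuous (fun q : ℝ × (ℝ × ℝ) => pt b q.2.1 q.2.2 1) := by
        unfold pt
        fun_prop
      exact this.measurable
    · filter_upwards [ae_restrict_mem hSm] with q hq
      rw [Real.norm_eq_abs, abs_mul, abs_of_nonneg (sq_nonneg _)]
      have h1 := hC _ (pt_ne b q.2)
      have h2 : q.1 < 1 := by
        have := Nn_ge q.2
        nlinarith [hq.1, hq.2.1]
      have h3 : q.1 ^ 2 ≤ 1 := by nlinarith [hq.1]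
      nlinarith [abs_nonneg (F (pt b q.2.1 q.2.2 1)), sq_nonneg q.1]
  -- left hand side
  have hmb : MeasurableSet (ball (0 : E3) 1 ∩ cone b A) := measurableSet_ball.inter (cone_meas b hA)
  rw [← integral_indicator hmb, integral_coords b]
  set g : ℝ × (ℝ × ℝ) → ℝ := fun q =>
    (ball (0 : E3) 1 ∩ cone b A).indicator F (pt b q.2.1 q.2.2 q.1) with hg
  have hgint : Integrable g (volume.prod volume) := by
    have h0 : Integrable ((ball (0 : E3) 1 ∩ cone b A).indicator F) volume := by
      rw [integrable_indicator_iff hmb]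
      apply Measure.integrableOn_of_bounded (M := C)
      · exact ne_top_of_le_ne_top measure_ball_lt_top.ne (measure_mono inter_subset_left)
      · exact hm.aestronglyMeasurable
      · filter_upwards [ae_restrict_mem hmb] with x hx
        rw [Real.norm_eq_abs]
        apply hC
        rintro rfl
        have := hx.2.1
        simp at this
    have h1 := (crd_mp b).symm.integrable_comp_emb (crd b).symm.measurableEmbedding
      (g := (ball (0 : E3) 1 ∩ cone b A).indicator F)
    rw [← h1] at h0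
    have h2 : ((ball (0 : E3) 1 ∩ cone b A).indicator F) ∘ (crd b).symm = g := by
      ext q
      simp only [hg, Function.comp]
      have h3 := pt_crd b ((crd b).symm q)
      rw [(crd b).apply_symm_apply] at h3
      rw [h3]
    rw [h2] at h0
    exact h0
  have e1 : ∫ q, g q = ∫ z, ∫ p, g (z, p) := integral_prod g hgint
  have e2 : ∀ z, ∫ p, g (z, p) = ∫ p, k (z, p) := by
    intro z
    by_cases hz : 0 < z
    · have h1 := Measure.integral_comp_smul (volume : Measure (ℝ × ℝ)) (fun p => g (z, p)) z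
      have hfr : Module.finrank ℝ (ℝ × ℝ) = 2 := by simp
      rw [hfr, abs_of_pos (by positivity)] at h1
      have h2 : ∫ p, g (z, p) = z ^ 2 * ∫ p : ℝ × ℝ, g (z, z • p) := by
        rw [h1, smul_eq_mul, ← mul_assoc, mul_inv_cancel₀ (by positivity), one_mul]
      rw [h2, ← integral_const_mul]
      congr 1
      ext p
      simp only [hg, hk]
      have h3 : pt b (z • p).1 (z • p).2 z = z • pt b p.1 p.2 1 := by
        have := pt_smul b z p.1 p.2 1
        rw [mul_one] at this
        simpa using this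
      rw [h3]
      by_cases hp : (z, p) ∈ S
      · rw [indicator_of_mem hp]
        have hmem : z • pt b p.1 p.2 1 ∈ ball (0 : E3) 1 ∩ cone b A := by
          constructor
          · rw [mem_ball_zero_iff, norm_smul, norm_pt_one, Real.norm_of_nonneg hz.le]
            exact hp.2.1
          · rw [← pt_smul, mem_cone_pt]
            refine ⟨by simpa using hz, ?_⟩
            rw [mul_one, mul_div_cancel_left₀ _ hz.ne', mul_div_cancel_left₀ _ hz.ne']
            exact hp.2.2
        rw [indicator_of_mem hmem]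
        have := hF z hz _ (pt_ne b p)
        simp only [zpow_zero, one_mul] at this
        rw [this]
      · rw [indicator_of_notMem hp]
        have hmem : z • pt b p.1 p.2 1 ∉ ball (0 : E3) 1 ∩ cone b A := by
          rintro ⟨h4, h5⟩
          apply hp
          rw [mem_ball_zero_iff, norm_smul, norm_pt_one, Real.norm_of_nonneg hz.le] at h4
          rw [← pt_smul, mem_cone_pt, mul_one, mul_div_cancel_left₀ _ hz.ne',
            mul_div_cancel_left₀ _ hz.ne'] at h5
          exact ⟨hz, h4, h5.2⟩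
        rw [indicator_of_notMem hmem, mul_zero]
    · have h1 : ∀ p, g (z, p) = 0 := by
        intro p
        simp only [hg]
        apply indicator_of_notMem
        rintro ⟨-, h5⟩
        rw [mem_cone_pt] at h5
        exact hz h5.1
      have h2 : ∀ p, k (z, p) = 0 := by
        intro p
        simp only [hk]
        apply indicator_of_notMem
        rintro ⟨h5, -⟩
        exact hz h5
      simp [h1, h2]
  have e3 : ∫ z, ∫ p, k (z, p) = ∫ p, ∫ z, k (z, p) := integral_integral_swap hkint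
  have e4 : ∀ p, ∫ z, k (z, p) = A.indicator (fun p => 1 / 3 * (F (pt b p.1 p.2 1) * (Nn p ^ 3)⁻¹)) p := by
    intro p
    by_cases hp : p ∈ A
    · rw [indicator_of_mem hp]
      have h1 : (fun z => k (z, p)) =
          (Ioo (0 : ℝ) (Nn p)⁻¹).indicator (fun z => z ^ 2 * F (pt b p.1 p.2 1)) := by
        ext z
        simp only [hk]
        have hN := Nn_pos p
        have hiff : (z, p) ∈ S ↔ z ∈ Ioo (0 : ℝ) (Nn p)⁻¹ := by
          simp only [hS, mem_setOf_eq, mem_Ioo, hp, and_true]
          rw [← one_div, lt_div_iff₀ hN]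
        by_cases hz : (z, p) ∈ S
        · rw [indicator_of_mem hz, indicator_of_mem (hiff.1 hz)]
        · rw [indicator_of_notMem hz, indicator_of_notMem (fun h => hz (hiff.2 h))]
      rw [h1, integral_indicator measurableSet_Ioo, integral_mul_const,
        ← integral_Ioc_eq_integral_Ioo, ← intervalIntegral.integral_of_le
          (inv_nonneg.2 (Nn_pos p).le), integral_pow]
      have hN := Nn_pos p
      norm_num
      ring
    · rw [indicator_of_notMem hp]
      have h1 : ∀ z, k (z, p) = 0 := by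
        intro z
        simp only [hk]
        apply indicator_of_notMem
        rintro ⟨-, -, h⟩
        exact hp h
      simp [h1]
  calc ∫ q, g q = ∫ z, ∫ p, g (z, p) := e1
    _ = ∫ z, ∫ p, k (z, p) := by simp only [e2]
    _ = ∫ p, ∫ z, k (z, p) := e3
    _ = ∫ p, A.indicator (fun p => 1 / 3 * (F (pt b p.1 p.2 1) * (Nn p ^ 3)⁻¹)) p := by
        simp only [e4]
    _ = ∫ p in A, 1 / 3 * (F (pt b p.1 p.2 1) * (Nn p ^ 3)⁻¹) := integral_indicator hA
    _ = _ := integral_const_mul _ _

end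

end Helper14.CW
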