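import Pool.Agent.Helper14.CW.Tetra

/-!
# Decomposition of the ball into the cones of the cuboctahedron
-/

namespace Helper14.CW

open Set Metric MeasureTheory Helper80.CW Helper82.CW
open scoped ContDiff Topology RealInnerProductSpace Real

/-- cone of directions of the vertex `0` -/
def TriS (v : Fin 4 → E3) : Set E3 := {x | ⟪v 1, x⟫ < 0 ∧ ⟪v 2, x⟫ < 0 ∧ ⟪v 3, x⟫ < 0}

/-- cone of directions of the edge `01` -/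
def SqS (v : Fin 4 → E3) : Set E3 :=
  {x | 0 < ⟪v 0, x⟫ ∧ 0 < ⟪v 1, x⟫ ∧ ⟪v 2, x⟫ < 0 ∧ ⟪v 3, x⟫ < 0}

section
variable {v : Fin 4 → E3} {F : E3 → ℝ}

theorem null_plane {w : E3} (hw : w ≠ 0) : volume {x : E3 | ⟪w, x⟫ = 0} = 0 := by
  have h := Measure.addHaar_submodule (volume : Measure E3) (LinearMap.ker (innerSL ℝ w).toLinearMap)
    (by
      intro h
      have h1 : w ∈ LinearMap.ker (innerSL ℝ w).toLinearMap := by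
        rw [h]
        trivial
      rw [LinearMap.mem_ker] at h1
      have h2 : ⟪w, w⟫ = (0 : ℝ) := h1
      exact hw (inner_self_eq_zero.1 h2))
  refine le_antisymm ((measure_mono ?_).trans h.le) (zero_le)
  intro x hx
  exact hx

theorem halfpos_meas (w : E3) : MeasurableSet {x : E3 | 0 < ⟪w, x⟫} :=
  measurableSet_lt measurable_const (by fun_prop)

theorem halfneg_meas (w : E3) : MeasurableSet {x : E3 | ⟪w, x⟫ < 0} :=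
  measurableSet_lt (by fun_prop) measurable_const

theorem split {S : Set E3} (hS : MeasurableSet S) (hF : IntegrableOn F S) {w : E3} (hw : w ≠ 0) :
    ∫ x in S, F x = (∫ x in S ∩ {x | 0 < ⟪w, x⟫}, F x) + ∫ x in S ∩ {x | ⟪w, x⟫ < 0}, F x := by
  rw [← setIntegral_union]
  · apply setIntegral_congr_set
    rw [ae_eq_set]
    constructor
    · apply measure_mono_null _ (null_plane hw)
      rintro x ⟨h1, h2⟩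
      simp only [mem_union, mem_inter_iff, mem_setOf_eq, h1, true_and, not_or, not_lt] at h2
      exact le_antisymm h2.1 h2.2
    · have : (S ∩ {x | 0 < ⟪w, x⟫} ∪ S ∩ {x | ⟪w, x⟫ < 0}) \ S = ∅ := by
        ext x
        simp only [mem_diff, mem_union, mem_inter_iff, mem_empty_iff_false]
        tauto
      rw [this]
      simp
  · rw [Set.disjoint_left]
    rintro x ⟨-, h1⟩ ⟨-, h2⟩
    simp only [mem_setOf_eq] at h1 h2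
    linarith
  · exact hS.inter (halfneg_meas w)
  · exact hF.mono_set inter_subset_left
  · exact hF.mono_set inter_subset_left

theorem int_neg (E : Set E3) (F : E3 → ℝ) (hE : MeasurableSet E) :
    ∫ x in ball (0 : E3) 1 ∩ {x | -x ∈ E}, F x = ∫ x in ball (0 : E3) 1 ∩ E, F (-x) := by
  have hm : MeasurableSet (ball (0 : E3) 1 ∩ {x | -x ∈ E}) :=
    measurableSet_ball.inter (measurable_neg hE)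
  rw [← integral_indicator hm, ← integral_indicator (measurableSet_ball.inter hE),
    ← integral_neg_eq_self]
  congr 1
  ext x
  by_cases hx : x ∈ ball (0 : E3) 1 ∩ E
  · rw [indicator_of_mem hx, indicator_of_mem]
    constructor
    · simpa using hx.1
    · simpa using hx.2
  · rw [indicator_of_notMem hx, indicator_of_notMem]
    rintro ⟨h1, h2⟩
    apply hx
    constructor
    · simpa using h1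
    · simpa using h2

theorem Gram4.ne (h : Gram4 v) (i : Fin 4) : v i ≠ 0 := by
  intro h0
  have := h.diag i
  rw [h0, inner_zero_left] at this
  norm_num at this

theorem TriS_meas (v : Fin 4 → E3) : MeasurableSet (TriS v) :=
  (halfneg_meas _).inter ((halfneg_meas _).inter (halfneg_meas _))

theorem SqS_meas (v : Fin 4 → E3) : MeasurableSet (SqS v) :=
  (halfpos_meas _).inter ((halfpos_meas _).inter ((halfneg_meas _).inter (halfneg_meas _)))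

theorem ball_decomp (h : Gram4 v) (hF : IntegrableOn F (ball (0 : E3) 1)) :
    ∫ x in ball (0 : E3) 1, F x =
      ((∫ x in ball (0 : E3) 1 ∩ TriS v, (F x + F (-x))) +
       (∫ x in ball (0 : E3) 1 ∩ TriS (fun i => v (Equiv.swap 0 1 i)), (F x + F (-x))) +
       (∫ x in ball (0 : E3) 1 ∩ TriS (fun i => v (Equiv.swap 0 2 i)), (F x + F (-x))) +
       (∫ x in ball (0 : E3) 1 ∩ TriS (fun i => v (Equiv.swap 0 3 i)), (F x + F (-x)))) +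
      ((∫ x in ball (0 : E3) 1 ∩ SqS v, (F x + F (-x))) +
       (∫ x in ball (0 : E3) 1 ∩ SqS (fun i => v (Equiv.swap 1 2 i)), (F x + F (-x))) +
       (∫ x in ball (0 : E3) 1 ∩ SqS (fun i => v (Equiv.swap 1 3 i)), (F x + F (-x)))) := by
  have hFn : IntegrableOn (fun x => F (-x)) (ball (0 : E3) 1) := by
    have h1 : Integrable ((ball (0 : E3) 1).indicator F) := by
      rw [integrable_indicator_iff measurableSet_ball]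
      exact hF
    have h2 := h1.comp_neg
    rw [← integrable_indicator_iff measurableSet_ball]
    refine h2.congr (ae_of_all _ ?_)
    intro x
    by_cases hx : x ∈ ball (0 : E3) 1
    · simp only
      rw [indicator_of_mem hx, indicator_of_mem (by simpa using hx)]
    · simp only
      rw [indicator_of_notMem hx, indicator_of_notMem (by simpa using hx)]
  have hpair : ∀ E : Set E3, MeasurableSet E →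
      ∫ x in ball (0 : E3) 1 ∩ E, (F x + F (-x)) =
        (∫ x in ball (0 : E3) 1 ∩ E, F x) + ∫ x in ball (0 : E3) 1 ∩ {x | -x ∈ E}, F x := by
    intro E hE
    rw [int_neg E F hE]
    exact integral_add (hF.mono_set inter_subset_left) (hFn.mono_set inter_subset_left)
  rw [hpair _ (TriS_meas _), hpair _ (TriS_meas _), hpair _ (TriS_meas _), hpair _ (TriS_meas _),
    hpair _ (SqS_meas _), hpair _ (SqS_meas _), hpair _ (SqS_meas _)]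
  -- splitting
  set B := ball (0 : E3) 1 with hB
  have hBm : MeasurableSet B := measurableSet_ball
  have P := fun i => halfpos_meas (v i)
  have N := fun i => halfneg_meas (v i)
  have sp : ∀ (S : Set E3), MeasurableSet S → S ⊆ B → ∀ i, ∫ x in S, F x =
      (∫ x in S ∩ {x | 0 < ⟪v i, x⟫}, F x) + ∫ x in S ∩ {x | ⟪v i, x⟫ < 0}, F x :=
    fun S hS hSB i => split hS (hF.mono_set hSB) (h.ne i)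
  have sp4 : ∫ x in B, F x =
      (((∫ x in B ∩ {x | 0 < ⟪v 0, x⟫} ∩ {x | 0 < ⟪v 1, x⟫} ∩ {x | 0 < ⟪v 2, x⟫} ∩ {x | 0 < ⟪v 3, x⟫}, F x) +
      (∫ x in B ∩ {x | 0 < ⟪v 0, x⟫} ∩ {x | 0 < ⟪v 1, x⟫} ∩ {x | 0 < ⟪v 2, x⟫} ∩ {x | ⟪v 3, x⟫ < 0}, F x)) +
      ((∫ x in B ∩ {x | 0 < ⟪v 0, x⟫} ∩ {x | 0 < ⟪v 1, x⟫} ∩ {x | ⟪v 2, x⟫ < 0} ∩ {x | 0 < ⟪v 3, x⟫}, F x) +
      (∫ x in B ∩ {x | 0 < ⟪v 0, x⟫} ∩ {x | 0 < ⟪v 1, x⟫} ∩ {x | ⟪v 2, x⟫ < 0} ∩ {x | ⟪v 3, x⟫ < 0}, F x)) +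
      (((∫ x in B ∩ {x | 0 < ⟪v 0, x⟫} ∩ {x | ⟪v 1, x⟫ < 0} ∩ {x | 0 < ⟪v 2, x⟫} ∩ {x | 0 < ⟪v 3, x⟫}, F x) +
      (∫ x in B ∩ {x | 0 < ⟪v 0, x⟫} ∩ {x | ⟪v 1, x⟫ < 0} ∩ {x | 0 < ⟪v 2, x⟫} ∩ {x | ⟪v 3, x⟫ < 0}, F x)) +
      ((∫ x in B ∩ {x | 0 < ⟪v 0, x⟫} ∩ {x | ⟪v 1, x⟫ < 0} ∩ {x | ⟪v 2, x⟫ < 0} ∩ {x | 0 < ⟪v 3, x⟫}, F x) +
      (∫ x in B ∩ {x | 0 < ⟪v 0, x⟫} ∩ {x | ⟪v 1, x⟫ < 0} ∩ {x | ⟪v 2, x⟫ < 0} ∩ {x | ⟪v 3, x⟫ < 0}, F x)))) +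
      (((∫ x in B ∩ {x | ⟪v 0, x⟫ < 0} ∩ {x | 0 < ⟪v 1, x⟫} ∩ {x | 0 < ⟪v 2, x⟫} ∩ {x | 0 < ⟪v 3, x⟫}, F x) +
      (∫ x in B ∩ {x | ⟪v 0, x⟫ < 0} ∩ {x | 0 < ⟪v 1, x⟫} ∩ {x | 0 < ⟪v 2, x⟫} ∩ {x | ⟪v 3, x⟫ < 0}, F x)) +
      ((∫ x in B ∩ {x | ⟪v 0, x⟫ < 0} ∩ {x | 0 < ⟪v 1, x⟫} ∩ {x | ⟪v 2, x⟫ < 0} ∩ {x | 0 < ⟪v 3, x⟫}, F x) +
      (∫ x in B ∩ {x | ⟪v 0, x⟫ < 0} ∩ {x | 0 < ⟪v 1, x⟫} ∩ {x | ⟪v 2, x⟫ < 0} ∩ {x | ⟪v 3, x⟫ < 0}, F x)) +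
      (((∫ x in B ∩ {x | ⟪v 0, x⟫ < 0} ∩ {x | ⟪v 1, x⟫ < 0} ∩ {x | 0 < ⟪v 2, x⟫} ∩ {x | 0 < ⟪v 3, x⟫}, F x) +
      (∫ x in B ∩ {x | ⟪v 0, x⟫ < 0} ∩ {x | ⟪v 1, x⟫ < 0} ∩ {x | 0 < ⟪v 2, x⟫} ∩ {x | ⟪v 3, x⟫ < 0}, F x)) +
      ((∫ x in B ∩ {x | ⟪v 0, x⟫ < 0} ∩ {x | ⟪v 1, x⟫ < 0} ∩ {x | ⟪v 2, x⟫ < 0} ∩ {x | 0 < ⟪v 3, x⟫}, F x) +
      (∫ x in B ∩ {x | ⟪v 0, x⟫ < 0} ∩ {x | ⟪v 1, x⟫ < 0} ∩ {x | ⟪v 2, x⟫ < 0} ∩ {x | ⟪v 3, x⟫ < 0}, F x)))) := by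
    have i0 : ∀ S : Set E3, B ∩ S ⊆ B := fun S => inter_subset_left
    have i1 : ∀ S T : Set E3, B ∩ S ∩ T ⊆ B := fun S T => inter_subset_left.trans (i0 S)
    have i2 : ∀ S T U : Set E3, B ∩ S ∩ T ∩ U ⊆ B := fun S T U => inter_subset_left.trans (i1 S T)
    rw [sp B hBm subset_rfl 0]
    rw [sp (B ∩ {x | 0 < ⟪v 0, x⟫}) (hBm.inter (P 0)) (i0 _) 1,
      sp (B ∩ {x | ⟪v 0, x⟫ < 0}) (hBm.inter (N 0)) (i0 _) 1]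
    rw [sp (B ∩ {x | 0 < ⟪v 0, x⟫} ∩ {x | 0 < ⟪v 1, x⟫}) ((hBm.inter (P 0)).inter (P 1)) (i1 _ _) 2,
      sp (B ∩ {x | 0 < ⟪v 0, x⟫} ∩ {x | ⟪v 1, x⟫ < 0}) ((hBm.inter (P 0)).inter (N 1)) (i1 _ _) 2,
      sp (B ∩ {x | ⟪v 0, x⟫ < 0} ∩ {x | 0 < ⟪v 1, x⟫}) ((hBm.inter (N 0)).inter (P 1)) (i1 _ _) 2,
      sp (B ∩ {x | ⟪v 0, x⟫ < 0} ∩ {x | ⟪v 1, x⟫ < 0}) ((hBm.inter (N 0)).inter (N 1)) (i1 _ _) 2]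
    rw [sp (B ∩ {x | 0 < ⟪v 0, x⟫} ∩ {x | 0 < ⟪v 1, x⟫} ∩ {x | 0 < ⟪v 2, x⟫})
        (((hBm.inter (P 0)).inter (P 1)).inter (P 2)) (i2 _ _ _) 3,
      sp (B ∩ {x | 0 < ⟪v 0, x⟫} ∩ {x | 0 < ⟪v 1, x⟫} ∩ {x | ⟪v 2, x⟫ < 0})
        (((hBm.inter (P 0)).inter (P 1)).inter (N 2)) (i2 _ _ _) 3,
      sp (B ∩ {x | 0 < ⟪v 0, x⟫} ∩ {x | ⟪v 1, x⟫ < 0} ∩ {x | 0 < ⟪v 2, x⟫})
        (((hBm.inter (P 0)).inter (N 1)).inter (P 2)) (i2 _ _ _) 3,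
      sp (B ∩ {x | 0 < ⟪v 0, x⟫} ∩ {x | ⟪v 1, x⟫ < 0} ∩ {x | ⟪v 2, x⟫ < 0})
        (((hBm.inter (P 0)).inter (N 1)).inter (N 2)) (i2 _ _ _) 3,
      sp (B ∩ {x | ⟪v 0, x⟫ < 0} ∩ {x | 0 < ⟪v 1, x⟫} ∩ {x | 0 < ⟪v 2, x⟫})
        (((hBm.inter (N 0)).inter (P 1)).inter (P 2)) (i2 _ _ _) 3,
      sp (B ∩ {x | ⟪v 0, x⟫ < 0} ∩ {x | 0 < ⟪v 1, x⟫} ∩ {x | ⟪v 2, x⟫ < 0})
        (((hBm.inter (N 0)).inter (P 1)).inter (N 2)) (i2 _ _ _) 3,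
      sp (B ∩ {x | ⟪v 0, x⟫ < 0} ∩ {x | ⟪v 1, x⟫ < 0} ∩ {x | 0 < ⟪v 2, x⟫})
        (((hBm.inter (N 0)).inter (N 1)).inter (P 2)) (i2 _ _ _) 3,
      sp (B ∩ {x | ⟪v 0, x⟫ < 0} ∩ {x | ⟪v 1, x⟫ < 0} ∩ {x | ⟪v 2, x⟫ < 0})
        (((hBm.inter (N 0)).inter (N 1)).inter (N 2)) (i2 _ _ _) 3]
  have hsum : ∀ x : E3, ⟪v 0, x⟫ + ⟪v 1, x⟫ + ⟪v 2, x⟫ + ⟪v 3, x⟫ = (0 : ℝ) := by
    intro x
    rw [← inner_add_left, ← inner_add_left, ← inner_add_left, h.sum, inner_zero_left]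
  have z1 : B ∩ {x | 0 < ⟪v 0, x⟫} ∩ {x | 0 < ⟪v 1, x⟫} ∩ {x | 0 < ⟪v 2, x⟫} ∩ {x | 0 < ⟪v 3, x⟫} = ∅ := by
    ext x
    simp only [mem_inter_iff, mem_setOf_eq, mem_empty_iff_false, iff_false]
    rintro ⟨⟨⟨⟨-, a⟩, b⟩, c⟩, d⟩
    linarith [hsum x]
  have z2 : B ∩ {x | ⟪v 0, x⟫ < 0} ∩ {x | ⟪v 1, x⟫ < 0} ∩ {x | ⟪v 2, x⟫ < 0} ∩ {x | ⟪v 3, x⟫ < 0} = ∅ := by
    ext x
    simp only [mem_inter_iff, mem_setOf_eq, mem_empty_iff_false, iff_false]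
    rintro ⟨⟨⟨⟨-, a⟩, b⟩, c⟩, d⟩
    linarith [hsum x]
  have s01 : Equiv.swap (0 : Fin 4) 1 0 = 1 ∧ Equiv.swap (0 : Fin 4) 1 1 = 0 ∧
      Equiv.swap (0 : Fin 4) 1 2 = 2 ∧ Equiv.swap (0 : Fin 4) 1 3 = 3 := by decide
  have s02 : Equiv.swap (0 : Fin 4) 2 0 = 2 ∧ Equiv.swap (0 : Fin 4) 2 1 = 1 ∧
      Equiv.swap (0 : Fin 4) 2 2 = 0 ∧ Equiv.swap (0 : Fin 4) 2 3 = 3 := by decide
  have s03 : Equiv.swap (0 : Fin 4) 3 0 = 3 ∧ Equiv.swap (0 : Fin 4) 3 1 = 1 ∧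
      Equiv.swap (0 : Fin 4) 3 2 = 2 ∧ Equiv.swap (0 : Fin 4) 3 3 = 0 := by decide
  have s12 : Equiv.swap (1 : Fin 4) 2 0 = 0 ∧ Equiv.swap (1 : Fin 4) 2 1 = 2 ∧
      Equiv.swap (1 : Fin 4) 2 2 = 1 ∧ Equiv.swap (1 : Fin 4) 2 3 = 3 := by decide
  have s13 : Equiv.swap (1 : Fin 4) 3 0 = 0 ∧ Equiv.swap (1 : Fin 4) 3 1 = 3 ∧
      Equiv.swap (1 : Fin 4) 3 2 = 2 ∧ Equiv.swap (1 : Fin 4) 3 3 = 1 := by decide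
  have t0 : B ∩ TriS v = B ∩ {x | 0 < ⟪v 0, x⟫} ∩ {x | ⟪v 1, x⟫ < 0} ∩ {x | ⟪v 2, x⟫ < 0} ∩ {x | ⟪v 3, x⟫ < 0} := by
    ext x
    simp only [TriS, mem_inter_iff, mem_setOf_eq]
    constructor
    · rintro ⟨a, b, c, d⟩
      exact ⟨⟨⟨⟨a, by linarith [hsum x]⟩, b⟩, c⟩, d⟩
    · rintro ⟨⟨⟨⟨a, _⟩, b⟩, c⟩, d⟩
      exact ⟨a, b, c, d⟩
  have t1 : B ∩ TriS (fun i => v (Equiv.swap 0 1 i)) = B ∩ {x | ⟪v 0, x⟫ < 0} ∩ {x | 0 < ⟪v 1, x⟫} ∩ {x | ⟪v 2, x⟫ < 0} ∩ {x | ⟪v 3, x⟫ < 0} := by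
    ext x
    simp only [TriS, mem_inter_iff, mem_setOf_eq, s01]
    constructor
    · rintro ⟨a, b, c, d⟩
      exact ⟨⟨⟨⟨a, b⟩, by linarith [hsum x]⟩, c⟩, d⟩
    · rintro ⟨⟨⟨⟨a, b⟩, _⟩, c⟩, d⟩
      exact ⟨a, b, c, d⟩
  have t2 : B ∩ TriS (fun i => v (Equiv.swap 0 2 i)) = B ∩ {x | ⟪v 0, x⟫ < 0} ∩ {x | ⟪v 1, x⟫ < 0} ∩ {x | 0 < ⟪v 2, x⟫} ∩ {x | ⟪v 3, x⟫ < 0} := by
    ext x
    simp only [TriS, mem_inter_iff, mem_setOf_eq, s02]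
    constructor
    · rintro ⟨a, b, c, d⟩
      exact ⟨⟨⟨⟨a, c⟩, b⟩, by linarith [hsum x]⟩, d⟩
    · rintro ⟨⟨⟨⟨a, b⟩, c⟩, _⟩, d⟩
      exact ⟨a, c, b, d⟩
  have t3 : B ∩ TriS (fun i => v (Equiv.swap 0 3 i)) = B ∩ {x | ⟪v 0, x⟫ < 0} ∩ {x | ⟪v 1, x⟫ < 0} ∩ {x | ⟪v 2, x⟫ < 0} ∩ {x | 0 < ⟪v 3, x⟫} := by
    ext x
    simp only [TriS, mem_inter_iff, mem_setOf_eq, s03]
    constructor
    · rintro ⟨a, b, c, d⟩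
      exact ⟨⟨⟨⟨a, d⟩, b⟩, c⟩, by linarith [hsum x]⟩
    · rintro ⟨⟨⟨⟨a, b⟩, c⟩, d⟩, _⟩
      exact ⟨a, c, d, b⟩
  have n0 : B ∩ {x | -x ∈ TriS v} = B ∩ {x | ⟪v 0, x⟫ < 0} ∩ {x | 0 < ⟪v 1, x⟫} ∩ {x | 0 < ⟪v 2, x⟫} ∩ {x | 0 < ⟪v 3, x⟫} := by
    ext x
    simp only [TriS, mem_inter_iff, mem_setOf_eq, inner_neg_right, neg_lt_zero]
    constructor
    · rintro ⟨a, b, c, d⟩
      exact ⟨⟨⟨⟨a, by linarith [hsum x]⟩, b⟩, c⟩, d⟩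
    · rintro ⟨⟨⟨⟨a, _⟩, b⟩, c⟩, d⟩
      exact ⟨a, b, c, d⟩
  have n1 : B ∩ {x | -x ∈ TriS (fun i => v (Equiv.swap 0 1 i))} = B ∩ {x | 0 < ⟪v 0, x⟫} ∩ {x | ⟪v 1, x⟫ < 0} ∩ {x | 0 < ⟪v 2, x⟫} ∩ {x | 0 < ⟪v 3, x⟫} := by
    ext x
    simp only [TriS, mem_inter_iff, mem_setOf_eq, s01, inner_neg_right, neg_lt_zero]
    constructor
    · rintro ⟨a, b, c, d⟩
      exact ⟨⟨⟨⟨a, b⟩, by linarith [hsum x]⟩, c⟩, d⟩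
    · rintro ⟨⟨⟨⟨a, b⟩, _⟩, c⟩, d⟩
      exact ⟨a, b, c, d⟩
  have n2 : B ∩ {x | -x ∈ TriS (fun i => v (Equiv.swap 0 2 i))} = B ∩ {x | 0 < ⟪v 0, x⟫} ∩ {x | 0 < ⟪v 1, x⟫} ∩ {x | ⟪v 2, x⟫ < 0} ∩ {x | 0 < ⟪v 3, x⟫} := by
    ext x
    simp only [TriS, mem_inter_iff, mem_setOf_eq, s02, inner_neg_right, neg_lt_zero]
    constructor
    · rintro ⟨a, b, c, d⟩
      exact ⟨⟨⟨⟨a, c⟩, b⟩, by linarith [hsum x]⟩, d⟩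
    · rintro ⟨⟨⟨⟨a, b⟩, c⟩, _⟩, d⟩
      exact ⟨a, c, b, d⟩
  have n3 : B ∩ {x | -x ∈ TriS (fun i => v (Equiv.swap 0 3 i))} = B ∩ {x | 0 < ⟪v 0, x⟫} ∩ {x | 0 < ⟪v 1, x⟫} ∩ {x | 0 < ⟪v 2, x⟫} ∩ {x | ⟪v 3, x⟫ < 0} := by
    ext x
    simp only [TriS, mem_inter_iff, mem_setOf_eq, s03, inner_neg_right, neg_lt_zero]
    constructor
    · rintro ⟨a, b, c, d⟩
      exact ⟨⟨⟨⟨a, d⟩, b⟩, c⟩, by linarith [hsum x]⟩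
    · rintro ⟨⟨⟨⟨a, b⟩, c⟩, d⟩, _⟩
      exact ⟨a, c, d, b⟩
  have q0 : B ∩ SqS v = B ∩ {x | 0 < ⟪v 0, x⟫} ∩ {x | 0 < ⟪v 1, x⟫} ∩ {x | ⟪v 2, x⟫ < 0} ∩ {x | ⟪v 3, x⟫ < 0} := by
    ext x
    simp only [SqS, mem_inter_iff, mem_setOf_eq]
    tauto
  have q1 : B ∩ SqS (fun i => v (Equiv.swap 1 2 i)) = B ∩ {x | 0 < ⟪v 0, x⟫} ∩ {x | ⟪v 1, x⟫ < 0} ∩ {x | 0 < ⟪v 2, x⟫} ∩ {x | ⟪v 3, x⟫ < 0} := by
    ext x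
    simp only [SqS, mem_inter_iff, mem_setOf_eq, s12]
    tauto
  have q2 : B ∩ SqS (fun i => v (Equiv.swap 1 3 i)) = B ∩ {x | 0 < ⟪v 0, x⟫} ∩ {x | ⟪v 1, x⟫ < 0} ∩ {x | ⟪v 2, x⟫ < 0} ∩ {x | 0 < ⟪v 3, x⟫} := by
    ext x
    simp only [SqS, mem_inter_iff, mem_setOf_eq, s13]
    tauto
  have r0 : B ∩ {x | -x ∈ SqS v} = B ∩ {x | ⟪v 0, x⟫ < 0} ∩ {x | ⟪v 1, x⟫ < 0} ∩ {x | 0 < ⟪v 2, x⟫} ∩ {x | 0 < ⟪v 3, x⟫} := by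
    ext x
    simp only [SqS, mem_inter_iff, mem_setOf_eq, inner_neg_right, neg_lt_zero, neg_pos]
    tauto
  have r1 : B ∩ {x | -x ∈ SqS (fun i => v (Equiv.swap 1 2 i))} = B ∩ {x | ⟪v 0, x⟫ < 0} ∩ {x | 0 < ⟪v 1, x⟫} ∩ {x | ⟪v 2, x⟫ < 0} ∩ {x | 0 < ⟪v 3, x⟫} := by
    ext x
    simp only [SqS, mem_inter_iff, mem_setOf_eq, s12, inner_neg_right, neg_lt_zero, neg_pos]
    tauto
  have r2 : B ∩ {x | -x ∈ SqS (fun i => v (Equiv.swap 1 3 i))} = B ∩ {x | ⟪v 0, x⟫ < 0} ∩ {x | 0 < ⟪v 1, x⟫} ∩ {x | 0 < ⟪v 2, x⟫} ∩ {x | ⟪v 3, x⟫ < 0} := by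
    ext x
    simp only [SqS, mem_inter_iff, mem_setOf_eq, s13, inner_neg_right, neg_lt_zero, neg_pos]
    tauto
  rw [t0, t1, t2, t3, n0, n1, n2, n3, q0, q1, q2, r0, r1, r2, sp4, z1, z2]
  simp only [setIntegral_empty]
  ring

end

end Helper14.CW
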