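import Pool.Agent.Helper22.MEI.Hess

/-!
# Project MEI, G1: where the points of a class T body are

For an admissible function `f` and `u = (X, Y, 1) / N` let `p = grad h (u)` be the boundary point with
normal `u` and `q = p - u` the opposite point, in coordinates relative to `m' = (0, 0, t)`.
-/

namespace Helper14.CW.Geo

open Helper22.MEI Set

variable {f : ℝ × ℝ → ℝ}

/-- third coordinate of `p` -/
noncomputable def pz (f : ℝ × ℝ → ℝ) (p : ℝ × ℝ) : ℝ := f p - p.1 * dX f p - p.2 * dY f p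

/-- coordinates of `q = p - u` -/
noncomputable def qx (f : ℝ × ℝ → ℝ) (p : ℝ × ℝ) : ℝ := dX f p - p.1 / NN p

noncomputable def qy (f : ℝ × ℝ → ℝ) (p : ℝ × ℝ) : ℝ := dY f p - p.2 / NN p

noncomputable def qz (f : ℝ × ℝ → ℝ) (p : ℝ × ℝ) : ℝ := pz f p - 1 / NN p

theorem supp_p (f : ℝ × ℝ → ℝ) (p : ℝ × ℝ) : p.1 * dX f p + p.2 * dY f p + pz f p = f p := by
  unfold pz; ring

theorem tangW (h : Adm f) (v w : ℝ × ℝ) : w.1 * dX f v + w.2 * dY f v + pz f v ≤ f w := by
  have h1 := h.tang v (w - v)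
  rw [show v + (w - v) = w by ring] at h1
  simp only [Prod.fst_sub, Prod.snd_sub] at h1
  unfold pz
  linarith

theorem supp_q (f : ℝ × ℝ → ℝ) (p : ℝ × ℝ) :
    p.1 * qx f p + p.2 * qy f p + qz f p = f p - NN p := by
  have hn := NN_ne p
  have h1 : p.1 * (p.1 / NN p) + p.2 * (p.2 / NN p) + 1 / NN p = NN p := by
    field_simp
    rw [NN_sq]; ring
  unfold qx qy qz
  have h2 := supp_p f p
  linear_combination h2 - h1

theorem tangG (h : Adm f) (u w : ℝ × ℝ) :
    f w ≤ NN w + (w.1 * qx f u + w.2 * qy f u + qz f u) := by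
  have h1 := grad_ineq h.diffN h.cvN u (w - u)
  rw [fd_eq h.diffN, dX_Nsub h, dY_Nsub h] at h1
  rw [show u + (w - u) = w by ring] at h1
  simp only [Prod.fst_sub, Prod.snd_sub] at h1
  have h2 := supp_q f u
  have e1 : u.1 / NN u - dX f u = - qx f u := by unfold qx; ring
  have e2 : u.2 / NN u - dY f u = - qy f u := by unfold qy; ring
  rw [e1, e2] at h1
  linarith

/-- the diameter is at most 1 -/
theorem dist_pq (h : Adm f) (u v : ℝ × ℝ) (hz : 0 < pz f v - qz f u) :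
    (dX f v - qx f u) ^ 2 + (dY f v - qy f u) ^ 2 + (pz f v - qz f u) ^ 2 ≤ 1 := by
  set a := dX f v - qx f u with ha
  set b := dY f v - qy f u with hb
  set c := pz f v - qz f u with hc
  have h1 := tangW h v (a / c, b / c)
  have h2 := tangG h u (a / c, b / c)
  simp only at h1 h2
  have h3 : a / c * a + b / c * b + c ≤ NN (a / c, b / c) := by
    have e : a / c * a + b / c * b + c = (a / c * dX f v + b / c * dY f v + pz f v)
        - (a / c * qx f u + b / c * qy f u + qz f u) := by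
      rw [ha, hb, hc]; ring
    rw [e]; linarith
  have h4 : NN (a / c, b / c) ^ 2 = (a ^ 2 + b ^ 2 + c ^ 2) / c ^ 2 := by
    rw [NN_sq]
    simp only
    field_simp
    ring
  have h5 : a / c * a + b / c * b + c = (a ^ 2 + b ^ 2 + c ^ 2) / c := by
    field_simp
  rw [h5] at h3
  set D := a ^ 2 + b ^ 2 + c ^ 2 with hD
  have hDp : 0 < D := by positivity
  have h6 : (D / c) ^ 2 ≤ D / c ^ 2 := by
    rw [← h4]
    exact pow_le_pow_left₀ (by positivity) h3 2
  have h7 : D ^ 2 ≤ D := by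
    have h8 : (D / c) ^ 2 = D ^ 2 / c ^ 2 := by rw [div_pow]
    rw [h8, div_le_div_iff_of_pos_right (by positivity)] at h6
    exact h6
  nlinarith

/-! ### the four vertices -/

theorem abs_s : |s| = s := abs_of_pos s_pos

theorem a1_vals (h : Adm f) : dX f (s, 0) = 1 / 2 ∧ dY f (s, 0) = 0 ∧ pz f (s, 0) = t := by
  have hs := s_pos
  have h1 : |((s, 0) : ℝ × ℝ).1| = s := abs_s
  have h2 : |((s, 0) : ℝ × ℝ).2| ≤ s := by simp [hs.le]
  have e1 : dX f (s, 0) = 1 / 2 := by rw [h.gXX (s, 0) h1 h2]; field_simp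
  have e2 := h.gXY (s, 0) h1 h2
  have e3 := h.bX (s, 0) h1 h2
  refine ⟨e1, e2, ?_⟩
  unfold pz
  rw [e1, e2, e3]
  simp only
  ring

theorem a2_vals (h : Adm f) : dX f (-s, 0) = -(1 / 2) ∧ dY f (-s, 0) = 0 ∧ pz f (-s, 0) = t := by
  have hs := s_pos
  have h1 : |((-s, 0) : ℝ × ℝ).1| = s := by simp only [abs_neg]; exact abs_s
  have h2 : |((-s, 0) : ℝ × ℝ).2| ≤ s := by simp [hs.le]
  have e1 : dX f (-s, 0) = -(1 / 2) := by rw [h.gXX (-s, 0) h1 h2]; field_simp
  have e2 := h.gXY (-s, 0) h1 h2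
  have e3 := h.bX (-s, 0) h1 h2
  refine ⟨e1, e2, ?_⟩
  unfold pz
  rw [e1, e2, e3]
  simp only
  ring

/-- the data of the mirror body -/
theorem sw_dX (h : Adm f) (p : ℝ × ℝ) : dX (sw f) (p.2, p.1) = - qy f p := by
  rw [dX_sw h.diff, NN_swap]; unfold qy; simp only; ring

theorem sw_dY (h : Adm f) (p : ℝ × ℝ) : dY (sw f) (p.2, p.1) = - qx f p := by
  rw [dY_sw h.diff, NN_swap]; unfold qx; simp only; ring

theorem sw_pz (h : Adm f) (p : ℝ × ℝ) : pz (sw f) (p.2, p.1) = - qz f p := by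
  have h1 := supp_q f p
  have h2 := supp_p (sw f) (p.2, p.1)
  rw [sw_dX h, sw_dY h] at h2
  have h3 : sw f (p.2, p.1) = NN p - f p := by unfold sw; rw [NN_swap]
  rw [h3] at h2
  simp only at h2
  linarith

theorem sw_qx (h : Adm f) (p : ℝ × ℝ) : qx (sw f) (p.2, p.1) = - dY f p := by
  unfold qx; rw [sw_dX h, NN_swap]; unfold qy; simp only; ring

theorem sw_qy (h : Adm f) (p : ℝ × ℝ) : qy (sw f) (p.2, p.1) = - dX f p := by
  unfold qy; rw [sw_dY h, NN_swap]; unfold qx; simp only; ring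

theorem sw_qz (h : Adm f) (p : ℝ × ℝ) : qz (sw f) (p.2, p.1) = - pz f p := by
  unfold qz; rw [sw_pz h, NN_swap]; unfold qz; ring

theorem a4_vals (h : Adm f) : qx f (0, s) = 0 ∧ qy f (0, s) = -(1 / 2) ∧ qz f (0, s) = -t := by
  obtain ⟨h1, h2, h3⟩ := a1_vals h.swap
  rw [sw_dX h (0, s)] at h1
  rw [sw_dY h (0, s)] at h2
  rw [sw_pz h (0, s)] at h3
  exact ⟨by linarith, by linarith, by linarith⟩

theorem a3_vals (h : Adm f) : qx f (0, -s) = 0 ∧ qy f (0, -s) = 1 / 2 ∧ qz f (0, -s) = -t := by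
  obtain ⟨h1, h2, h3⟩ := a2_vals h.swap
  rw [sw_dX h (0, -s)] at h1
  rw [sw_dY h (0, -s)] at h2
  rw [sw_pz h (0, -s)] at h3
  exact ⟨by linarith, by linarith, by linarith⟩

/-! ### heights -/

theorem NN_le_sqrt2 {p : ℝ × ℝ} (h1 : |p.1| ≤ s) (h2 : |p.2| ≤ s) : NN p ≤ 2 * s := by
  have a1 : p.1 ^ 2 ≤ s ^ 2 := sq_le_sq' (by linarith [(abs_le.1 h1).1]) (abs_le.1 h1).2
  have a2 : p.2 ^ 2 ≤ s ^ 2 := sq_le_sq' (by linarith [(abs_le.1 h2).1]) (abs_le.1 h2).2
  have hs := s_sq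
  have hn := NN_sq p
  have := s_pos
  have h0 := NN_pos p
  nlinarith

theorem inv_NN_ge {p : ℝ × ℝ} (h1 : |p.1| ≤ s) (h2 : |p.2| ≤ s) : s ≤ 1 / NN p := by
  rw [le_div_iff₀ (NN_pos p)]
  have := NN_le_sqrt2 h1 h2
  have hs := s_sq
  have := s_pos
  nlinarith

theorem f_zero_le (h : Adm f) : f (0, 0) ≤ c3 - t := by
  have hs := s_pos
  have h1 := h.le_f0 (p := (0, 0)) (by simp [hs.le])
  have h2 : f0 (0, 0) = c3 - t := by
    unfold f0 AA
    norm_num
  linarith

theorem pz_le (h : Adm f) (u : ℝ × ℝ) : pz f u ≤ c3 - t := by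
  have h1 := tangW h u (0, 0)
  have h2 := f_zero_le h
  simp only [zero_mul, zero_add] at h1
  linarith

theorem c3_lt : c3 < 0.8661 := by
  have := c3_sq
  nlinarith [c3_pos]

theorem s_gt : 0.7071 < s := by
  have := s_sq
  nlinarith [s_pos]

theorem t_gt : 0.3535 < t := by
  have := s_gt
  have := s_eq
  linarith

theorem qz_neg (h : Adm f) {u : ℝ × ℝ} (h1 : |u.1| ≤ s) (h2 : |u.2| ≤ s) : qz f u < 0 := by
  have a1 := pz_le h u
  have a2 := inv_NN_ge h1 h2
  have := c3_lt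
  have := s_gt
  have := t_gt
  unfold qz
  linarith

theorem pz_pos (h : Adm f) {u : ℝ × ℝ} (h1 : |u.1| ≤ s) (h2 : |u.2| ≤ s) : 0 < pz f u := by
  have := qz_neg h.swap (u := (u.2, u.1)) h2 h1
  rw [sw_qz h] at this
  linarith

/-- `|q - a1| ≤ 1` -/
theorem q_a1 (h : Adm f) {u : ℝ × ℝ} (h1 : |u.1| ≤ s) (h2 : |u.2| ≤ s) :
    (qx f u - 1 / 2) ^ 2 + qy f u ^ 2 + (qz f u - t) ^ 2 ≤ 1 := by
  obtain ⟨e1, e2, e3⟩ := a1_vals h
  have := dist_pq h u (s, 0) (by rw [e3]; linarith [qz_neg h h1 h2, t_pos])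
  rw [e1, e2, e3] at this
  linarith

theorem q_a2 (h : Adm f) {u : ℝ × ℝ} (h1 : |u.1| ≤ s) (h2 : |u.2| ≤ s) :
    (qx f u + 1 / 2) ^ 2 + qy f u ^ 2 + (qz f u - t) ^ 2 ≤ 1 := by
  obtain ⟨e1, e2, e3⟩ := a2_vals h
  have := dist_pq h u (-s, 0) (by rw [e3]; linarith [qz_neg h h1 h2, t_pos])
  rw [e1, e2, e3] at this
  linarith

theorem p_a3 (h : Adm f) {u : ℝ × ℝ} (h1 : |u.1| ≤ s) (h2 : |u.2| ≤ s) :
    dX f u ^ 2 + (dY f u - 1 / 2) ^ 2 + (pz f u + t) ^ 2 ≤ 1 := by
  obtain ⟨e1, e2, e3⟩ := a3_vals h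
  have := dist_pq h (0, -s) u (by rw [e3]; linarith [pz_pos h h1 h2, t_pos])
  rw [e1, e2, e3] at this
  linarith

theorem p_a4 (h : Adm f) {u : ℝ × ℝ} (h1 : |u.1| ≤ s) (h2 : |u.2| ≤ s) :
    dX f u ^ 2 + (dY f u + 1 / 2) ^ 2 + (pz f u + t) ^ 2 ≤ 1 := by
  obtain ⟨e1, e2, e3⟩ := a4_vals h
  have := dist_pq h (0, s) u (by rw [e3]; linarith [pz_pos h h1 h2, t_pos])
  rw [e1, e2, e3] at this
  linarith

/-! ### position relative to the edge `a1 a2`: `|x| ≤ 1/2`, wedge, spindle, outer leaf -/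

theorem dX_le (h : Adm f) {u : ℝ × ℝ} (h1 : |u.1| ≤ s) (h2 : |u.2| ≤ s) : dX f u ≤ 1 / 2 := by
  have hs := s_pos
  have h3 := dX_mono h u.2 (abs_le.1 h1).2
  have h4 := h.gXX (s, u.2) abs_s h2
  have h5 : (s : ℝ) / (2 * s) = 1 / 2 := by field_simp
  simp only at h4
  rw [h4, h5] at h3
  exact h3

theorem le_dX (h : Adm f) {u : ℝ × ℝ} (h1 : |u.1| ≤ s) (h2 : |u.2| ≤ s) : -(1 / 2) ≤ dX f u := by
  have hs := s_pos
  have h3 := dX_mono h u.2 (abs_le.1 h1).1
  have h4 := h.gXX (-s, u.2) (by simp only [abs_neg]; exact abs_s) h2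
  have h5 : -(s : ℝ) / (2 * s) = -(1 / 2) := by field_simp
  simp only at h4
  rw [h4, h5] at h3
  exact h3

theorem abs_dX (h : Adm f) {u : ℝ × ℝ} (h1 : |u.1| ≤ s) (h2 : |u.2| ≤ s) : |dX f u| ≤ 1 / 2 :=
  abs_le.2 ⟨le_dX h h1 h2, dX_le h h1 h2⟩

theorem abs_qy (h : Adm f) {u : ℝ × ℝ} (h1 : |u.1| ≤ s) (h2 : |u.2| ≤ s) : |qy f u| ≤ 1 / 2 := by
  have := abs_dX h.swap (u := (u.2, u.1)) h2 h1
  rwa [sw_dX h, abs_neg] at this

/-- the point `p` for a boundary direction `(X, s)` -/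
theorem side_vals (h : Adm f) {x : ℝ} (hx : |x| ≤ s) :
    dY f (x, s) = s / NN (x, s) - 1 / 2 ∧ pz f (x, s) = 1 / NN (x, s) - t := by
  have hs := s_pos
  have hn := NN_ne (x, s)
  have h1 := h.gYX (x, s) abs_s hx
  have h2 := h.gYY (x, s) abs_s hx
  have h3 := h.bY (x, s) abs_s hx
  have h5 : (s : ℝ) / (2 * s) = 1 / 2 := by field_simp
  simp only at h1 h2 h3
  rw [h5] at h2
  refine ⟨h2, ?_⟩
  unfold pz
  rw [h1, h2, h3]
  simp only
  have h6 : x * (x / NN (x, s)) + s * (s / NN (x, s)) + 1 / NN (x, s) = NN (x, s) := by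
    field_simp
    rw [NN_sq]; ring
  linear_combination -h6

/-- the wedge: `p` is on the inner side of the plane `a4 a1 a2` -/
theorem wedge_up (h : Adm f) {u : ℝ × ℝ} (h1 : |u.1| ≤ s) (h2 : |u.2| ≤ s) :
    dY f u ≤ s * (pz f u - t) := by
  have hs := s_pos
  have hs2 := s_sq
  have hst := s_eq
  by_contra hcon
  push Not at hcon
  obtain ⟨X, Y⟩ := u
  simp only at h1 h2
  set c := (1 + s * Y) / (3 / 2) with hc
  have hY := abs_le.1 h2
  have hX := abs_le.1 h1
  have hcp : 0 < c := by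
    rw [hc]
    apply div_pos _ (by norm_num)
    nlinarith
  have hf := supp_p f (X, Y)
  simp only at hf
  rcases eq_or_lt_of_le hY.2 with hYs | hYs
  · -- `Y = s`
    subst hYs
    obtain ⟨e1, e2⟩ := side_vals h h1
    rw [e1, e2] at hcon
    have e3 : s * (1 / NN (X, s) - t - t) = s / NN (X, s) - 1 / 2 := by
      have : s * (1 / NN (X, s) - t - t) = s / NN (X, s) - s * (2 * t) := by ring
      rw [this, ← hst]
      linear_combination -hs2
    rw [e3] at hcon
    exact lt_irrefl _ hcon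
  · by_cases hXc : |X| ≤ c * s
    · -- the direction `(X / c, s)`
      have hx' : |X / c| ≤ s := by
        rw [abs_div, abs_of_pos hcp, div_le_iff₀ hcp]
        linarith
      obtain ⟨e1, e2⟩ := side_vals h hx'
      have k1 := tangW h (X, Y) (X / c, s)
      have k2 := supp_p f (X / c, s)
      have k3 := tangW h (X / c, s) (X, Y)
      simp only at k1 k2 k3
      rw [e1, e2] at k2 k3
      set n := NN (X / c, s)
      have hnn : 0 < n := NN_pos _
      set d := dX f (X / c, s)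
      set a := dX f (X, Y)
      set b := dY f (X, Y)
      set z := pz f (X, Y)
      -- (X, Y, 1) = c (X / c, s, 1) - m (0, 1, -s)
      set m := c * s - Y with hm
      have hmp : 0 < m := by
        rw [hm, hc]
        have e : (1 + s * Y) / (3 / 2) * s - Y = (2 / 3) * (s - Y) := by
          have : (1 + s * Y) / (3 / 2) * s - Y = (2 / 3) * (s + s ^ 2 * Y) - Y := by ring
          rw [this, hs2]; ring
        rw [e]; nlinarith
      have hc1 : c + m * s = 1 := by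
        rw [hm, hc]
        have : (1 + s * Y) / (3 / 2) + ((1 + s * Y) / (3 / 2) * s - Y) * s
          = (2 / 3) * (1 + s * Y) * (1 + s ^ 2) - s * Y := by ring
        rw [this, hs2]; ring
      have hcX : c * (X / c) = X := by field_simp
      have k1' := mul_le_mul_of_nonneg_left k1 hcp.le
      have hYm : Y = c * s - m := by rw [hm]; ring
      have h1m : 1 / n - t = 1 / n - t := rfl
      -- value of the plane at (0,1,-s) for the side point is zero
      have hz0 : (s / n - 1 / 2) - s * (1 / n - t - t) = 0 := by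
        have : (s / n - 1 / 2) - s * (1 / n - t - t) = s * (2 * t) - 1 / 2 := by ring
        rw [this, ← hst]; linear_combination hs2
      have q1 : X * a + Y * b + z = c * (X / c * a + s * b + z) - m * (b - s * (z - t)) + m * s * t := by
        rw [show c * (X / c * a + s * b + z) = (c * (X / c)) * a + c * s * b + c * z by ring, hcX]
        rw [hYm]
        linear_combination -z * hc1
      have q2 : X * d + Y * (s / n - 1 / 2) + (1 / n - t)
          = c * (X / c * d + s * (s / n - 1 / 2) + (1 / n - t))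
            - m * ((s / n - 1 / 2) - s * (1 / n - t - t)) + m * s * t := by
        rw [show c * (X / c * d + s * (s / n - 1 / 2) + (1 / n - t))
          = (c * (X / c)) * d + c * s * (s / n - 1 / 2) + c * (1 / n - t) by ring, hcX]
        rw [hYm]
        linear_combination -(1 / n - t) * hc1
      rw [hz0] at q2
      have hpos : 0 < m * (b - s * (z - t)) := mul_pos hmp (by linarith)
      rw [k2] at q2
      linarith
    · push Not at hXc
      -- the direction `(σ s, Y1)`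
      obtain ⟨σ, hσ, hσX⟩ : ∃ σ : ℝ, (σ = 1 ∨ σ = -1) ∧ |X| = σ * X := by
        rcases abs_cases X with ⟨e, _⟩ | ⟨e, _⟩
        · exact ⟨1, Or.inl rfl, by rw [e]; ring⟩
        · exact ⟨-1, Or.inr rfl, by rw [e]; ring⟩
      have hσσ : σ * σ = 1 := by rcases hσ with rfl | rfl <;> norm_num
      set α := |X| / s with hα
      have hXα : |X| = α * s := by rw [hα]; field_simp
      have hα1 : α ≤ 1 := by rw [hα, div_le_one hs]; exact h1
      have hα0 : c < α := by rw [hα, lt_div_iff₀ hs]; exact hXc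
      have hαp : 0 < α := hcp.trans hα0
      set β := (1 - α) / s with hβ
      have hβ0 : 0 ≤ β := div_nonneg (by linarith) hs.le
      have hβs : β * s = 1 - α := by rw [hβ]; field_simp
      set Y1 := (Y + β) / α with hY1
      have hαY : α * Y1 = Y + β := by rw [hY1]; field_simp
      have hY1a : |Y1| ≤ s := by
        rw [abs_le]
        constructor
        · have : -s * α ≤ α * Y1 := by
            rw [hαY]
            have : (-s * α) * s ≤ (Y + β) * s := by
              have e1 : (Y + β) * s = Y * s + (1 - α) := by rw [add_mul, hβs]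
              rw [e1]
              nlinarith
            exact le_of_mul_le_mul_right this hs
          have h9 : α * (-s) ≤ α * Y1 := by linarith
          exact le_of_mul_le_mul_left h9 hαp
        · have : α * Y1 ≤ α * s := by
            rw [hαY]
            have : (Y + β) * s ≤ (α * s) * s := by
              have e1 : (Y + β) * s = Y * s + (1 - α) := by rw [add_mul, hβs]
              have e2 : α * s * s = α / 2 := by rw [mul_assoc, ← sq, hs2]; ring
              rw [e1, e2]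
              have : (1 + s * Y) ≤ (3 / 2) * α := by
                have := hα0.le
                rw [hc, div_le_iff₀ (by norm_num)] at this
                linarith
              linarith
            exact le_of_mul_le_mul_right this hs
          exact le_of_mul_le_mul_left this hαp
      have hb : |σ * s| = s := by
        rcases hσ with rfl | rfl
        · rw [one_mul]; exact abs_s
        · rw [neg_one_mul, abs_neg]; exact abs_s
      have k1 := tangW h (X, Y) (σ * s, Y1)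
      have b1 := h.bX (σ * s, Y1) hb hY1a
      have g1 := h.gXX (σ * s, Y1) hb hY1a
      have g2 := h.gXY (σ * s, Y1) hb hY1a
      have k3 := tangW h (σ * s, Y1) (X, Y)
      have hpz : pz f (σ * s, Y1) = t := by
        unfold pz
        rw [g1, g2, b1]
        simp only
        have : σ * s * (σ * s / (2 * s)) = (σ * σ) * s / 2 := by field_simp
        rw [this, hσσ]; ring
      simp only at g1 k1 k3 b1
      rw [hpz, g1, g2] at k3
      have e5 : σ * s / (2 * s) = σ / 2 := by field_simp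
      rw [e5] at k3
      rw [b1] at k1
      set a := dX f (X, Y)
      set b := dY f (X, Y)
      set z := pz f (X, Y)
      have k1' := mul_le_mul_of_nonneg_left k1 hαp.le
      have eX : X = α * (σ * s) := by
        have : σ * |X| = X := by rw [hσX, ← mul_assoc, hσσ, one_mul]
        rw [← this, hXα]; ring
      have q1 : X * a + Y * b + z = α * (σ * s * a + Y1 * b + z) - β * (b - s * (z - t))
          + β * s * t := by
        have : α * (σ * s * a + Y1 * b + z) = (α * (σ * s)) * a + (α * Y1) * b + α * z := by ring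
        rw [this, ← eX, hαY]
        linear_combination -z * hβs
      have k4 : X * (σ / 2) = |X| / 2 := by rw [hσX]; ring
      have k5 : α * (s / 2 + t) = |X| / 2 + α * t := by rw [hXα]; ring
      rcases eq_or_lt_of_le hβ0 with hβz | hβp
      · -- `β = 0`, so `|X| = s`
        have hα1' : α = 1 := by rw [← hβz] at hβs; linarith
        have hXs : |X| = s := by rw [hXα, hα1']; ring
        have g3 := h.gXY (X, Y) hXs h2
        have b3 := h.bX (X, Y) hXs h2
        have g4 := h.gXX (X, Y) hXs h2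
        simp only at g4 b3
        have hz : z = t := by
          have := supp_p f (X, Y)
          simp only at this
          rw [g3, g4, b3] at this
          have e6 : X * (X / (2 * s)) = s / 2 := by
            have : X * (X / (2 * s)) = |X| ^ 2 / (2 * s) := by rw [sq_abs]; ring
            rw [this, hXs]; field_simp
          rw [e6] at this
          linarith
        have hb0 : b = 0 := g3
        rw [hb0, hz] at hcon
        simp at hcon
      · have hpos : 0 < β * (b - s * (z - t)) := mul_pos hβp (by linarith)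
        have : β * s * t = (1 - α) * t := by rw [hβs]
        nlinarith

/-! ### reflection in `Y` -/

noncomputable def flY (f : ℝ × ℝ → ℝ) (p : ℝ × ℝ) : ℝ := f (p.1, -p.2)

noncomputable def flL : ℝ × ℝ →L[ℝ] ℝ × ℝ :=
  (ContinuousLinearMap.fst ℝ ℝ ℝ).prod (-(ContinuousLinearMap.snd ℝ ℝ ℝ))

theorem flL_apply (p : ℝ × ℝ) : flL p = (p.1, -p.2) := rfl

theorem NN_fl (p : ℝ × ℝ) : NN (p.1, -p.2) = NN p := by
  unfold NN; congr 1; ring

theorem flY_fd (hd : Differentiable ℝ f) (p : ℝ × ℝ) :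
    HasFDerivAt (flY f) ((fderiv ℝ f (p.1, -p.2)).comp flL) p :=
  HasFDerivAt.comp (g := f) p (hd (p.1, -p.2)).hasFDerivAt flL.hasFDerivAt

theorem dX_flY (hd : Differentiable ℝ f) (p : ℝ × ℝ) : dX (flY f) p = dX f (p.1, -p.2) := by
  unfold dX
  rw [(flY_fd hd p).fderiv]
  show fderiv ℝ f (p.1, -p.2) ((1 : ℝ), -(0 : ℝ)) = _
  rw [neg_zero]

theorem dY_flY (hd : Differentiable ℝ f) (p : ℝ × ℝ) : dY (flY f) p = - dY f (p.1, -p.2) := by
  unfold dY
  rw [(flY_fd hd p).fderiv]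
  show fderiv ℝ f (p.1, -p.2) ((0 : ℝ), -(1 : ℝ)) = _
  rw [← map_neg]
  congr 1
  ext <;> simp

theorem Adm.flY (h : Adm f) : Adm (flY f) where
  diff := fun p => (flY_fd h.diff p).differentiableAt
  cv := by
    have := h.cv.comp_linearMap flL.toLinearMap
    have e : Geo.flY f = f ∘ flL.toLinearMap := rfl
    rw [e]; simpa using this
  cvN := by
    have := h.cvN.comp_linearMap flL.toLinearMap
    have e : (fun p => NN p - Geo.flY f p) = (fun p => NN p - f p) ∘ flL.toLinearMap := by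
      ext p
      show NN p - f (p.1, -p.2) = NN (p.1, -p.2) - f (p.1, -p.2)
      rw [NN_fl]
    rw [e]; simpa using this
  bX := fun p h1 h2 => h.bX (p.1, -p.2) h1 (by simpa using h2)
  bY := fun p h1 h2 => by
    have := h.bY (p.1, -p.2) (by simpa using h1) h2
    rw [NN_fl] at this
    exact this
  gXX := fun p h1 h2 => by
    rw [dX_flY h.diff]
    exact h.gXX (p.1, -p.2) h1 (by simpa using h2)
  gXY := fun p h1 h2 => by
    rw [dY_flY h.diff, h.gXY (p.1, -p.2) h1 (by simpa using h2), neg_zero]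
  gYX := fun p h1 h2 => by
    rw [dX_flY h.diff, h.gYX (p.1, -p.2) (by simpa using h1) h2, NN_fl]
  gYY := fun p h1 h2 => by
    rw [dY_flY h.diff, h.gYY (p.1, -p.2) (by simpa using h1) h2, NN_fl]
    ring

theorem pz_flY (h : Adm f) (p : ℝ × ℝ) : pz (flY f) (p.1, -p.2) = pz f p := by
  unfold pz
  rw [dX_flY h.diff, dY_flY h.diff]
  simp only [neg_neg]
  show f (p.1, - -p.2) - _ - _ = _
  rw [neg_neg]
  ring

/-- the wedge -/
theorem wedge (h : Adm f) {u : ℝ × ℝ} (h1 : |u.1| ≤ s) (h2 : |u.2| ≤ s) :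
    |dY f u| ≤ s * (pz f u - t) := by
  rw [abs_le]
  refine ⟨?_, wedge_up h h1 h2⟩
  have := wedge_up (Adm.flY h) (u := (u.1, -u.2)) h1 (by simpa using h2)
  rw [dY_flY h.diff, pz_flY h] at this
  simp only [neg_neg] at this
  linarith

theorem t_le_pz (h : Adm f) {u : ℝ × ℝ} (h1 : |u.1| ≤ s) (h2 : |u.2| ≤ s) : t ≤ pz f u := by
  have := (abs_nonneg _).trans (wedge h h1 h2)
  have hs := s_pos
  nlinarith

theorem wedge_q (h : Adm f) {u : ℝ × ℝ} (h1 : |u.1| ≤ s) (h2 : |u.2| ≤ s) :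
    |qx f u| ≤ s * (- qz f u - t) := by
  have := wedge h.swap (u := (u.2, u.1)) h2 h1
  rwa [sw_dY h, abs_neg, sw_pz h] at this

theorem qz_le_t (h : Adm f) {u : ℝ × ℝ} (h1 : |u.1| ≤ s) (h2 : |u.2| ≤ s) : qz f u ≤ -t := by
  have := t_le_pz h.swap (u := (u.2, u.1)) h2 h1
  rw [sw_pz h] at this
  linarith

/-- outer leaf: `x² + r² + √2 w + |y| ≤ 1/4` -/
theorem outer (h : Adm f) {u : ℝ × ℝ} (h1 : |u.1| ≤ s) (h2 : |u.2| ≤ s) :
    dX f u ^ 2 + dY f u ^ 2 + (pz f u - t) ^ 2 + 2 * s * (pz f u - t) + |dY f u| ≤ 1 / 4 := by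
  have a3 := p_a3 h h1 h2
  have a4 := p_a4 h h1 h2
  have hst := s_eq
  have hs := s_sq
  have e : 2 * s * (pz f u - t) = 4 * t * (pz f u - t) := by rw [hst]; ring
  have ht : t ^ 2 = 1 / 8 := by rw [hst] at hs; linarith
  rw [e]
  rcases abs_cases (dY f u) with ⟨e1, _⟩ | ⟨e1, _⟩
  · rw [e1]; nlinarith
  · rw [e1]; nlinarith

/-- distance from the line `a1 a2` -/
noncomputable def rp (f : ℝ × ℝ → ℝ) (u : ℝ × ℝ) : ℝ := √(dY f u ^ 2 + (pz f u - t) ^ 2)

theorem rp_nonneg (f : ℝ × ℝ → ℝ) (u : ℝ × ℝ) : 0 ≤ rp f u := Real.sqrt_nonneg _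

theorem rp_sq (f : ℝ × ℝ → ℝ) (u : ℝ × ℝ) : rp f u ^ 2 = dY f u ^ 2 + (pz f u - t) ^ 2 :=
  Real.sq_sqrt (by positivity)

/-- outer leaf in the form `x² + r² + √2 r ≤ 1/4` -/
theorem outer_r (h : Adm f) {u : ℝ × ℝ} (h1 : |u.1| ≤ s) (h2 : |u.2| ≤ s) :
    dX f u ^ 2 + rp f u ^ 2 + 2 * s * rp f u ≤ 1 / 4 := by
  have a1 := outer h h1 h2
  have a2 := wedge h h1 h2
  have a3 := t_le_pz h h1 h2
  have hs := s_sq
  have hsp := s_pos
  rw [rp_sq]
  set w := pz f u - t with hw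
  have hw0 : 0 ≤ w := by linarith
  set y := |dY f u| with hy
  have hy0 : 0 ≤ y := abs_nonneg _
  have hyy : dY f u ^ 2 = y ^ 2 := by rw [hy, sq_abs]
  -- `2 s r ≤ 2 s w + y` since `(2 s w + y)^2 = 2 w^2 + 4 s w y + y^2 ≥ 2 (w^2 + y^2)`
  have key : 2 * s * rp f u ≤ 2 * s * w + y := by
    apply le_of_sq_le_sq _ (by positivity)
    rw [mul_pow, rp_sq, hyy, mul_pow, hs]
    have : (2 * s * w + y) ^ 2 = 4 * s ^ 2 * w ^ 2 + 4 * s * w * y + y ^ 2 := by ring
    rw [this, hs]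
    nlinarith
  linarith

/-- the spindle: `x² + r² + 2 k0 r ≥ 1/4` -/
theorem spindle (h : Adm f) {u : ℝ × ℝ} (h1 : |u.1| ≤ s) (h2 : |u.2| ≤ s) :
    1 / 4 ≤ dX f u ^ 2 + rp f u ^ 2 + 2 * c3 * rp f u := by
  have hr0 := rp_nonneg f u
  have hrs := rp_sq f u
  have hc := c3_sq
  have hcp := c3_pos
  have hA := AA_sq u.2
  have hAp := AA_pos u.2
  have hN := NN_sq u
  have hNp := NN_pos u
  have hf := supp_p f u
  have h3 := h.f1_le h2
  -- `u.2 y + w ≤ A r`
  have hcs : u.2 * dY f u + (pz f u - t) ≤ AA u.2 * rp f u := by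
    apply le_of_sq_le_sq _ (by positivity)
    rw [mul_pow, hA, hrs]
    nlinarith [sq_nonneg (dY f u - u.2 * (pz f u - t))]
  unfold f1 f0 at h3
  simp only at h3
  split_ifs at h3 with hm
  · -- mid part
    by_contra hcon
    push Not at hcon
    have h5 : u.1 * dX f u + AA u.2 * (rp f u + c3) < NN u := by
      have e1 : dX f u ^ 2 + (rp f u + c3) ^ 2 < 1 := by nlinarith
      have e2 : (u.1 * dX f u + AA u.2 * (rp f u + c3)) ^ 2
          ≤ (u.1 ^ 2 + AA u.2 ^ 2) * (dX f u ^ 2 + (rp f u + c3) ^ 2) := by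
        nlinarith [sq_nonneg (u.1 * (rp f u + c3) - AA u.2 * dX f u)]
      have e3 : u.1 ^ 2 + AA u.2 ^ 2 = NN u ^ 2 := by rw [hA, hN]; ring
      rw [e3] at e2
      have e4 : (u.1 * dX f u + AA u.2 * (rp f u + c3)) ^ 2 < NN u ^ 2 := by
        refine e2.trans_lt ?_
        have : 0 < NN u ^ 2 := by positivity
        nlinarith
      exact lt_of_pow_lt_pow_left₀ 2 hNp.le e4
    nlinarith
  · -- lens part
    push Not at hm
    have h4 : |u.1| / 2 ≤ u.1 * dX f u + AA u.2 * rp f u := by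
      rw [NN_swap] at h3
      linarith
    have hx := abs_dX h h1 h2
    set x := |dX f u| with hxd
    have hx0 : 0 ≤ x := abs_nonneg _
    have hxx : dX f u ^ 2 = x ^ 2 := by rw [hxd, sq_abs]
    have h5 : u.1 * dX f u ≤ |u.1| * x := by
      rw [hxd, ← abs_mul]; exact le_abs_self _
    have h6 : |u.1| * (1 / 2 - x) ≤ AA u.2 * rp f u := by nlinarith
    have h7 : AA u.2 ≤ √3 * |u.1| := by
      apply le_of_sq_le_sq _ (by positivity)
      rw [hA, mul_pow, Real.sq_sqrt (by norm_num), sq_abs]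
      exact hm.le
    have h8 : 0 < |u.1| := by
      have h33 : 0 < √3 := by positivity
      by_contra hcon
      push Not at hcon
      have : |u.1| = 0 := le_antisymm hcon (abs_nonneg _)
      rw [this] at h7
      linarith
    have h9 : (1 / 2 - x) ≤ √3 * rp f u := by
      have : |u.1| * (1 / 2 - x) ≤ |u.1| * (√3 * rp f u) := by
        calc |u.1| * (1 / 2 - x) ≤ AA u.2 * rp f u := h6
          _ ≤ (√3 * |u.1|) * rp f u := mul_le_mul_of_nonneg_right h7 hr0
          _ = |u.1| * (√3 * rp f u) := by ring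
      exact le_of_mul_le_mul_left this h8
    have hc3 : √3 = 2 * c3 := by unfold c3; ring
    rw [hc3] at h9
    rw [hxx]
    -- with `d = 1/2 - x`, `r ≥ d / (2 c3)`: `x² + r² + 2 c3 r ≥ 1/4 - d + d² + d = 1/4 + d²`
    nlinarith [sq_nonneg (1 / 2 - x)]

/-! ### the affine functions `B_q` and `A_p` -/

/-- `1 - |q - a1|²` and `1 - |q - a2|²`, averaged -/
noncomputable def Bq (f : ℝ × ℝ → ℝ) (u : ℝ × ℝ) (x' : ℝ) : ℝ :=
  3 / 4 - (qx f u ^ 2 + qy f u ^ 2 + (qz f u - t) ^ 2) + 2 * x' * qx f u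

noncomputable def Ap (f : ℝ × ℝ → ℝ) (u : ℝ × ℝ) (y' : ℝ) : ℝ :=
  3 / 4 - (dX f u ^ 2 + dY f u ^ 2 + (pz f u + t) ^ 2) + 2 * y' * dY f u

theorem Bq_nonneg (h : Adm f) {u : ℝ × ℝ} (h1 : |u.1| ≤ s) (h2 : |u.2| ≤ s) {x' : ℝ}
    (hx : |x'| ≤ 1 / 2) : 0 ≤ Bq f u x' := by
  have a1 := q_a1 h h1 h2
  have a2 := q_a2 h h1 h2
  obtain ⟨b1, b2⟩ := abs_le.1 hx
  unfold Bq
  nlinarith

theorem Ap_nonneg (h : Adm f) {u : ℝ × ℝ} (h1 : |u.1| ≤ s) (h2 : |u.2| ≤ s) {y' : ℝ}
    (hy : |y'| ≤ 1 / 2) : 0 ≤ Ap f u y' := by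
  have a1 := p_a3 h h1 h2
  have a2 := p_a4 h h1 h2
  obtain ⟨b1, b2⟩ := abs_le.1 hy
  unfold Ap
  nlinarith

theorem sw_Bq (h : Adm f) (u : ℝ × ℝ) (x' : ℝ) : Bq (sw f) (u.2, u.1) x' = Ap f u (-x') := by
  unfold Bq Ap
  rw [sw_qx h, sw_qy h, sw_qz h]
  ring

theorem sw_Ap (h : Adm f) (u : ℝ × ℝ) (x' : ℝ) : Ap (sw f) (u.2, u.1) x' = Bq f u (-x') := by
  unfold Bq Ap
  rw [sw_dX h, sw_dY h, sw_pz h]
  ring

/-- identity (1) of helper75 -/
theorem flux_pt (f : ℝ × ℝ → ℝ) (u : ℝ × ℝ) (x' : ℝ) :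
    2 * ((dX f u - x') * u.1 + dY f u * u.2 + (pz f u - t)) / NN u
      - ((dX f u - x') ^ 2 + dY f u ^ 2 + (pz f u - t) ^ 2) - (1 / 4 - x' ^ 2) = Bq f u x' := by
  have hn := NN_ne u
  have hN := NN_sq u
  have key : (u.1 / NN u) ^ 2 + (u.2 / NN u) ^ 2 + (1 / NN u) ^ 2 = 1 := by
    field_simp
    rw [hN]; ring
  unfold Bq qx qy qz
  have e : 2 * ((dX f u - x') * u.1 + dY f u * u.2 + (pz f u - t)) / NN u
      = 2 * ((dX f u - x') * (u.1 / NN u) + dY f u * (u.2 / NN u) + (pz f u - t) * (1 / NN u)) := by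
    field_simp
  rw [e]
  linear_combination key

/-- exact coupling (3) of helper75 -/
theorem coupling (f : ℝ × ℝ → ℝ) (u : ℝ × ℝ) :
    Ap f u (qy f u) + Bq f u (dX f u) = 2 * (pz f u - t) * (- qz f u - t) := by
  have hn := NN_ne u
  have hN := NN_sq u
  have key : (u.1 / NN u) ^ 2 + (u.2 / NN u) ^ 2 + (1 / NN u) ^ 2 = 1 := by
    field_simp
    rw [hN]; ring
  have ht : t ^ 2 = 1 / 8 := by
    have h1 := s_sq
    rw [s_eq] at h1; linarith
  unfold Ap Bq qx qy qz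
  linear_combination -key - 4 * ht

/-- (P1) all distances between a top point and a bottom point are at most 1 -/
theorem dist_all (h : Adm f) {u v : ℝ × ℝ} (h1 : |u.1| ≤ s) (h2 : |u.2| ≤ s)
    (h3 : |v.1| ≤ s) (h4 : |v.2| ≤ s) :
    (dX f v - qx f u) ^ 2 + (dY f v - qy f u) ^ 2 + (pz f v - qz f u) ^ 2 ≤ 1 :=
  dist_pq h u v (by linarith [t_le_pz h h3 h4, qz_le_t h h1 h2, t_pos])

/-- (P2) `|y| ≤ A0` -/
theorem abs_dY_le_Ap (h : Adm f) {u : ℝ × ℝ} (h1 : |u.1| ≤ s) (h2 : |u.2| ≤ s) :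
    |dY f u| ≤ Ap f u 0 := by
  have := outer h h1 h2
  have ht : t ^ 2 = 1 / 8 := by
    have h1 := s_sq
    rw [s_eq] at h1; linarith
  have hst := s_eq
  unfold Ap
  have e : 2 * s * (pz f u - t) = 4 * t * (pz f u - t) := by rw [hst]; ring
  rw [e] at this
  nlinarith

theorem abs_qx_le_Bq (h : Adm f) {u : ℝ × ℝ} (h1 : |u.1| ≤ s) (h2 : |u.2| ≤ s) :
    |qx f u| ≤ Bq f u 0 := by
  have := abs_dY_le_Ap h.swap (u := (u.2, u.1)) h2 h1
  rwa [sw_dY h, abs_neg, sw_Ap h, neg_zero] at this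

/-- (P3) `y ≤ Y0` -/
theorem dY_le (h : Adm f) {u : ℝ × ℝ} (h1 : |u.1| ≤ s) (h2 : |u.2| ≤ s) : dY f u ≤ 0.0774 := by
  have hs := s_pos
  have hs2 := s_sq
  have h3 := dY_mono h u.1 (abs_le.1 h2).2
  have h4 := (side_vals h (x := u.1) h1).1
  rw [h4] at h3
  have hN := NN_sq (u.1, s)
  have hNp := NN_pos (u.1, s)
  simp only at hN
  have h5 : 1.2247 ≤ NN (u.1, s) := by
    rw [hs2] at hN
    nlinarith [sq_nonneg u.1]
  have h6 : s ≤ 0.70711 := by nlinarith
  have h7 : s / NN (u.1, s) ≤ 0.5774 := by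
    rw [div_le_iff₀ hNp]
    nlinarith
  linarith

theorem abs_dY (h : Adm f) {u : ℝ × ℝ} (h1 : |u.1| ≤ s) (h2 : |u.2| ≤ s) : |dY f u| ≤ 0.0774 := by
  rw [abs_le]
  refine ⟨?_, dY_le h h1 h2⟩
  have := dY_le (Adm.flY h) (u := (u.1, -u.2)) h1 (by simpa using h2)
  rw [dY_flY h.diff] at this
  simp only [neg_neg] at this
  linarith

theorem abs_qx (h : Adm f) {u : ℝ × ℝ} (h1 : |u.1| ≤ s) (h2 : |u.2| ≤ s) : |qx f u| ≤ 0.0774 := by
  have := abs_dY h.swap (u := (u.2, u.1)) h2 h1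
  rwa [sw_dY h, abs_neg] at this

/-- `0 ≤ w` and `0 ≤ w_g` -/
theorem wf_nonneg (h : Adm f) {u : ℝ × ℝ} (h1 : |u.1| ≤ s) (h2 : |u.2| ≤ s) : 0 ≤ pz f u - t := by
  linarith [t_le_pz h h1 h2]

theorem wg_nonneg (h : Adm f) {u : ℝ × ℝ} (h1 : |u.1| ≤ s) (h2 : |u.2| ≤ s) :
    0 ≤ - qz f u - t := by
  linarith [qz_le_t h h1 h2]

/-- product bound: for two different directions -/
theorem coupling2 (h : Adm f) {u v : ℝ × ℝ} (h1 : |u.1| ≤ s) (h2 : |u.2| ≤ s)
    (h3 : |v.1| ≤ s) (h4 : |v.2| ≤ s) :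
    2 * (pz f v - t) * (- qz f u - t) ≤ Ap f v (qy f u) + Bq f u (dX f v) := by
  have h1 := dist_all h h1 h2 h3 h4
  have ht : t ^ 2 = 1 / 8 := by
    have h1 := s_sq
    rw [s_eq] at h1; linarith
  unfold Ap Bq
  nlinarith

end Helper14.CW.Geo
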