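import Pool.Agent.Helper14.CW.Chart

/-!
# The support function of a body of constant width is differentiable
-/

namespace Helper14.CW

open Set Metric MeasureTheory Helper80.CW Helper82.CW
open scoped ContDiff Topology RealInnerProductSpace Real

section
variable {K : Set E3}

/-- the gradient of the support function is the support point -/
theorem H0_hasFDerivAt (hK : IsCompact K) (hw : Width1 K) (x0 : E3) {x p : E3} (hx : x ≠ 0)
    (hp : p ∈ K) (hpx : supp K x = ⟪p, x⟫) :
    HasFDerivAt (H0 K x0) (innerSL ℝ (p - x0)) x := by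
  have hne := hw.nonempty
  obtain ⟨p', hp', hp'x⟩ := supp_attained hK hne (-x)
  set φ : E3 → ℝ := fun y => supp K y - ⟪p, y⟫ with hφ
  set ψ : E3 → ℝ := fun y => ‖y‖ + ⟪p' - p, y⟫ with hψ
  have h0 : ∀ y, 0 ≤ φ y := fun y => sub_nonneg.2 (supp_ge hK hne y hp)
  have h1 : ∀ y, φ y ≤ ψ y := by
    intro y
    have a := supp_ge hK hne (-y) hp'
    have b := supp_width hK hw y
    simp only [hφ, hψ]
    rw [inner_neg_right] at a
    rw [inner_sub_left]
    linarith
  have hφx : φ x = 0 := by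
    simp only [hφ]
    rw [hpx, sub_self]
  have hψx : ψ x = 0 := by
    have b := supp_width hK hw x
    rw [inner_neg_right] at hp'x
    simp only [hψ]
    rw [inner_sub_left]
    linarith
  have hψd : DifferentiableAt ℝ ψ x := by
    have a : DifferentiableAt ℝ (fun y : E3 => ‖y‖) x :=
      (contDiffAt_norm ℝ hx).differentiableAt (n := 1) (by simp)
    have b : DifferentiableAt ℝ (fun y : E3 => ⟪p' - p, y⟫) x :=
      (innerSL ℝ (p' - p)).differentiableAt
    exact a.add b
  have hmin : IsLocalMin ψ x := by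
    filter_upwards with y
    rw [hψx]
    exact (h0 y).trans (h1 y)
  have hψ0 : HasFDerivAt ψ (0 : E3 →L[ℝ] ℝ) x := by
    have a := hψd.hasFDerivAt
    rwa [hmin.fderiv_eq_zero] at a
  have hφ0 : HasFDerivAt φ (0 : E3 →L[ℝ] ℝ) x := by
    rw [hasFDerivAt_iff_isLittleO] at hψ0 ⊢
    refine Asymptotics.IsBigO.trans_isLittleO ?_ hψ0
    apply Asymptotics.isBigO_of_le
    intro y
    simp only [ContinuousLinearMap.zero_apply, sub_zero, hφx, hψx]
    rw [Real.norm_of_nonneg (h0 y), Real.norm_of_nonneg ((h0 y).trans (h1 y))]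
    exact h1 y
  have hlin : HasFDerivAt (fun y : E3 => ⟪p - x0, y⟫) (innerSL ℝ (p - x0)) x :=
    (innerSL ℝ (p - x0)).hasFDerivAt
  have hsum := hφ0.add hlin
  have heq : (fun y => φ y + ⟪p - x0, y⟫) = H0 K x0 := by
    ext y
    simp only [hφ, H0]
    rw [inner_sub_left]
    ring
  rw [zero_add] at hsum
  rw [← heq]
  exact hsum

theorem H0_diff (hK : IsCompact K) (hw : Width1 K) (x0 : E3) {x : E3} (hx : x ≠ 0) :
    DifferentiableAt ℝ (H0 K x0) x := by
  obtain ⟨p, hp, hpx⟩ := supp_attained hK hw.nonempty x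
  exact (H0_hasFDerivAt hK hw x0 hx hp hpx).differentiableAt

end

section
variable {H : E3 → ℝ} {R : ℝ}

theorem Supp.neg_eq (h : Supp H R) (x : E3) : H (-x) = ‖x‖ - H x := by
  have := h.width x
  linarith

/-- scaling of the derivative -/
theorem fderiv_scale (h : Supp H R) {r : ℝ} (hr : 0 < r) (x v : E3) :
    fderiv ℝ H (r • x) v = fderiv ℝ H x v := by
  have h1 : H = fun y => r * H (r⁻¹ • y) := by
    ext y
    rw [h.smul r⁻¹ (inv_nonneg.2 hr.le), ← mul_assoc, mul_inv_cancel₀ hr.ne', one_mul]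
  by_cases hd : DifferentiableAt ℝ H x
  · have h2 : HasFDerivAt (fun y : E3 => H (r⁻¹ • y)) (r⁻¹ • fderiv ℝ H x) (r • x) := by
      have a : HasFDerivAt (fun y : E3 => r⁻¹ • y) (r⁻¹ • ContinuousLinearMap.id ℝ E3) (r • x) :=
        (hasFDerivAt_id (r • x)).const_smul r⁻¹
      have b : HasFDerivAt H (fderiv ℝ H x) (r⁻¹ • (r • x)) := by
        rw [smul_smul, inv_mul_cancel₀ hr.ne', one_smul]
        exact hd.hasFDerivAt
      have c := b.comp (r • x) a
      have e1 : (fderiv ℝ H x).comp (r⁻¹ • ContinuousLinearMap.id ℝ E3) = r⁻¹ • fderiv ℝ H x := by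
        ext w
        simp
      rw [e1] at c
      exact c
    have h3 := h2.const_mul r
    rw [smul_smul, mul_inv_cancel₀ hr.ne', one_smul, ← h1] at h3
    rw [h3.fderiv]
  · have hd2 : ¬ DifferentiableAt ℝ H (r • x) := by
      intro hd2
      apply hd
      have h2 : H = fun y => r⁻¹ * H (r • y) := by
        ext y
        rw [h.smul r hr.le, ← mul_assoc, inv_mul_cancel₀ hr.ne', one_mul]
      rw [h2]
      have a : DifferentiableAt ℝ (fun y : E3 => r • y) x := by fun_prop
      exact (DifferentiableAt.comp x hd2 a).const_mul r⁻¹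
    rw [fderiv_zero_of_not_differentiableAt hd, fderiv_zero_of_not_differentiableAt hd2]

theorem Fv_hom0 (h : Supp H R) : Hom 0 (Fv H) := by
  intro r hr x hx
  unfold Fv gr2 pd
  rw [h.smul r hr.le, norm_smul, Real.norm_of_nonneg hr.le]
  have : ‖x‖ ≠ 0 := norm_ne_zero_iff.2 hx
  simp only [fderiv_scale h hr, zpow_zero, one_mul]
  congr 2
  field_simp

theorem Fv_meas (h : Supp H R) : Measurable (Fv H) := by
  unfold Fv gr2 pd
  apply Measurable.sub
  · exact ((h.cont.measurable.pow_const 2).div (measurable_norm.pow_const 2)).const_mul 3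
  · apply Finset.measurable_fun_sum
    intro i _
    exact (measurable_fderiv_apply_const ℝ H (e i)).pow_const 2

theorem gr2_norm (f : E3 → ℝ) (x : E3) {v : E3} (hv : ∀ w, fderiv ℝ f x w = ⟪v, w⟫) :
    gr2 f x = ‖v‖ ^ 2 := by
  unfold gr2 pd
  rw [norm_sq_eq]
  apply Finset.sum_congr rfl
  intro i _
  rw [hv]
  unfold e
  rw [EuclideanSpace.inner_single_right]
  simp

end

section
variable {K : Set E3}

theorem gr2_support (hK : IsCompact K) (hw : Width1 K) (x0 : E3) {x p : E3} (hx : x ≠ 0)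
    (hp : p ∈ K) (hpx : supp K x = ⟪p, x⟫) : gr2 (H0 K x0) x = ‖p - x0‖ ^ 2 := by
  apply gr2_norm
  intro w
  rw [(H0_hasFDerivAt hK hw x0 hx hp hpx).fderiv]
  rfl

theorem Fv_bd (hK : IsCompact K) (hw : Width1 K) {x0 : E3} (hx0 : x0 ∈ K) {x : E3} (hx : x ≠ 0) :
    |Fv (H0 K x0) x| ≤ 4 := by
  obtain ⟨p, hp, hpx⟩ := supp_attained hK hw.nonempty x
  have h1 := gr2_support hK hw x0 hx hp hpx
  have h2 : ‖p - x0‖ ≤ 1 := by
    rw [← dist_eq_norm]
    exact diam_le hK hw p hp x0 hx0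
  have hsub : K ⊆ closedBall x0 1 := by
    intro y hy
    rw [mem_closedBall]
    exact diam_le hK hw y hy x0 hx0
  have hR := H0_supp_ball hK hw le_rfl hsub
  have h3 := hR.bound x
  have h4 := hR.nonneg x
  have hn : 0 < ‖x‖ := norm_pos_iff.2 hx
  have h5 : H0 K x0 x ^ 2 / ‖x‖ ^ 2 ≤ 1 := by
    rw [div_le_one (by positivity)]
    exact pow_le_pow_left₀ h4 (by linarith) 2
  have h6 : 0 ≤ H0 K x0 x ^ 2 / ‖x‖ ^ 2 := by positivity
  have h7 : ‖p - x0‖ ^ 2 ≤ 1 := by
    have := norm_nonneg (p - x0)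
    nlinarith
  have h8 := sq_nonneg ‖p - x0‖
  unfold Fv
  rw [h1, abs_le]
  constructor <;> linarith

/-- the value of the integrand at the antipode -/
theorem Fv_neg (hK : IsCompact K) (hw : Width1 K) (x0 : E3) {x : E3} (hx : x ≠ 0) :
    Fv (H0 K x0) (-x) = Fv (H0 K x0) x + 2 - 4 * (H0 K x0 x / ‖x‖) := by
  have hne := hw.nonempty
  obtain ⟨p, hp, hpx⟩ := supp_attained hK hne x
  obtain ⟨q, hq, hqx⟩ := supp_attained hK hne (-x)
  have h1 := gr2_support hK hw x0 hx hp hpx
  have h2 := gr2_support hK hw x0 (neg_ne_zero.2 hx) hq hqx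
  have hn : 0 < ‖x‖ := norm_pos_iff.2 hx
  -- gradients: q - x0 = p - x0 - x/|x|
  have hd : HasFDerivAt (fun y => ‖y‖ - H0 K x0 (-y))
      (innerSL ℝ (‖x‖⁻¹ • x) - (innerSL ℝ (q - x0)).comp (-(ContinuousLinearMap.id ℝ E3))) x := by
    have a : HasFDerivAt (fun y : E3 => ‖y‖) (innerSL ℝ (‖x‖⁻¹ • x)) x := by
      have hdn : DifferentiableAt ℝ (fun y : E3 => ‖y‖) x :=
        (contDiffAt_norm ℝ hx).differentiableAt (n := 1) (by simp)
      have b := hdn.hasFDerivAt
      have c : fderiv ℝ (fun y : E3 => ‖y‖) x = innerSL ℝ (‖x‖⁻¹ • x) := by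
        ext w
        rw [fderiv_eq_sum (f := fun y : E3 => ‖y‖) x w]
        simp only [pd_norm _ hx]
        show _ = ⟪‖x‖⁻¹ • x, w⟫
        rw [real_inner_smul_left, PiLp.inner_apply, Finset.mul_sum]
        apply Finset.sum_congr rfl
        intro i _
        simp
        ring
      rwa [c] at b
    have b := H0_hasFDerivAt hK hw x0 (neg_ne_zero.2 hx) hq hqx
    have c : HasFDerivAt (fun y : E3 => -y) (-(ContinuousLinearMap.id ℝ E3)) x :=
      (hasFDerivAt_id x).neg
    exact a.sub (b.comp x c)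
  have heq : (fun y => ‖y‖ - H0 K x0 (-y)) = H0 K x0 := by
    ext y
    have := supp_width hK hw y
    unfold H0
    rw [inner_neg_right]
    linarith
  rw [heq] at hd
  have huniq := hd.unique (H0_hasFDerivAt hK hw x0 hx hp hpx)
  have hv : p - x0 = ‖x‖⁻¹ • x + (q - x0) := by
    apply ext_inner_right ℝ
    intro w
    have := congrArg (fun L : E3 →L[ℝ] ℝ => L w) huniq
    simp only [ContinuousLinearMap.sub_apply, ContinuousLinearMap.comp_apply,
      ContinuousLinearMap.neg_apply, ContinuousLinearMap.id_apply] at this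
    have e1 : (innerSL ℝ (‖x‖⁻¹ • x)) w = ⟪‖x‖⁻¹ • x, w⟫ := rfl
    have e2 : (innerSL ℝ (q - x0)) (-w) = -⟪q - x0, w⟫ := by
      rw [map_neg]
      rfl
    have e3 : (innerSL ℝ (p - x0)) w = ⟪p - x0, w⟫ := rfl
    rw [e1, e2, e3] at this
    rw [inner_add_left]
    linarith
  have hH : H0 K x0 (-x) = ‖x‖ - H0 K x0 x := by
    have := supp_width hK hw x
    unfold H0
    rw [inner_neg_right]
    linarith
  have hpin : ⟪p - x0, x⟫ = H0 K x0 x := by
    unfold H0
    rw [hpx, inner_sub_left]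
  have hq2 : ‖q - x0‖ ^ 2 = ‖p - x0‖ ^ 2 - 2 * (H0 K x0 x / ‖x‖) + 1 := by
    have e : q - x0 = (p - x0) - ‖x‖⁻¹ • x := by
      rw [hv]
      abel
    rw [e, norm_sub_sq_real, real_inner_smul_right, hpin, norm_smul, norm_inv, norm_norm,
      inv_mul_cancel₀ hn.ne']
    field_simp
  unfold Fv
  rw [h1, h2, hH, norm_neg, hq2]
  field_simp
  ring

end

end Helper14.CW
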