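import Mathlib

/-! Jung's theorem in dimension three. -/

set_option autoImplicit false

namespace Helper82.CW

open Finset

/-- Jung for a finite family: the centre given by the maximiser of a quadratic form on the
simplex -/
theorem jung_fin {E : Type*} [NormedAddCommGroup E] [InnerProductSpace ℝ E]
    {κ : Type*} [Fintype κ] [DecidableEq κ] [Nonempty κ] (p : κ → E)
    (hp : ∀ i j, dist (p i) (p j) ≤ 1) :
    ∃ c : E, ∀ i, dist c (p i) ≤ Real.sqrt ((1 - 1 / (Fintype.card κ : ℝ)) / 2) := by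
  classical
  let F : (κ → ℝ) → ℝ := fun l => (∑ i, ∑ j, l i * l j * ‖p i - p j‖ ^ 2) / 2
  have hFc : Continuous F := by
    refine Continuous.div_const ?_ 2
    refine continuous_finset_sum _ (fun i _ => continuous_finset_sum _ (fun j _ => ?_))
    exact ((continuous_apply i).mul (continuous_apply j)).mul continuous_const
  have hne : (stdSimplex ℝ κ).Nonempty :=
    ⟨Pi.single (Classical.arbitrary κ) 1, single_mem_stdSimplex ℝ _⟩
  obtain ⟨l, hl, hmax⟩ := (isCompact_stdSimplex ℝ κ).exists_isMaxOn hne hFc.continuousOn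
  have hl0 : ∀ i, 0 ≤ l i := hl.1
  have hl1 : ∑ i, l i = 1 := hl.2
  set c : E := ∑ j, l j • p j with hc
  let q : κ → ℝ := fun i => ∑ j, l j * ‖p i - p j‖ ^ 2
  have hsum0 : ∑ j, l j • (p j - c) = 0 := by
    simp only [smul_sub, Finset.sum_sub_distrib, ← Finset.sum_smul, hl1, one_smul]
    rw [← hc, sub_self]
  set V : ℝ := ∑ j, l j * ‖p j - c‖ ^ 2 with hV
  have hq : ∀ i, q i = ‖p i - c‖ ^ 2 + V := by
    intro i
    have h1 : ∀ j, l j * ‖p i - p j‖ ^ 2 = l j * ‖p i - c‖ ^ 2 + l j * ‖p j - c‖ ^ 2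
        - 2 * inner ℝ (p i - c) (l j • (p j - c)) := by
      intro j
      have h2 : p i - p j = (p i - c) - (p j - c) := by abel
      rw [h2, norm_sub_sq_real, inner_smul_right]
      ring
    show ∑ j, l j * ‖p i - p j‖ ^ 2 = _
    rw [Finset.sum_congr rfl (fun j _ => h1 j), Finset.sum_sub_distrib, Finset.sum_add_distrib,
      ← Finset.sum_mul, hl1, one_mul, ← Finset.mul_sum, ← inner_sum, hsum0, inner_zero_right,
      mul_zero, sub_zero]
  have hF2 : F l = (∑ i, l i * q i) / 2 := by
    show (∑ i, ∑ j, l i * l j * ‖p i - p j‖ ^ 2) / 2 = _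
    congr 1
    refine Finset.sum_congr rfl (fun i _ => ?_)
    show _ = l i * ∑ j, l j * ‖p i - p j‖ ^ 2
    rw [Finset.mul_sum]
    exact Finset.sum_congr rfl (fun j _ => by ring)
  have hFV : F l = V := by
    rw [hF2]
    have : ∑ i, l i * q i = V + V := by
      rw [Finset.sum_congr rfl (fun i _ => by rw [hq i, mul_add]), Finset.sum_add_distrib,
        ← Finset.sum_mul, hl1, one_mul]
    rw [this]; ring
  have hV0 : 0 ≤ V := Finset.sum_nonneg (fun j _ => mul_nonneg (hl0 j) (by positivity))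
  -- first order condition
  have hfo : ∀ i, q i ≤ 2 * V := by
    intro i
    by_contra hcon
    push Not at hcon
    have hd : 0 < q i - V := by linarith
    set t : ℝ := (q i - 2 * V) / (2 * (q i - V)) with ht
    have ht0 : 0 < t := div_pos (by linarith) (by linarith)
    have ht1 : t ≤ 1 := by
      rw [ht, div_le_one (by linarith)]; linarith
    have htm : t * (q i - V) = (q i - 2 * V) / 2 := by
      rw [ht]; field_simp
    let l' : κ → ℝ := fun j => (1 - t) * l j + t * (Pi.single i (1 : ℝ) : κ → ℝ) j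
    have hl' : l' ∈ stdSimplex ℝ κ := by
      have h := (convex_stdSimplex ℝ κ) hl (single_mem_stdSimplex ℝ i) (by linarith : 0 ≤ 1 - t)
        ht0.le (by ring)
      exact h
    have h3 : F l' ≤ F l := hmax hl'
    have h4 : F l' = (1 - t) ^ 2 * V + t * (1 - t) * q i := by
      have e1 : ∀ a b, l' a * l' b * ‖p a - p b‖ ^ 2 =
          (1 - t) ^ 2 * (l a * l b * ‖p a - p b‖ ^ 2) +
          t * (1 - t) * ((Pi.single i (1 : ℝ) : κ → ℝ) a * (l b * ‖p a - p b‖ ^ 2)) +
          t * (1 - t) * (l a * ((Pi.single i (1 : ℝ) : κ → ℝ) b * ‖p a - p b‖ ^ 2)) +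
          t ^ 2 * ((Pi.single i (1 : ℝ) : κ → ℝ) a *
            ((Pi.single i (1 : ℝ) : κ → ℝ) b * ‖p a - p b‖ ^ 2)) := by
        intro a b
        show ((1 - t) * l a + t * (Pi.single i (1 : ℝ) : κ → ℝ) a) *
          ((1 - t) * l b + t * (Pi.single i (1 : ℝ) : κ → ℝ) b) * ‖p a - p b‖ ^ 2 = _
        ring
      have s1 : ∑ a, ∑ b, l a * l b * ‖p a - p b‖ ^ 2 = 2 * V := by
        have : F l = (∑ a, ∑ b, l a * l b * ‖p a - p b‖ ^ 2) / 2 := rfl
        linarith
      have s2 : ∑ a, ∑ b, (Pi.single i (1 : ℝ) : κ → ℝ) a * (l b * ‖p a - p b‖ ^ 2) = q i := by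
        rw [Finset.sum_eq_single i]
        · simp only [Pi.single_eq_same, one_mul]; rfl
        · intro b _ hb
          simp [Pi.single_eq_of_ne hb]
        · intro h; exact absurd (Finset.mem_univ i) h
      have s3 : ∑ a, ∑ b, l a * ((Pi.single i (1 : ℝ) : κ → ℝ) b * ‖p a - p b‖ ^ 2) = q i := by
        show _ = ∑ a, l a * ‖p i - p a‖ ^ 2
        refine Finset.sum_congr rfl (fun a _ => ?_)
        rw [Finset.sum_eq_single i]
        · rw [Pi.single_eq_same, one_mul, norm_sub_rev]
        · intro b _ hb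
          simp [Pi.single_eq_of_ne hb]
        · intro h; exact absurd (Finset.mem_univ i) h
      have s4 : ∑ a, ∑ b, (Pi.single i (1 : ℝ) : κ → ℝ) a *
            ((Pi.single i (1 : ℝ) : κ → ℝ) b * ‖p a - p b‖ ^ 2) = 0 := by
        refine Finset.sum_eq_zero (fun a _ => Finset.sum_eq_zero (fun b _ => ?_))
        by_cases ha : a = i
        · by_cases hb : b = i
          · rw [ha, hb, sub_self, norm_zero]; ring
          · rw [Pi.single_eq_of_ne hb]; ring
        · rw [Pi.single_eq_of_ne ha]; ring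
      show (∑ a, ∑ b, l' a * l' b * ‖p a - p b‖ ^ 2) / 2 = _
      rw [Finset.sum_congr rfl (fun a _ => Finset.sum_congr rfl (fun b _ => e1 a b))]
      simp only [Finset.sum_add_distrib, ← Finset.mul_sum]
      rw [s1]
      have s2' : ∑ a, (Pi.single i (1 : ℝ) : κ → ℝ) a * ∑ b, l b * ‖p a - p b‖ ^ 2 = q i := by
        rw [← s2]
        exact Finset.sum_congr rfl (fun a _ => by rw [Finset.mul_sum])
      have s3' : ∑ a, l a * ∑ b, (Pi.single i (1 : ℝ) : κ → ℝ) b * ‖p a - p b‖ ^ 2 = q i := by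
        rw [← s3]
        exact Finset.sum_congr rfl (fun a _ => by rw [Finset.mul_sum])
      have s4' : ∑ a, (Pi.single i (1 : ℝ) : κ → ℝ) a *
            ∑ b, (Pi.single i (1 : ℝ) : κ → ℝ) b * ‖p a - p b‖ ^ 2 = 0 := by
        rw [← s4]
        exact Finset.sum_congr rfl (fun a _ => by rw [Finset.mul_sum])
      rw [s2', s3', s4']
      ring
    rw [hFV, h4] at h3
    have h5 : t * (q i - 2 * V - t * (q i - V)) ≤ 0 := by nlinarith
    have h6 : q i - 2 * V - t * (q i - V) = (q i - 2 * V) / 2 := by rw [htm]; ring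
    rw [h6] at h5
    have h7 : 0 < t * ((q i - 2 * V) / 2) := mul_pos ht0 (by linarith)
    linarith
  -- the bound for V
  have hcard : (0 : ℝ) < Fintype.card κ := by exact_mod_cast Fintype.card_pos
  have hVb : V ≤ (1 - 1 / (Fintype.card κ : ℝ)) / 2 := by
    have h1 : ∑ i, ∑ j, l i * l j * ‖p i - p j‖ ^ 2 ≤ 1 - ∑ i, l i ^ 2 := by
      have h2 : ∑ i, ∑ j, l i * l j = 1 := by
        simp only [← Finset.mul_sum, hl1, mul_one]
      have h3 : ∑ i, l i ^ 2 = ∑ i, ∑ j, if i = j then l i * l j else 0 := by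
        refine Finset.sum_congr rfl (fun i _ => ?_)
        rw [Finset.sum_ite_eq]
        simp [pow_two]
      rw [← h2, h3, ← Finset.sum_sub_distrib]
      refine Finset.sum_le_sum (fun i _ => ?_)
      rw [← Finset.sum_sub_distrib]
      refine Finset.sum_le_sum (fun j _ => ?_)
      have hll : 0 ≤ l i * l j := mul_nonneg (hl0 i) (hl0 j)
      by_cases hij : i = j
      · rw [if_pos hij, hij, sub_self, norm_zero]; simp
      · rw [if_neg hij, sub_zero]
        have h4 : ‖p i - p j‖ ^ 2 ≤ 1 := by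
          have := hp i j
          rw [dist_eq_norm] at this
          have h5 := norm_nonneg (p i - p j)
          nlinarith
        nlinarith
    have h6 : (1 : ℝ) ≤ Fintype.card κ * ∑ i, l i ^ 2 := by
      have h8 := sq_sum_le_card_mul_sum_sq (s := (Finset.univ : Finset κ)) (f := l)
      rw [hl1, one_pow, Finset.card_univ] at h8
      exact h8
    have h9 : 1 / (Fintype.card κ : ℝ) ≤ ∑ i, l i ^ 2 := by
      rw [div_le_iff₀ hcard]; linarith
    have h10 : F l = (∑ i, ∑ j, l i * l j * ‖p i - p j‖ ^ 2) / 2 := rfl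
    rw [← hFV, h10]
    linarith
  refine ⟨c, fun i => ?_⟩
  rw [dist_comm, dist_eq_norm]
  apply Real.le_sqrt_of_sq_le
  have h1 := hq i
  have h2 := hfo i
  linarith

/-- **Jung's theorem** in dimension three -/
theorem jung3 (K : Set (EuclideanSpace ℝ (Fin 3))) (hK : IsCompact K) (hne : K.Nonempty)
    (hd : ∀ x ∈ K, ∀ y ∈ K, dist x y ≤ 1) :
    ∃ x0, K ⊆ Metric.closedBall x0 (Real.sqrt (3 / 8)) := by
  classical
  have h := Convex.helly_theorem_compact' (𝕜 := ℝ) (E := EuclideanSpace ℝ (Fin 3))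
    (F := fun x : K => Metric.closedBall (x : EuclideanSpace ℝ (Fin 3)) (Real.sqrt (3 / 8)))
    (fun x => convex_closedBall _ _) (fun x => isCompact_closedBall _ _) (by
      intro I hI
      have hfr : Module.finrank ℝ (EuclideanSpace ℝ (Fin 3)) = 3 := by simp
      rw [hfr] at hI
      rcases I.eq_empty_or_nonempty with he | hIne
      · rw [he]; simp
      · haveI : Nonempty I := hIne.to_subtype
        obtain ⟨c, hc⟩ := jung_fin (κ := I) (fun i => ((i : K) : EuclideanSpace ℝ (Fin 3)))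
          (fun i j => hd _ (i : K).2 _ (j : K).2)
        refine ⟨c, ?_⟩
        rw [Set.mem_iInter₂]
        intro i hi
        rw [Metric.mem_closedBall]
        refine le_trans (hc ⟨i, hi⟩) (Real.sqrt_le_sqrt ?_)
        have h1 : (Fintype.card I : ℝ) ≤ 4 := by
          rw [Fintype.card_coe]
          exact_mod_cast hI
        have h2 : (0 : ℝ) < Fintype.card I := by exact_mod_cast Fintype.card_pos
        have h3 : 1 / (4 : ℝ) ≤ 1 / (Fintype.card I : ℝ) := one_div_le_one_div_of_le h2 h1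
        linarith)
  obtain ⟨c, hc⟩ := h
  refine ⟨c, fun x hx => ?_⟩
  rw [Set.mem_iInter] at hc
  have := hc ⟨x, hx⟩
  rw [Metric.mem_closedBall] at this ⊢
  rw [dist_comm]
  exact this

end Helper82.CW
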