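import Pool.Agent.Helper14.CW.Grad

/-!
# Bodies of constant width containing a regular tetrahedron: frames and sign patterns
-/

namespace Helper14.CW

open Set Metric MeasureTheory Helper80.CW Helper82.CW
open scoped ContDiff Topology RealInnerProductSpace Real

/-- four vectors with the Gram matrix of the vertices of the regular tetrahedron of edge `1` -/
structure Gram4 (v : Fin 4 → E3) : Prop where
  sum : v 0 + v 1 + v 2 + v 3 = 0
  diag : ∀ i, ⟪v i, v i⟫ = (3 / 8 : ℝ)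
  off : ∀ i j, i ≠ j → ⟪v i, v j⟫ = (-1 / 8 : ℝ)

/-- the centroid -/
noncomputable def cen (a : Fin 4 → E3) : E3 := (1 / 4 : ℝ) • (a 0 + a 1 + a 2 + a 3)

/-- the vertices relative to the centroid -/
noncomputable def al (a : Fin 4 → E3) (i : Fin 4) : E3 := a i - cen a

theorem gram_of_dist {a : Fin 4 → E3} (h : ∀ i j, i ≠ j → dist (a i) (a j) = 1) :
    Gram4 (al a) := by
  have hs : al a 0 + al a 1 + al a 2 + al a 3 = 0 := by
    unfold al cen
    module
  have dd : ∀ i j, i ≠ j → ⟪al a i, al a i⟫ - 2 * ⟪al a i, al a j⟫ + ⟪al a j, al a j⟫ = (1 : ℝ) := by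
    intro i j hij
    have h1 := h i j hij
    rw [dist_eq_norm] at h1
    have h2 : a i - a j = al a i - al a j := by
      unfold al
      abel
    have h3 := norm_sub_sq_real (al a i) (al a j)
    rw [← h2, h1] at h3
    rw [real_inner_self_eq_norm_sq, real_inner_self_eq_norm_sq]
    linarith
  have s4 : ∀ i, ⟪al a i, al a 0⟫ + ⟪al a i, al a 1⟫ + ⟪al a i, al a 2⟫ + ⟪al a i, al a 3⟫ =
      (0 : ℝ) := by
    intro i
    rw [← inner_add_right, ← inner_add_right, ← inner_add_right, hs, inner_zero_right]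
  have c10 := real_inner_comm (al a 1) (al a 0)
  have c20 := real_inner_comm (al a 2) (al a 0)
  have c30 := real_inner_comm (al a 3) (al a 0)
  have c21 := real_inner_comm (al a 2) (al a 1)
  have c31 := real_inner_comm (al a 3) (al a 1)
  have c32 := real_inner_comm (al a 3) (al a 2)
  have e0 := s4 0
  have e1 := s4 1
  have e2 := s4 2
  have e3 := s4 3
  have d01 := dd 0 1 (by decide)
  have d02 := dd 0 2 (by decide)
  have d03 := dd 0 3 (by decide)
  have d12 := dd 1 2 (by decide)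
  have d13 := dd 1 3 (by decide)
  have d23 := dd 2 3 (by decide)
  have hdiag : ∀ i, ⟪al a i, al a i⟫ = (3 / 8 : ℝ) := by
    intro i
    fin_cases i
    · show ⟪al a 0, al a 0⟫ = (3 / 8 : ℝ)
      linarith
    · show ⟪al a 1, al a 1⟫ = (3 / 8 : ℝ)
      linarith
    · show ⟪al a 2, al a 2⟫ = (3 / 8 : ℝ)
      linarith
    · show ⟪al a 3, al a 3⟫ = (3 / 8 : ℝ)
      linarith
  refine ⟨hs, hdiag, ?_⟩
  intro i j hij
  have := dd i j hij
  rw [hdiag i, hdiag j] at this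
  linarith

section
variable {v : Fin 4 → E3}

theorem Gram4.perm (h : Gram4 v) (σ : Equiv.Perm (Fin 4)) : Gram4 (fun i => v (σ i)) := by
  refine ⟨?_, fun i => h.diag _, fun i j hij => h.off _ _ (fun h' => hij (σ.injective h'))⟩
  have h1 : ∑ i, v (σ i) = ∑ i, v i := Equiv.sum_comp σ v
  rw [Fin.sum_univ_four, Fin.sum_univ_four] at h1
  rw [h1]
  exact h.sum

theorem Gram4.frame (h : Gram4 v) : ∃ b : OrthonormalBasis (Fin 3) ℝ E3,
    b 0 = v 0 - v 1 ∧ b 1 = v 2 - v 3 ∧ b 2 = Real.sqrt 2 • (v 0 + v 1) := by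
  set w : Fin 3 → E3 := ![v 0 - v 1, v 2 - v 3, Real.sqrt 2 • (v 0 + v 1)] with hw
  have s2 : Real.sqrt 2 * Real.sqrt 2 = 2 := Real.mul_self_sqrt (by norm_num)
  have o := h.off
  have d := h.diag
  have hon : Orthonormal ℝ w := by
    rw [orthonormal_iff_ite]
    intro i j
    have o01 := o 0 1 (by decide)
    have o02 := o 0 2 (by decide)
    have o03 := o 0 3 (by decide)
    have o12 := o 1 2 (by decide)
    have o13 := o 1 3 (by decide)
    have o23 := o 2 3 (by decide)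
    have o10 := o 1 0 (by decide)
    have o20 := o 2 0 (by decide)
    have o30 := o 3 0 (by decide)
    have o21 := o 2 1 (by decide)
    have o31 := o 3 1 (by decide)
    have o32 := o 3 2 (by decide)
    have q00 : ⟪v 0 - v 1, v 0 - v 1⟫ = (1 : ℝ) := by
      simp only [inner_sub_left, inner_sub_right, d, o01, o10]
      norm_num
    have q11 : ⟪v 2 - v 3, v 2 - v 3⟫ = (1 : ℝ) := by
      simp only [inner_sub_left, inner_sub_right, d, o23, o32]
      norm_num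
    have q22 : ⟪Real.sqrt 2 • (v 0 + v 1), Real.sqrt 2 • (v 0 + v 1)⟫ = (1 : ℝ) := by
      simp only [real_inner_smul_left, real_inner_smul_right, inner_add_left, inner_add_right, d,
        o01, o10]
      linear_combination (1 / 2) * s2
    have q01 : ⟪v 0 - v 1, v 2 - v 3⟫ = (0 : ℝ) := by
      simp only [inner_sub_left, inner_sub_right, o02, o03, o12, o13]
      norm_num
    have q02 : ⟪v 0 - v 1, Real.sqrt 2 • (v 0 + v 1)⟫ = (0 : ℝ) := by
      simp only [real_inner_smul_right, inner_sub_left, inner_add_right, d, o01, o10]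
      norm_num
    have q12 : ⟪v 2 - v 3, Real.sqrt 2 • (v 0 + v 1)⟫ = (0 : ℝ) := by
      simp only [real_inner_smul_right, inner_sub_left, inner_add_right, o20, o21, o30, o31]
      norm_num
    have q10 : ⟪v 2 - v 3, v 0 - v 1⟫ = (0 : ℝ) := by rw [real_inner_comm]; exact q01
    have q20 : ⟪Real.sqrt 2 • (v 0 + v 1), v 0 - v 1⟫ = (0 : ℝ) := by
      rw [real_inner_comm]; exact q02
    have q21 : ⟪Real.sqrt 2 • (v 0 + v 1), v 2 - v 3⟫ = (0 : ℝ) := by
      rw [real_inner_comm]; exact q12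
    fin_cases i <;> fin_cases j
    · exact q00.trans (if_pos rfl).symm
    · exact q01.trans (if_neg (by decide)).symm
    · exact q02.trans (if_neg (by decide)).symm
    · exact q10.trans (if_neg (by decide)).symm
    · exact q11.trans (if_pos rfl).symm
    · exact q12.trans (if_neg (by decide)).symm
    · exact q20.trans (if_neg (by decide)).symm
    · exact q21.trans (if_neg (by decide)).symm
    · exact q22.trans (if_pos rfl).symm
  obtain ⟨b, hb⟩ := Orthonormal.exists_orthonormalBasis_extension_of_card_eq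
    (𝕜 := ℝ) (E := E3) (ι := Fin 3) (by simp) (v := w) (s := univ)
    (hon.comp _ Subtype.val_injective)
  exact ⟨b, hb 0 (mem_univ _), hb 1 (mem_univ _), hb 2 (mem_univ _)⟩

/-- the inner products with the vertices in terms of the frame -/
theorem frame_inner (h : Gram4 v) {b : OrthonormalBasis (Fin 3) ℝ E3} (h0 : b 0 = v 0 - v 1)
    (h1 : b 1 = v 2 - v 3) (h2 : b 2 = Real.sqrt 2 • (v 0 + v 1)) (x : E3) :
    ⟪v 0, x⟫ = 1 / 2 * ⟪b 0, x⟫ + Real.sqrt 2 / 4 * ⟪b 2, x⟫ ∧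
    ⟪v 1, x⟫ = -(1 / 2) * ⟪b 0, x⟫ + Real.sqrt 2 / 4 * ⟪b 2, x⟫ ∧
    ⟪v 2, x⟫ = 1 / 2 * ⟪b 1, x⟫ - Real.sqrt 2 / 4 * ⟪b 2, x⟫ ∧
    ⟪v 3, x⟫ = -(1 / 2) * ⟪b 1, x⟫ - Real.sqrt 2 / 4 * ⟪b 2, x⟫ := by
  have s2 : Real.sqrt 2 * Real.sqrt 2 = 2 := Real.mul_self_sqrt (by norm_num)
  have hs : ⟪v 0, x⟫ + ⟪v 1, x⟫ + ⟪v 2, x⟫ + ⟪v 3, x⟫ = (0 : ℝ) := by
    rw [← inner_add_left, ← inner_add_left, ← inner_add_left, h.sum, inner_zero_left]
  rw [h0, h1, h2, inner_sub_left, inner_sub_left, real_inner_smul_left, inner_add_left]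
  refine ⟨?_, ?_, ?_, ?_⟩
  · linear_combination (-(⟪v 0, x⟫ + ⟪v 1, x⟫) / 4) * s2
  · linear_combination (-(⟪v 0, x⟫ + ⟪v 1, x⟫) / 4) * s2
  · linear_combination ((⟪v 0, x⟫ + ⟪v 1, x⟫) / 4) * s2 + (1 / 2) * hs
  · linear_combination ((⟪v 0, x⟫ + ⟪v 1, x⟫) / 4) * s2 + (1 / 2) * hs

/-- tight frame identity -/
theorem Gram4.tight (h : Gram4 v) (x : E3) :
    x = (2 * ⟪v 0, x⟫) • v 0 + (2 * ⟪v 1, x⟫) • v 1 + (2 * ⟪v 2, x⟫) • v 2 +
      (2 * ⟪v 3, x⟫) • v 3 := by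
  obtain ⟨b, h0, h1, h2⟩ := h.frame
  have s2 : Real.sqrt 2 * Real.sqrt 2 = 2 := Real.mul_self_sqrt (by norm_num)
  have hx := b.sum_repr' x
  rw [Fin.sum_univ_three] at hx
  have hv3 : v 3 = -(v 0 + v 1 + v 2) := by
    have := h.sum
    rw [eq_neg_iff_add_eq_zero]
    rw [← this]
    abel
  have hs : ⟪v 0, x⟫ + ⟪v 1, x⟫ + ⟪v 2, x⟫ + ⟪v 3, x⟫ = (0 : ℝ) := by
    rw [← inner_add_left, ← inner_add_left, ← inner_add_left, h.sum, inner_zero_left]
  set y0 : ℝ := ⟪v 0, x⟫ with hy0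
  set y1 : ℝ := ⟪v 1, x⟫ with hy1
  set y2 : ℝ := ⟪v 2, x⟫ with hy2
  set y3 : ℝ := ⟪v 3, x⟫ with hy3
  have a0 : ⟪b 0, x⟫ = y0 - y1 := by rw [h0, inner_sub_left]
  have a1 : ⟪b 1, x⟫ = y2 - y3 := by rw [h1, inner_sub_left]
  have a2 : ⟪b 2, x⟫ = Real.sqrt 2 * (y0 + y1) := by
    rw [h2, real_inner_smul_left, inner_add_left]
  have hx2 : x = (y0 - y1) • (v 0 - v 1) + (y2 - y3) • (v 2 - v 3) +
      (2 * (y0 + y1)) • (v 0 + v 1) := by
    rw [a0, a1, a2, h0, h1, h2, smul_smul] at hx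
    rw [show Real.sqrt 2 * (y0 + y1) * Real.sqrt 2 = 2 * (y0 + y1) by
      linear_combination (y0 + y1) * s2] at hx
    exact hx.symm
  have hy3' : y3 = -(y0 + y1 + y2) := by linarith
  conv_lhs => rw [hx2]
  rw [hv3, hy3']
  module

end

section
variable {K : Set E3} {v : Fin 4 → E3} {x0 : E3}

theorem H0_ge (hK : IsCompact K) (hw : Width1 K) (x0 : E3) {p : E3} (hp : x0 + p ∈ K) (x : E3) :
    ⟪p, x⟫ ≤ H0 K x0 x := by
  have := supp_ge hK hw.nonempty x hp
  rw [inner_add_left] at this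
  unfold H0
  linarith

theorem H0_width (hK : IsCompact K) (hw : Width1 K) (x0 x : E3) :
    H0 K x0 (-x) = ‖x‖ - H0 K x0 x := by
  have := supp_width hK hw x
  unfold H0
  rw [inner_neg_right]
  linarith

theorem H0_le (hK : IsCompact K) (hw : Width1 K) (x0 : E3) {p : E3} (hp : x0 + p ∈ K) (x : E3) :
    H0 K x0 x ≤ ‖x‖ + ⟪p, x⟫ := by
  have h1 := H0_ge hK hw x0 hp (-x)
  rw [H0_width hK hw, inner_neg_right] at h1
  linarith

/-- on the cone of directions of a vertex the support function is linear -/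
theorem H0_tri (hK : IsCompact K) (hw : Width1 K) (hR : Supp (H0 K x0) 1) (h : Gram4 v)
    (hv : ∀ i, x0 + v i ∈ K) {x : E3} (h1 : ⟪v 1, x⟫ ≤ 0) (h2 : ⟪v 2, x⟫ ≤ 0)
    (h3 : ⟪v 3, x⟫ ≤ 0) : H0 K x0 x = ⟪v 0, x⟫ := by
  apply le_antisymm _ (H0_ge hK hw x0 (hv 0) x)
  have hedge : ∀ k, k ≠ 0 → H0 K x0 (v 0 - v k) = 1 / 2 := by
    intro k hk
    have a := H0_ge hK hw x0 (hv 0) (v 0 - v k)
    have b := H0_ge hK hw x0 (hv k) (-(v 0 - v k))
    rw [H0_width hK hw] at b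
    have n1 : ‖v 0 - v k‖ = 1 := by
      have h5 : ‖v 0 - v k‖ ^ 2 = 1 ^ 2 := by
        rw [← real_inner_self_eq_norm_sq, inner_sub_left, inner_sub_right, inner_sub_right,
          h.diag, h.diag, h.off 0 k (Ne.symm hk), h.off k 0 hk]
        norm_num
      exact (pow_left_inj₀ (norm_nonneg _) (by norm_num) (by norm_num)).1 h5
    rw [inner_sub_right, h.diag, h.off 0 k (Ne.symm hk)] at a
    rw [inner_neg_right, inner_sub_right, h.diag, h.off k 0 hk, n1] at b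
    linarith
  have ht := h.tight x
  have hs : ⟪v 0, x⟫ + ⟪v 1, x⟫ + ⟪v 2, x⟫ + ⟪v 3, x⟫ = (0 : ℝ) := by
    rw [← inner_add_left, ← inner_add_left, ← inner_add_left, h.sum, inner_zero_left]
  set y0 : ℝ := ⟪v 0, x⟫ with hy0
  set y1 : ℝ := ⟪v 1, x⟫ with hy1
  set y2 : ℝ := ⟪v 2, x⟫ with hy2
  set y3 : ℝ := ⟪v 3, x⟫ with hy3
  have hx : x = (-2 * y1) • (v 0 - v 1) + ((-2 * y2) • (v 0 - v 2) + (-2 * y3) • (v 0 - v 3)) := by
    conv_lhs => rw [ht]
    rw [show y0 = -(y1 + y2 + y3) by linarith]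
    module
  have k1 := hR.sub ((-2 * y1) • (v 0 - v 1)) ((-2 * y2) • (v 0 - v 2) + (-2 * y3) • (v 0 - v 3))
  have k2 := hR.sub ((-2 * y2) • (v 0 - v 2)) ((-2 * y3) • (v 0 - v 3))
  rw [← hx] at k1
  rw [hR.smul (-2 * y1) (by linarith), hedge 1 (by decide)] at k1
  rw [hR.smul (-2 * y2) (by linarith), hR.smul (-2 * y3) (by linarith), hedge 2 (by decide),
    hedge 3 (by decide)] at k2
  linarith

end

end Helper14.CW
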