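import Pool.Agent.Helper82.CW.Fin

/-!
# A first order formula for the volume of bodies of constant width

If `K` has constant width `1`, `x0 ∈ K` and `H x = supp K x - ⟪x0, x⟫`, then
`vol K ≥ (3/4) ∫_B (3 H² / |x|² - |∇H|²) - π/3`, `B` the unit ball.
-/

namespace Helper14.CW

open Set Metric MeasureTheory Helper80.CW Helper82.CW
open scoped ContDiff Topology RealInnerProductSpace Real

/-- the integrand of the volume formula -/
noncomputable def Fv (f : E3 → ℝ) (x : E3) : ℝ := 3 * (f x ^ 2 / ‖x‖ ^ 2) - gr2 f x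

section smooth
variable {f : E3 → ℝ} {c : ℝ}

theorem SI_f (h : SSup f c) : SI f = 2 * π * c := by
  have h1 : SI (oddpart f c) = 0 := SI_odd h.oddpart_hom h.oddpart_odd
  have h2 : SI f = SI (fun x => oddpart f c x + c / 2 * 1) := by
    apply SI_congr
    intro x hx
    unfold oddpart
    rw [hx]
    ring
  rw [h2, SI_add h.oddpart_sm (Sm.const _), h1, SI_const_mul, SI_one]
  ring

/-- the volume integral for a smooth support function -/
theorem vol_smooth_id (h : SSup f c) :
    SI (fun x => f x * (lap f x ^ 2 - hs2 f x)) =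
      3 * c / 2 * (3 * SI (fun x => f x ^ 2) - SI (gr2 f)) - 2 * π * c ^ 3 := by
  have hs := h.oddpart_sm
  have hh := h.oddpart_hom
  rw [vol_id h, SI_sub (hs.lap.pow 2) hs.hs2, energy_id hs hh]
  have h1 := J1 hs hh
  have h2 : SI (fun x => oddpart f c x ^ 2) =
      SI (fun x => f x ^ 2) - c * SI f + c ^ 2 / 4 * (4 * π) := by
    have e : SI (fun x => oddpart f c x ^ 2) =
        SI (fun x => (f x ^ 2 - c * f x) + c ^ 2 / 4) := by
      apply SI_congr
      intro x hx
      unfold oddpart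
      rw [hx]
      ring
    rw [e, SI_add ((h.sm.pow 2).sub ((Sm.const _).mul h.sm)) (Sm.const _),
      SI_sub (h.sm.pow 2) ((Sm.const _).mul h.sm), SI_const_mul, SI_const]
  have h3 : SI (gr2 (oddpart f c)) = SI (gr2 f) - c * SI f + c ^ 2 / 4 * (4 * π) := by
    have e : SI (gr2 (oddpart f c)) = SI (fun x => (gr2 f x - c * f x) + c ^ 2 / 4) := by
      apply SI_congr
      intro x hx
      have := oddpart_gr2 h hx
      have e2 : oddpart f c x = f x - c / 2 := by
        unfold oddpart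
        rw [hx]
        ring
      rw [e2] at this
      linarith
    rw [e, SI_add (h.sm.gr2.sub ((Sm.const _).mul h.sm)) (Sm.const _),
      SI_sub h.sm.gr2 ((Sm.const _).mul h.sm), SI_const_mul, SI_const]
  have h4 := SI_f h
  push_cast at h1
  rw [h2, h3] at h1
  rw [h4] at h1
  have h5 : SI (fun x => oddpart f c x * lap (oddpart f c) x) =
      3 * SI (fun x => f x ^ 2) - SI (gr2 f) - 2 * π * c ^ 2 := by
    linear_combination h1
  rw [h5]
  ring

theorem Fv_hom (hh : Hom 1 f) (hs : Sm f) : Hom 0 (Fv f) := by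
  intro r hr x hx
  have h1 := hh r hr x hx
  have h2 := hh.gr2 hs r hr x hx
  norm_num at h1 h2
  unfold Fv
  rw [h1, h2, norm_smul, Real.norm_of_nonneg hr.le]
  have : ‖x‖ ≠ 0 := norm_ne_zero_iff.2 hx
  simp only [zpow_zero, one_mul]
  have h3 : (r * f x) ^ 2 / (r * ‖x‖) ^ 2 = f x ^ 2 / ‖x‖ ^ 2 := by
    field_simp
  rw [h3]

theorem ball_SI {F : E3 → ℝ} (hF : Hom 0 F) : ∫ x in ball (0 : E3) 1, F x = 1 / 3 * SI F := by
  have hpol := polar hF (fun r => if r < 1 then 1 else 0)
  have h13 : ∫ r in Ioi (0 : ℝ), r ^ 2 * ((if r < 1 then (1 : ℝ) else 0) * r ^ (0 : ℤ)) = 1 / 3 := by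
    have e2 : ∫ r in Ioi (0 : ℝ), r ^ 2 * ((if r < 1 then (1 : ℝ) else 0) * r ^ (0 : ℤ)) =
        ∫ r in Ioo (0 : ℝ) 1, r ^ 2 * ((if r < 1 then (1 : ℝ) else 0) * r ^ (0 : ℤ)) := by
      apply setIntegral_eq_of_subset_of_forall_sdiff_eq_zero measurableSet_Ioi
      · intro r hr
        exact hr.1
      · intro r hr
        have : ¬ r < 1 := fun h => hr.2 ⟨hr.1, h⟩
        simp [this]
    have e1 : ∫ r in Ioo (0 : ℝ) 1, r ^ 2 * ((if r < 1 then (1 : ℝ) else 0) * r ^ (0 : ℤ)) =
        ∫ r in Ioo (0 : ℝ) 1, r ^ 2 := by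
      apply setIntegral_congr_fun measurableSet_Ioo
      intro r hr
      simp [hr.2]
    rw [e2, e1, ← integral_Ioc_eq_integral_Ioo, ← intervalIntegral.integral_of_le (by norm_num),
      integral_pow]
    norm_num
  rw [h13] at hpol
  rw [← hpol, ← integral_indicator measurableSet_ball]
  congr 1
  ext x
  by_cases hx : ‖x‖ < 1
  · rw [indicator_of_mem (by simpa using hx)]
    simp [hx]
  · rw [indicator_of_notMem (by simpa using hx)]
    simp [hx]

theorem smooth_ball (h : SSup f c) :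
    ENNReal.ofReal (3 * c / 4 * (∫ x in ball (0 : E3) 1, Fv f x) - π * c ^ 3 / 3) ≤
      volume {y : E3 | ∀ z, ⟪y, z⟫ ≤ f z} := by
  apply Helper82.CW.volume_ge h
  rw [vol_smooth_id h, ball_SI (Fv_hom h.hom h.sm)]
  have h1 : SI (Fv f) = 3 * SI (fun x => f x ^ 2) - SI (gr2 f) := by
    rw [← SI_const_mul, ← SI_sub ((Sm.const _).mul (h.sm.pow 2)) h.sm.gr2]
    apply SI_congr
    intro x hx
    unfold Fv
    rw [hx]
    ring
  rw [h1]
  apply le_of_eq
  ring

end smooth

section limit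
variable {H : E3 → ℝ} {R : ℝ}

theorem Ht_ge (h : Supp H R) {ε : ℝ} (hε : 0 < ε) (x : E3) :
    H x - R * ε * ‖x‖ ≤ Ht H ε x := by
  have h1 : H x - R * ε * ‖x‖ = ∫ y, eta ε y * (H x - R * ε * ‖x‖) := by
    rw [integral_mul_const, eta_integral hε, one_mul]
  rw [h1]
  unfold Ht
  apply integral_mono (eta_mul_integrable hε continuous_const) (Ht_int h hε x _)
  intro y
  simp only
  by_cases hy : ε ≤ ‖y‖
  · rw [eta_zero hε hy]
    simp
  · apply mul_le_mul_of_nonneg_left _ (eta_nonneg hε y)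
    have h2 := (abs_le.1 (h.lip x (x - ‖x‖ • y))).2
    rw [sub_sub_cancel, norm_smul, norm_norm] at h2
    have h4 : R * (‖x‖ * ‖y‖) ≤ R * ε * ‖x‖ := by
      have : ‖x‖ * ‖y‖ ≤ ‖x‖ * ε := mul_le_mul_of_nonneg_left (not_le.1 hy).le (norm_nonneg _)
      calc R * (‖x‖ * ‖y‖) ≤ R * (‖x‖ * ε) := mul_le_mul_of_nonneg_left this h.Rnn
        _ = _ := by ring
    linarith

theorem cw_le {ε : ℝ} (hε : 0 < ε) : cw ε ≤ 1 + ε := by
  have h1 : 1 + ε = ∫ y, eta ε y * (1 + ε) := by
    rw [integral_mul_const, eta_integral hε, one_mul]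
  rw [h1]
  apply integral_mono (eta_mul_integrable hε (by fun_prop)) (eta_mul_integrable hε continuous_const)
  intro y
  simp only
  by_cases hy : ε ≤ ‖y‖
  · rw [eta_zero hε hy]
    simp
  · apply mul_le_mul_of_nonneg_left _ (eta_nonneg hε y)
    have := norm_sub_le (e 0) y
    rw [norm_e] at this
    linarith

theorem cw_tendsto : Filter.Tendsto cw (𝓝[>] 0) (𝓝 1) := by
  have a : Filter.Tendsto (fun ε : ℝ => 1 - ε) (𝓝[>] 0) (𝓝 1) := by
    have : Continuous (fun ε : ℝ => 1 - ε) := by fun_prop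
    have h3 := this.tendsto 0
    simp only [sub_zero] at h3
    exact h3.mono_left nhdsWithin_le_nhds
  have b : Filter.Tendsto (fun ε : ℝ => 1 + ε) (𝓝[>] 0) (𝓝 1) := by
    have : Continuous (fun ε : ℝ => 1 + ε) := by fun_prop
    have h3 := this.tendsto 0
    simp only [add_zero] at h3
    exact h3.mono_left nhdsWithin_le_nhds
  apply tendsto_of_tendsto_of_tendsto_of_le_of_le' a b
  · filter_upwards [self_mem_nhdsWithin] with ε hε using cw_ge hε
  · filter_upwards [self_mem_nhdsWithin] with ε hε using cw_le hε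

theorem Ht_tendsto (h : Supp H R) (x : E3) :
    Filter.Tendsto (fun ε => Ht H ε x) (𝓝[>] 0) (𝓝 (H x)) := by
  have a : Filter.Tendsto (fun ε : ℝ => H x - R * ε * ‖x‖) (𝓝[>] 0) (𝓝 (H x)) := by
    have : Continuous (fun ε : ℝ => H x - R * ε * ‖x‖) := by fun_prop
    have h3 := this.tendsto 0
    simp only [mul_zero, zero_mul, sub_zero] at h3
    exact h3.mono_left nhdsWithin_le_nhds
  have b : Filter.Tendsto (fun ε : ℝ => H x + R * ε * ‖x‖) (𝓝[>] 0) (𝓝 (H x)) := by
    have : Continuous (fun ε : ℝ => H x + R * ε * ‖x‖) := by fun_prop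
    have h3 := this.tendsto 0
    simp only [mul_zero, zero_mul, add_zero] at h3
    exact h3.mono_left nhdsWithin_le_nhds
  apply tendsto_of_tendsto_of_tendsto_of_le_of_le' a b
  · filter_upwards [self_mem_nhdsWithin] with ε hε using Ht_ge h hε x
  · filter_upwards [self_mem_nhdsWithin] with ε hε using Ht_le h hε x

/-- subgradient inequality -/
theorem SSup.subgrad' {f : E3 → ℝ} {c : ℝ} (h : SSup f c) {x : E3} (hx : x ≠ 0) (i : Fin 3)
    (t : ℝ) : f x + t * pd i f x ≤ f (x + t • e i) := by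
  have h1 := h.subgrad hx (x + t • e i)
  have h2 := h.euler hx
  have h3 : ∑ j, (x + t • e i) j * pd j f x = ∑ j, x j * pd j f x + t * pd i f x := by
    have : ∀ j, (x + t • e i) j * pd j f x = x j * pd j f x + t * ((e i) j * pd j f x) := by
      intro j
      simp only [PiLp.add_apply, PiLp.smul_apply, smul_eq_mul]
      ring
    simp only [this, Finset.sum_add_distrib, ← Finset.mul_sum]
    congr 2
    rw [Finset.sum_eq_single i]
    · simp [e]
    · intro j _ hj
      simp [e, hj]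
    · simp
  rw [h3, h2] at h1
  exact h1

theorem pd_tendsto (h : Supp H R) {x : E3} (hx : x ≠ 0) (hd : DifferentiableAt ℝ H x) (i : Fin 3) :
    Filter.Tendsto (fun ε => pd i (Ht H ε) x) (𝓝[>] 0) (𝓝 (pd i H x)) := by
  have hline : HasDerivAt (fun t : ℝ => H (x + t • e i)) (pd i H x) 0 := by
    have h1 : HasDerivAt (fun t : ℝ => x + t • e i) (e i) 0 := by
      simpa using ((hasDerivAt_id (0 : ℝ)).smul_const (e i)).const_add x
    have h2 : HasFDerivAt H (fderiv ℝ H x) (x + (0 : ℝ) • e i) := by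
      simpa using hd.hasFDerivAt
    exact h2.comp_hasDerivAt (0 : ℝ) h1
  rw [Metric.tendsto_nhds]
  intro δ hδ
  -- choose a step t
  have hsl := hline.tendsto_slope_zero
  rw [Metric.tendsto_nhds] at hsl
  have hev := hsl (δ / 4) (by linarith)
  rw [eventually_nhdsWithin_iff, Metric.eventually_nhds_iff] at hev
  obtain ⟨τ, hτ, hT⟩ := hev
  set t : ℝ := τ / 2 with ht
  have ht0 : 0 < t := by positivity
  have q1 := hT (y := t) (by rw [Real.dist_eq, sub_zero, abs_of_pos ht0]; linarith) (by simpa using ht0.ne')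
  have q2 := hT (y := -t) (by rw [Real.dist_eq, sub_zero, abs_neg, abs_of_pos ht0]; linarith)
    (by simpa using ht0.ne')
  rw [Real.dist_eq, abs_lt] at q1 q2
  simp only [zero_add, zero_smul, add_zero, smul_eq_mul] at q1 q2
  have q1' : H (x + t • e i) - H x < t * (pd i H x + δ / 4) := by
    have := q1.2
    have h5 : t⁻¹ * (H (x + t • e i) - H x) < pd i H x + δ / 4 := by linarith
    rwa [inv_mul_lt_iff₀ ht0] at h5
  have q2' : H (x + (-t) • e i) - H x < -t * (pd i H x - δ / 4) := by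
    have := q2.1
    have h5 : pd i H x - δ / 4 < (-t)⁻¹ * (H (x + (-t) • e i) - H x) := by linarith
    rw [inv_neg, neg_mul] at h5
    have h6 : t⁻¹ * (H (x + (-t) • e i) - H x) < -(pd i H x - δ / 4) := by linarith
    rw [inv_mul_lt_iff₀ ht0] at h6
    linarith
  -- error terms
  set M : ℝ := R * (‖x‖ + (‖x‖ + t)) with hM
  have hM0 : 0 ≤ M := mul_nonneg h.Rnn (by positivity)
  have hsmall : ∀ᶠ ε : ℝ in 𝓝[>] 0, ε * M < t * (δ / 4) := by
    have : Filter.Tendsto (fun ε : ℝ => ε * M) (𝓝[>] 0) (𝓝 0) := by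
      have hc : Continuous (fun ε : ℝ => ε * M) := by fun_prop
      have h3 := hc.tendsto 0
      simp only [zero_mul] at h3
      exact h3.mono_left nhdsWithin_le_nhds
    exact this.eventually (gt_mem_nhds (by positivity))
  have hlt : ∀ᶠ ε : ℝ in 𝓝[>] 0, ε < 1 :=
    (eventually_lt_nhds one_pos).filter_mono nhdsWithin_le_nhds
  filter_upwards [self_mem_nhdsWithin, hlt, hsmall] with ε hε hε1 hsm
  have hε : 0 < ε := hε
  have hS := Ht_SSup h hε hε1
  have a1 := SSup.subgrad' hS hx i t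
  have a2 := SSup.subgrad' hS hx i (-t)
  have b0 := Ht_ge h hε x
  have b1 := Ht_le h hε (x + t • e i)
  have b2 := Ht_le h hε (x + (-t) • e i)
  have n1 : ‖x + t • e i‖ ≤ ‖x‖ + t := by
    have := norm_add_le x (t • e i)
    rwa [norm_smul, norm_e, Real.norm_of_nonneg ht0.le, mul_one] at this
  have n2 : ‖x + (-t) • e i‖ ≤ ‖x‖ + t := by
    have := norm_add_le x ((-t) • e i)
    rwa [norm_smul, norm_e, Real.norm_eq_abs, abs_neg, abs_of_pos ht0, mul_one] at this
  have hRε : 0 ≤ R * ε := mul_nonneg h.Rnn hε.le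
  have m1 := mul_le_mul_of_nonneg_left n1 hRε
  have m2 := mul_le_mul_of_nonneg_left n2 hRε
  have hMe : R * ε * ‖x‖ + R * ε * (‖x‖ + t) = ε * M := by
    rw [hM]
    ring
  rw [Real.dist_eq, abs_lt]
  constructor
  · have : t * (pd i H x - δ / 4 - δ / 4) < t * pd i (Ht H ε) x := by nlinarith
    have := lt_of_mul_lt_mul_left this ht0.le
    linarith
  · have : t * pd i (Ht H ε) x < t * (pd i H x + δ / 4 + δ / 4) := by nlinarith
    have := lt_of_mul_lt_mul_left this ht0.le
    linarith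

theorem Supp.lipschitz (h : Supp H R) : LipschitzWith ⟨R, h.Rnn⟩ H := by
  apply LipschitzWith.of_dist_le_mul
  intro x y
  rw [Real.dist_eq, dist_eq_norm]
  exact h.lip x y

theorem Supp.ae_diff (h : Supp H R) : ∀ᵐ x : E3, DifferentiableAt ℝ H x :=
  (Supp.lipschitz h).ae_differentiableAt

theorem Fv_tendsto (h : Supp H R) {x : E3} (hx : x ≠ 0) (hd : DifferentiableAt ℝ H x) :
    Filter.Tendsto (fun ε => Fv (Ht H ε) x) (𝓝[>] 0) (𝓝 (Fv H x)) := by
  unfold Fv gr2
  apply Filter.Tendsto.sub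
  · exact (((Ht_tendsto h x).pow 2).div_const _).const_mul 3
  · apply tendsto_finset_sum
    intro i _
    exact (pd_tendsto h hx hd i).pow 2

theorem Fv_bound {f : E3 → ℝ} {c B : ℝ} (h : SSup f c) (hB : 0 ≤ B) (hb : ∀ x, f x ≤ B * ‖x‖)
    {x : E3} (hx : x ≠ 0) : |Fv f x| ≤ 4 * B ^ 2 := by
  have h1 := Helper82.CW.gr2_le h hB hb hx
  have h2 : 0 ≤ gr2 f x := Finset.sum_nonneg (fun i _ => sq_nonneg _)
  have hn : 0 < ‖x‖ := norm_pos_iff.2 hx
  have h3 : f x ^ 2 / ‖x‖ ^ 2 ≤ B ^ 2 := by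
    rw [div_le_iff₀ (by positivity), ← mul_pow]
    exact pow_le_pow_left₀ (h.nonneg x) (hb x) 2
  have h4 : 0 ≤ f x ^ 2 / ‖x‖ ^ 2 := by positivity
  unfold Fv
  rw [abs_le]
  constructor <;> linarith

theorem int_tendsto (h : Supp H R) :
    Filter.Tendsto (fun ε => ∫ x in ball (0 : E3) 1, Fv (Ht H ε) x) (𝓝[>] 0)
      (𝓝 (∫ x in ball (0 : E3) 1, Fv H x)) := by
  have hlt : ∀ᶠ ε : ℝ in 𝓝[>] 0, ε < 1 :=
    (eventually_lt_nhds one_pos).filter_mono nhdsWithin_le_nhds
  apply tendsto_integral_filter_of_dominated_convergence (fun _ => 4 * (2 * R) ^ 2)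
  · filter_upwards [self_mem_nhdsWithin, hlt] with ε hε hε1
    have hS := Ht_SSup h hε hε1
    have hcont : ContinuousOn (Fv (Ht H ε)) {0}ᶜ := by
      intro x hx
      have hx : x ≠ 0 := hx
      have a := (hS.sm x hx).continuousAt
      have b := (hS.sm.gr2 x hx).continuousAt
      have hn : ‖x‖ ^ 2 ≠ 0 := by
        have := norm_ne_zero_iff.2 hx
        positivity
      exact (((continuousAt_const.mul ((a.pow 2).div (continuousAt_id.norm.pow 2) hn)).sub
        b)).continuousWithinAt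
    have hms : AEStronglyMeasurable (Fv (Ht H ε)) (volume.restrict {0}ᶜ) :=
      hcont.aestronglyMeasurable (measurableSet_singleton _).compl
    rw [restrict_compl_singleton] at hms
    exact hms.restrict
  · filter_upwards [self_mem_nhdsWithin, hlt] with ε hε hε1
    have hε : 0 < ε := hε
    have hS := Ht_SSup h hε hε1
    have hb : ∀ x, Ht H ε x ≤ (2 * R) * ‖x‖ := by
      intro x
      have h1 := Ht_le h hε x
      have h2 := h.bound x
      have h3 : R * ε * ‖x‖ ≤ R * ‖x‖ := by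
        apply mul_le_mul_of_nonneg_right _ (norm_nonneg _)
        have := mul_le_mul_of_nonneg_left hε1.le h.Rnn
        linarith
      linarith
    have hae : ∀ᵐ x : E3, x ≠ 0 := by simp [ae_iff, measure_singleton]
    filter_upwards [ae_restrict_of_ae hae] with x hx
    rw [Real.norm_eq_abs]
    exact Fv_bound hS (by linarith [h.Rnn]) hb hx
  · have : IsFiniteMeasure (volume.restrict (ball (0 : E3) 1)) :=
      ⟨by rw [Measure.restrict_apply_univ]; exact measure_ball_lt_top⟩
    exact (integrable_const _)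
  · have hae : ∀ᵐ x : E3, x ≠ 0 := by simp [ae_iff, measure_singleton]
    filter_upwards [ae_restrict_of_ae hae, ae_restrict_of_ae (Supp.ae_diff h)] with x hx hd
    exact Fv_tendsto h hx hd

end limit

/-- **First order volume formula** for bodies of constant width. -/
theorem volume_first {K : Set E3} (hK : IsCompact K) (hc : Convex ℝ K) (hw : Width1 K) {x0 : E3}
    (hx0 : x0 ∈ K) :
    ENNReal.ofReal (3 / 4 * (∫ x in ball (0 : E3) 1, Fv (H0 K x0) x) - π / 3) ≤ volume K := by
  have hsub : K ⊆ closedBall x0 1 := by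
    intro y hy
    rw [mem_closedBall]
    exact diam_le hK hw y hy x0 hx0
  have hR := H0_supp_ball hK hw le_rfl hsub
  set K0 : Set E3 := (fun y => y + x0) ⁻¹' K with hK0
  have hK0c : IsCompact K0 := by
    have : K0 = (fun y => y - x0) '' K := by
      ext y
      constructor
      · intro hy
        exact ⟨y + x0, hy, by simp⟩
      · rintro ⟨z, hz, rfl⟩
        simpa [hK0] using hz
    rw [this]
    exact hK.image (by fun_prop)
  have hvol : volume K0 = volume K := measure_preimage_add_right volume x0 K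
  rw [← hvol]
  have hstep : ∀ ε : ℝ, 0 < ε → ε < 1 →
      ENNReal.ofReal (3 * cw ε / 4 * (∫ x in ball (0 : E3) 1, Fv (Ht (H0 K x0) ε) x)
        - π * cw ε ^ 3 / 3) ≤ volume (cthickening (1 * ε) K0) := by
    intro ε hε hε1
    have hS := Ht_SSup hR hε hε1
    have h1 := smooth_ball hS
    have h2 := body_sub' hK hc hw (f := Ht (H0 K x0) ε) (δ := 1 * ε) (Ht_le hR hε)
      (by linarith)
    exact h1.trans (measure_mono h2)
  have hlim1 : Filter.Tendsto (fun ε : ℝ => volume (cthickening (1 * ε) K0)) (𝓝[>] 0)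
      (𝓝 (volume K0)) := by
    have h1 := tendsto_measure_cthickening_of_isCompact (μ := (volume : Measure E3)) hK0c
    have h2 : Filter.Tendsto (fun ε : ℝ => 1 * ε) (𝓝[>] 0) (𝓝 0) := by
      have : Continuous (fun ε : ℝ => 1 * ε) := by fun_prop
      have h3 := this.tendsto 0
      simp only [mul_zero] at h3
      exact h3.mono_left nhdsWithin_le_nhds
    exact h1.comp h2
  have hlim2 : Filter.Tendsto (fun ε : ℝ => ENNReal.ofReal
      (3 * cw ε / 4 * (∫ x in ball (0 : E3) 1, Fv (Ht (H0 K x0) ε) x) - π * cw ε ^ 3 / 3))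
      (𝓝[>] 0) (𝓝 (ENNReal.ofReal
        (3 / 4 * (∫ x in ball (0 : E3) 1, Fv (H0 K x0) x) - π / 3))) := by
    apply ENNReal.tendsto_ofReal
    have h1 := ((cw_tendsto.const_mul 3).div_const 4).mul (int_tendsto hR)
    have h2 := ((cw_tendsto.pow 3).const_mul π).div_const 3
    have h3 := h1.sub h2
    simp only [mul_one, one_pow] at h3
    exact h3
  apply le_of_tendsto_of_tendsto hlim2 hlim1
  have hlt : ∀ᶠ ε : ℝ in 𝓝 0, ε < 1 := eventually_lt_nhds one_pos
  filter_upwards [self_mem_nhdsWithin, hlt.filter_mono nhdsWithin_le_nhds] with ε h1 h2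
  exact hstep ε h1 h2

end Helper14.CW
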