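import Pool.Agent.Helper14.CW.Decomp

/-!
# Volume of a body of constant width containing a regular tetrahedron, in charts
-/


namespace Helper14.CW

open Set Metric MeasureTheory Helper80.CW Helper82.CW
open scoped ContDiff Topology RealInnerProductSpace Real

/-- the square of the chart -/
def SQ : Set (ℝ × ℝ) :=
  Ioo (-(Real.sqrt 2 / 2)) (Real.sqrt 2 / 2) ×ˢ Ioo (-(Real.sqrt 2 / 2)) (Real.sqrt 2 / 2)

/-- the triangle of the chart -/
def TR : Set (ℝ × ℝ) := {p | 0 < p.1 ∧ p.1 < Real.sqrt 2 ∧ |p.2| < Real.sqrt 2 / 2 * p.1}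

/-- the linear function of the vertex in the triangle chart -/
noncomputable def lT (p : ℝ × ℝ) : ℝ := 1 / 2 + Real.sqrt 2 / 4 * p.1

/-- the integrand of the triangle part -/
noncomputable def gT (p : ℝ × ℝ) : ℝ :=
  (6 * lT p ^ 2 / Nn p ^ 2 - 4 * lT p / Nn p + 5 / 4) * (Nn p ^ 3)⁻¹

/-- the constant of the triangle part -/
noncomputable def CT : ℝ := (∫ p in TR, gT p) - π / 3

/-- the integrand of the square part -/
noncomputable def qd (P : ℝ × ℝ → ℝ) (p : ℝ × ℝ) : ℝ :=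
  3 * P p ^ 2 / Nn p ^ 2 - fderiv ℝ P p (1, 0) ^ 2 - fderiv ℝ P p (0, 1) ^ 2 -
    (P p - p.1 * fderiv ℝ P p (1, 0) - p.2 * fderiv ℝ P p (0, 1)) ^ 2 - 2 * P p / Nn p + 1

/-- the support function in the chart -/
noncomputable def chP (K : Set E3) (x0 : E3) (b : OrthonormalBasis (Fin 3) ℝ E3) (p : ℝ × ℝ) : ℝ :=
  H0 K x0 (pt b p.1 p.2 1)

section
variable {K : Set E3} {v : Fin 4 → E3} {x0 : E3} {b : OrthonormalBasis (Fin 3) ℝ E3}

theorem SQ_meas : MeasurableSet SQ := measurableSet_Ioo.prod measurableSet_Ioo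

theorem SQ_fin : volume SQ ≠ ⊤ := by
  unfold SQ
  rw [Measure.volume_eq_prod, Measure.prod_prod]
  exact ENNReal.mul_ne_top (by simp) (by simp)

theorem TR_meas : MeasurableSet TR := by
  have h1 : Measurable (fun p : ℝ × ℝ => |p.2|) := measurable_snd.abs
  have h2 : Measurable (fun p : ℝ × ℝ => Real.sqrt 2 / 2 * p.1) := measurable_fst.const_mul _
  exact (measurableSet_lt measurable_const measurable_fst).inter
    ((measurableSet_lt measurable_fst measurable_const).inter (measurableSet_lt h1 h2))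

theorem TR_fin : volume TR ≠ ⊤ := by
  have hsub : TR ⊆ Ioo (0 : ℝ) (Real.sqrt 2) ×ˢ Ioo (-1 : ℝ) 1 := by
    rintro p ⟨h1, h2, h3⟩
    have s2 : Real.sqrt 2 * Real.sqrt 2 = 2 := Real.mul_self_sqrt (by norm_num)
    have s0 : 0 < Real.sqrt 2 := by positivity
    have h4 : |p.2| < 1 := by
      have : Real.sqrt 2 / 2 * p.1 < 1 := by nlinarith
      linarith
    rw [abs_lt] at h4
    exact ⟨⟨h1, h2⟩, h4⟩
  refine ne_top_of_le_ne_top ?_ (measure_mono hsub)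
  rw [Measure.volume_eq_prod, Measure.prod_prod]
  exact ENNReal.mul_ne_top (by simp) (by simp)

theorem SqS_cone (h : Gram4 v) (h0 : b 0 = v 0 - v 1) (h1 : b 1 = v 2 - v 3)
    (h2 : b 2 = Real.sqrt 2 • (v 0 + v 1)) : SqS v = cone b SQ := by
  ext x
  obtain ⟨a0, a1, a2, a3⟩ := frame_inner h h0 h1 h2 x
  have s0 : 0 < Real.sqrt 2 := by positivity
  simp only [SqS, cone, SQ, mem_setOf_eq, mem_prod, mem_Ioo, a0, a1, a2, a3]
  constructor
  · rintro ⟨c0, c1, c2, c3⟩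
    have hz : 0 < ⟪b 2, x⟫ := by
      have : 0 < Real.sqrt 2 / 4 * ⟪b 2, x⟫ := by linarith
      exact (mul_pos_iff_of_pos_left (by positivity)).1 this
    refine ⟨hz, ⟨?_, ?_⟩, ⟨?_, ?_⟩⟩
    · rw [lt_div_iff₀ hz]; linarith
    · rw [div_lt_iff₀ hz]; linarith
    · rw [lt_div_iff₀ hz]; linarith
    · rw [div_lt_iff₀ hz]; linarith
  · rintro ⟨hz, ⟨c0, c1⟩, ⟨c2, c3⟩⟩
    rw [lt_div_iff₀ hz] at c0 c2
    rw [div_lt_iff₀ hz] at c1 c3
    refine ⟨?_, ?_, ?_, ?_⟩ <;> linarith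

theorem TriS_cone (h : Gram4 v) (h0 : b 2 = v 0 - v 1) (h1 : b 1 = v 2 - v 3)
    (h2 : b 0 = Real.sqrt 2 • (v 0 + v 1)) : TriS v = cone b TR := by
  ext x
  have s2 : Real.sqrt 2 * Real.sqrt 2 = 2 := Real.mul_self_sqrt (by norm_num)
  have s0 : 0 < Real.sqrt 2 := by positivity
  have hr := frame_inner (b := b.reindex (Equiv.swap 0 2)) h (by
      rw [OrthonormalBasis.reindex_apply]; exact h0) (by
      rw [OrthonormalBasis.reindex_apply]; exact h1) (by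
      rw [OrthonormalBasis.reindex_apply]; exact h2) x
  simp only [OrthonormalBasis.reindex_apply] at hr
  have e0 : (Equiv.swap (0 : Fin 3) 2).symm 0 = 2 := by decide
  have e1 : (Equiv.swap (0 : Fin 3) 2).symm 1 = 1 := by decide
  have e2 : (Equiv.swap (0 : Fin 3) 2).symm 2 = 0 := by decide
  rw [e0, e1, e2] at hr
  obtain ⟨a0, a1, a2, a3⟩ := hr
  simp only [TriS, cone, TR, mem_setOf_eq, a1, a2, a3]
  constructor
  · rintro ⟨c1, c2, c3⟩
    have hx0 : 0 < ⟪b 0, x⟫ := by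
      have : 0 < Real.sqrt 2 / 4 * ⟪b 0, x⟫ := by linarith
      exact (mul_pos_iff_of_pos_left (by positivity)).1 this
    have hz : 0 < ⟪b 2, x⟫ := by nlinarith
    refine ⟨hz, div_pos hx0 hz, ?_, ?_⟩
    · rw [div_lt_iff₀ hz]
      nlinarith
    · rw [abs_div, abs_of_pos hz, div_lt_iff₀ hz]
      have : Real.sqrt 2 / 2 * (⟪b 0, x⟫ / ⟪b 2, x⟫) * ⟪b 2, x⟫ = Real.sqrt 2 / 2 * ⟪b 0, x⟫ := by
        field_simp
      rw [this, abs_lt]
      constructor <;> linarith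
  · rintro ⟨hz, c0, c1, c2⟩
    rw [div_lt_iff₀ hz] at c1
    rw [abs_div, abs_of_pos hz, div_lt_iff₀ hz] at c2
    have : Real.sqrt 2 / 2 * (⟪b 0, x⟫ / ⟪b 2, x⟫) * ⟪b 2, x⟫ = Real.sqrt 2 / 2 * ⟪b 0, x⟫ := by
      field_simp
    rw [this, abs_lt] at c2
    refine ⟨?_, by linarith, by linarith⟩
    nlinarith

theorem chP_hasFDerivAt (hK : IsCompact K) (hw : Width1 K) (x0 : E3) (p : ℝ × ℝ) {g : E3}
    (hg : g ∈ K) (hgx : supp K (pt b p.1 p.2 1) = ⟪g, pt b p.1 p.2 1⟫) :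
    HasFDerivAt (chP K x0 b)
      (⟪g - x0, b 0⟫ • ContinuousLinearMap.fst ℝ ℝ ℝ + ⟪g - x0, b 1⟫ • ContinuousLinearMap.snd ℝ ℝ ℝ)
      p := by
  have h1 := H0_hasFDerivAt hK hw x0 (pt_ne b p) hg hgx
  have h2 : HasFDerivAt (fun q : ℝ × ℝ => pt b q.1 q.2 1)
      ((ContinuousLinearMap.fst ℝ ℝ ℝ).smulRight (b 0) +
        (ContinuousLinearMap.snd ℝ ℝ ℝ).smulRight (b 1)) p := by
    unfold pt
    have a := (ContinuousLinearMap.fst ℝ ℝ ℝ).smulRight (b 0) |>.hasFDerivAt (x := p)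
    have c := (ContinuousLinearMap.snd ℝ ℝ ℝ).smulRight (b 1) |>.hasFDerivAt (x := p)
    exact (a.add c).add_const _
  have h3 := h1.comp p h2
  have e1 : (innerSL ℝ (g - x0)).comp ((ContinuousLinearMap.fst ℝ ℝ ℝ).smulRight (b 0) +
      (ContinuousLinearMap.snd ℝ ℝ ℝ).smulRight (b 1)) =
      ⟪g - x0, b 0⟫ • ContinuousLinearMap.fst ℝ ℝ ℝ +
        ⟪g - x0, b 1⟫ • ContinuousLinearMap.snd ℝ ℝ ℝ := by
    ext <;> simp [inner_sub_left]
  rw [e1] at h3
  exact h3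

theorem chP_diff (hK : IsCompact K) (hw : Width1 K) (x0 : E3) :
    Differentiable ℝ (chP K x0 b) := by
  intro p
  obtain ⟨g, hg, hgx⟩ := supp_attained hK hw.nonempty (pt b p.1 p.2 1)
  exact (chP_hasFDerivAt hK hw x0 p hg hgx).differentiableAt

theorem Fv_pair (hK : IsCompact K) (hw : Width1 K) (x0 : E3) (p : ℝ × ℝ) :
    Fv (H0 K x0) (pt b p.1 p.2 1) + Fv (H0 K x0) (-(pt b p.1 p.2 1)) =
      2 * qd (chP K x0 b) p := by
  obtain ⟨g, hg, hgx⟩ := supp_attained hK hw.nonempty (pt b p.1 p.2 1)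
  have hne := pt_ne b p
  rw [Fv_neg hK hw x0 hne]
  have hd := (chP_hasFDerivAt hK hw x0 p hg hgx).fderiv
  have dX : fderiv ℝ (chP K x0 b) p (1, 0) = ⟪g - x0, b 0⟫ := by
    rw [hd]
    simp
  have dY : fderiv ℝ (chP K x0 b) p (0, 1) = ⟪g - x0, b 1⟫ := by
    rw [hd]
    simp
  have hH : chP K x0 b p = ⟪g - x0, pt b p.1 p.2 1⟫ := by
    unfold chP H0
    rw [hgx, inner_sub_left]
  have hz : chP K x0 b p - p.1 * ⟪g - x0, b 0⟫ - p.2 * ⟪g - x0, b 1⟫ = ⟪g - x0, b 2⟫ := by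
    rw [hH, real_inner_comm, inner_pt]
    rw [real_inner_comm (g - x0) (b 0), real_inner_comm (g - x0) (b 1),
      real_inner_comm (g - x0) (b 2)]
    ring
  have hgr : gr2 (H0 K x0) (pt b p.1 p.2 1) =
      ⟪g - x0, b 0⟫ ^ 2 + ⟪g - x0, b 1⟫ ^ 2 + ⟪g - x0, b 2⟫ ^ 2 := by
    rw [gr2_support hK hw x0 hne hg hgx]
    have h1 := b.sum_sq_norm_inner_right (g - x0)
    rw [Fin.sum_univ_three] at h1
    simp only [Real.norm_eq_abs, sq_abs] at h1
    rw [← h1, real_inner_comm (g - x0) (b 0), real_inner_comm (g - x0) (b 1),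
      real_inner_comm (g - x0) (b 2)]
  unfold qd Fv
  rw [dX, dY, hz, hgr, norm_pt_one]
  have : H0 K x0 (pt b p.1 p.2 1) = chP K x0 b p := rfl
  rw [this]
  ring

theorem supp1 (hK : IsCompact K) (hw : Width1 K) (hx0 : x0 ∈ K) : Supp (H0 K x0) 1 := by
  apply H0_supp_ball hK hw le_rfl
  intro y hy
  rw [mem_closedBall]
  exact diam_le hK hw y hy x0 hx0

theorem sq_part (hK : IsCompact K) (hw : Width1 K) (hx0 : x0 ∈ K) (h : Gram4 v)
    (h0 : b 0 = v 0 - v 1) (h1 : b 1 = v 2 - v 3) (h2 : b 2 = Real.sqrt 2 • (v 0 + v 1)) :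
    ∫ x in ball (0 : E3) 1 ∩ SqS v, (Fv (H0 K x0) x + Fv (H0 K x0) (-x)) =
      2 / 3 * ∫ p in SQ, qd (chP K x0 b) p * (Nn p ^ 3)⁻¹ := by
  have hS := supp1 hK hw hx0
  have hm := Fv_meas hS
  rw [SqS_cone h h0 h1 h2, chart b SQ_meas SQ_fin (C := 8)]
  · have e : ∫ p in SQ, (Fv (H0 K x0) (pt b p.1 p.2 1) + Fv (H0 K x0) (-(pt b p.1 p.2 1))) *
        (Nn p ^ 3)⁻¹ = 2 * ∫ p in SQ, qd (chP K x0 b) p * (Nn p ^ 3)⁻¹ := by
      rw [← integral_const_mul]
      refine integral_congr_ae (ae_of_all _ (fun p => ?_))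
      simp only
      rw [Fv_pair hK hw x0 p]
      ring
    rw [e]
    ring
  · intro r hr x hx
    have a := Fv_hom0 hS r hr x hx
    have c := Fv_hom0 hS r hr (-x) (neg_ne_zero.2 hx)
    simp only [zpow_zero, one_mul, smul_neg] at a c ⊢
    rw [a, c]
  · exact hm.add (hm.comp measurable_neg)
  · intro x hx
    have a := abs_le.1 (Fv_bd hK hw hx0 hx)
    have c := abs_le.1 (Fv_bd hK hw hx0 (neg_ne_zero.2 hx))
    rw [abs_le]
    constructor <;> linarith [a.1, a.2, c.1, c.2]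

theorem tri_part (hK : IsCompact K) (hw : Width1 K) (hx0 : x0 ∈ K) (h : Gram4 v)
    (hv : ∀ i, x0 + v i ∈ K) :
    ∫ x in ball (0 : E3) 1 ∩ TriS v, (Fv (H0 K x0) x + Fv (H0 K x0) (-x)) =
      1 / 3 * ∫ p in TR, gT p := by
  have hS := supp1 hK hw hx0
  obtain ⟨b, h0, h1, h2⟩ := h.frame
  set c := b.reindex (Equiv.swap 0 2) with hc
  have c0 : c 0 = Real.sqrt 2 • (v 0 + v 1) := by
    rw [hc, OrthonormalBasis.reindex_apply]; exact h2
  have c1 : c 1 = v 2 - v 3 := by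
    rw [hc, OrthonormalBasis.reindex_apply]; exact h1
  have c2 : c 2 = v 0 - v 1 := by
    rw [hc, OrthonormalBasis.reindex_apply]; exact h0
  set G : E3 → ℝ := fun x => 6 * ⟪v 0, x⟫ ^ 2 / ‖x‖ ^ 2 - 4 * ⟪v 0, x⟫ / ‖x‖ + 5 / 4 with hG
  have hnv : ‖v 0‖ ≤ 1 := by
    have := h.diag 0
    rw [real_inner_self_eq_norm_sq] at this
    nlinarith [norm_nonneg (v 0)]
  have hin : ∀ x, |⟪v 0, x⟫| ≤ ‖x‖ := by
    intro x
    have := abs_real_inner_le_norm (v 0) x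
    have h5 := mul_le_mul_of_nonneg_right hnv (norm_nonneg x)
    linarith
  have e1 : ∫ x in ball (0 : E3) 1 ∩ TriS v, (Fv (H0 K x0) x + Fv (H0 K x0) (-x)) =
      ∫ x in ball (0 : E3) 1 ∩ TriS v, G x := by
    apply setIntegral_congr_fun (measurableSet_ball.inter (TriS_meas v))
    intro x hx
    have hx2 := hx.2
    have hxne : x ≠ 0 := by
      rintro rfl
      have := hx2.1
      simp at this
    have hH := H0_tri hK hw hS h hv hx2.1.le hx2.2.1.le hx2.2.2.le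
    have hsx : supp K x = ⟪x0 + v 0, x⟫ := by
      unfold H0 at hH
      rw [inner_add_left]
      linarith
    have hgr := gr2_support hK hw x0 hxne (hv 0) hsx
    rw [add_sub_cancel_left, ← real_inner_self_eq_norm_sq, h.diag] at hgr
    simp only [hG]
    rw [Fv_neg hK hw x0 hxne]
    unfold Fv
    rw [hgr, hH]
    ring
  rw [e1, TriS_cone h c2 c1 c0, chart c TR_meas TR_fin (C := 12)]
  · congr 1
    apply setIntegral_congr_fun TR_meas
    intro p hp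
    simp only [hG, gT]
    rw [norm_pt_one]
    have hl : ⟪v 0, pt c p.1 p.2 1⟫ = lT p := by
      rw [real_inner_comm, inner_pt, c0, c1, c2]
      have o01 := h.off 0 1 (by decide)
      have o10 := h.off 1 0 (by decide)
      have o20 := h.off 2 0 (by decide)
      have o30 := h.off 3 0 (by decide)
      have d := h.diag 0
      simp only [real_inner_smul_left, inner_add_left, inner_sub_left, d, o10, o20, o30]
      unfold lT
      ring
    rw [hl]
  · intro r hr x hx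
    simp only [hG, zpow_zero, one_mul]
    rw [norm_smul, Real.norm_of_nonneg hr.le, real_inner_smul_right]
    have : ‖x‖ ≠ 0 := norm_ne_zero_iff.2 hx
    field_simp
  · simp only [hG]
    have m1 : Measurable (fun x : E3 => ⟪v 0, x⟫) := by fun_prop
    exact ((((m1.pow_const 2).const_mul 6).div (measurable_norm.pow_const 2)).sub
      ((m1.const_mul 4).div measurable_norm)).add_const _
  · intro x hx
    have hn : 0 < ‖x‖ := norm_pos_iff.2 hx
    have h5 := hin x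
    have h6 := abs_le.1 h5
    have a : ⟪v 0, x⟫ ^ 2 / ‖x‖ ^ 2 ≤ 1 := by
      rw [div_le_one (by positivity), ← sq_abs]
      exact pow_le_pow_left₀ (abs_nonneg _) h5 2
    have a' : 0 ≤ ⟪v 0, x⟫ ^ 2 / ‖x‖ ^ 2 := by positivity
    have c : ⟪v 0, x⟫ / ‖x‖ ≤ 1 := by
      rw [div_le_one hn]
      exact h6.2
    have c' : -1 ≤ ⟪v 0, x⟫ / ‖x‖ := by
      rw [le_div_iff₀ hn]
      linarith [h6.1]
    simp only [hG]
    rw [mul_div_assoc, mul_div_assoc, abs_le]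
    constructor <;> linarith

/-- **Volume of a body of constant width containing a regular tetrahedron of edge `1`.** -/
theorem volume_tetra (hK : IsCompact K) (hc : Convex ℝ K) (hw : Width1 K) (hx0 : x0 ∈ K)
    (h : Gram4 v) (hv : ∀ i, x0 + v i ∈ K) {b1 b2 b3 : OrthonormalBasis (Fin 3) ℝ E3}
    (h1 : b1 0 = v 0 - v 1 ∧ b1 1 = v 2 - v 3 ∧ b1 2 = Real.sqrt 2 • (v 0 + v 1))
    (h2 : b2 0 = v 0 - v 2 ∧ b2 1 = v 1 - v 3 ∧ b2 2 = Real.sqrt 2 • (v 0 + v 2))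
    (h3 : b3 0 = v 0 - v 3 ∧ b3 1 = v 2 - v 1 ∧ b3 2 = Real.sqrt 2 • (v 0 + v 3)) :
    ENNReal.ofReal (CT + 1 / 2 * ((∫ p in SQ, qd (chP K x0 b1) p * (Nn p ^ 3)⁻¹) +
      (∫ p in SQ, qd (chP K x0 b2) p * (Nn p ^ 3)⁻¹) +
      (∫ p in SQ, qd (chP K x0 b3) p * (Nn p ^ 3)⁻¹))) ≤ volume K := by
  refine le_trans (ENNReal.ofReal_le_ofReal (le_of_eq ?_)) (volume_first hK hc hw hx0)
  have hS := supp1 hK hw hx0
  have hint : IntegrableOn (Fv (H0 K x0)) (ball (0 : E3) 1) := by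
    apply Measure.integrableOn_of_bounded (M := 4) measure_ball_lt_top.ne
    · exact (Fv_meas hS).aestronglyMeasurable
    · have hae : ∀ᵐ x : E3, x ≠ 0 := by simp [ae_iff, measure_singleton]
      filter_upwards [ae_restrict_of_ae hae] with x hx
      rw [Real.norm_eq_abs]
      exact Fv_bd hK hw hx0 hx
  rw [ball_decomp h hint]
  have g : ∀ σ : Equiv.Perm (Fin 4), Gram4 (fun i => v (σ i)) := fun σ => h.perm σ
  have gv : ∀ σ : Equiv.Perm (Fin 4), ∀ i, x0 + (fun i => v (σ i)) i ∈ K := fun σ i => hv _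
  rw [tri_part hK hw hx0 h hv, tri_part hK hw hx0 (g _) (gv _), tri_part hK hw hx0 (g _) (gv _),
    tri_part hK hw hx0 (g _) (gv _), sq_part hK hw hx0 h h1.1 h1.2.1 h1.2.2,
    sq_part hK hw hx0 (g _) (b := b2) h2.1 h2.2.1 h2.2.2,
    sq_part hK hw hx0 (g _) (b := b3) h3.1 h3.2.1 h3.2.2]
  unfold CT
  ring

end

end Helper14.CW
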